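import Pool.Agent.V7H76.MP.Local
import Pool.Agent.TH145.GC.Rank

/-!
Orders of the determinants, and the degrees of the determinants.
-/

set_option autoImplicit false

open MvPolynomial FF Pool.Agent.W603.LV Pool.Agent.W603.PV Pool.Agent.TH145.GH
open Pool.Agent.TH145.GC (Ev dF_sub det_row_zero det_scale_gen ord_prod)
open Pool.Agent.TH145.GE (ev dF_ev)

namespace Pool.Agent.V7H76.MP

variable {k K : Type} [Field k] [Field K] [Algebra k K] {n : ℕ} {A X ι : Type} [DecidableEq ι]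
  {g : Fin (n + 1) → ι}

/-- Scaling of the blocks of a point at a place. -/
theorem exists_scaledM (P : Place k K) {x : Fin (n + 1) → K}
    (hx : ∀ i, ∃ s, g s = i ∧ x s ≠ 0) :
    ∃ (lam : ι → K) (x' : Fin (n + 1) → K) (e1 : ι → Fin (n + 1)), (∀ i, lam i ≠ 0) ∧
      (∀ i, P.ord (lam i) = pord P (bl g i x)) ∧ (∀ s, x s = lam (g s) * x' s) ∧
      (∀ l, Ge P 0 (x' l)) ∧ (∀ i, g (e1 i) = i) ∧ ∀ i, x' (e1 i) = 1 := by
  have h1 : ∀ i, ∃ j, g j = i ∧ x j ≠ 0 ∧ P.ord (x j) = pord P (bl g i x) := by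
    intro i
    obtain ⟨s, hs, hxs⟩ := hx i
    obtain ⟨j, hj, hjP⟩ := exists_pord P (f := bl g i x) ⟨s, by
      unfold bl
      rwa [if_pos hs]⟩
    have hgj : g j = i := by
      by_contra hcon
      apply hj
      unfold bl
      rw [if_neg hcon]
    have hb : bl g i x j = x j := by
      unfold bl
      rw [if_pos hgj]
    rw [hb] at hj hjP
    exact ⟨j, hgj, hj, hjP⟩
  choose e1 hge1 hxe hxo using h1
  refine ⟨fun i => x (e1 i), fun s => (x (e1 (g s)))⁻¹ * x s, e1, hxe, hxo, fun s => ?_,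
    fun l => ?_, hge1, fun i => ?_⟩
  · rw [mul_inv_cancel_left₀ (hxe _)]
  · by_cases hl : x l = 0
    · left
      dsimp only
      rw [hl, mul_zero]
    · right
      dsimp only
      rw [P.ord_mul (inv_ne_zero (hxe _)) hl, P.ord_inv, hxo]
      have h2 : bl g (g l) x l = x l := by
        unfold bl
        rw [if_pos rfl]
      have h3 := pord_le P (f := bl g (g l) x) (j := l) (by rwa [h2])
      rw [h2] at h3
      omega
  · dsimp only
    rw [hge1]
    exact inv_mul_cancel₀ (hxe i)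

omit [DecidableEq ι] in
theorem ord_prod_zpow [Fintype ι] (P : Place k K) {lam : ι → K} (hlam : ∀ i, lam i ≠ 0)
    (m : ι → ℕ) : P.ord (∏ i, lam i ^ m i) = ∑ i, (m i : ℤ) * P.ord (lam i) := by
  rw [ord_prod P _ _ fun i _ => pow_ne_zero _ (hlam i)]
  exact Finset.sum_congr rfl fun i _ => P.ord_pow _ _

section

variable [Fintype ι] {dg : A → ι → ℕ} {D : A → (Fin (n + 1) →₀ ℕ) → Derivation ℤ K K}
  {E : X → Derivation ℤ K K}

open scoped Classical in
/-- The order of the determinant. -/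
theorem ord_theta [Fintype A] (P : Place k K) {x : Fin (n + 1) → K} {e : ι → Fin (n + 1)}
    (hge : ∀ i, g (e i) = i) (he : ∀ i, x (e i) ≠ 0)
    {b : Finset (Ix ι X n A ⊕ A)} (τ : b → Fin (n + 1)) (hb : ∀ a, Sum.inr a ∈ b)
    (hbi : ∀ i, Sum.inl (Sum.inl i) ∈ b)
    (hspan : Submodule.span K (Set.range (wv g dg D E x)) ≤
        Submodule.span K (wv g dg D E x '' {o | Sum.inl o ∈ b}))
    (hdet : (mx g dg D E x (base dg e) b τ).det ≠ 0) {B : ℤ}
    (hB : ∀ (x' : Fin (n + 1) → K) (e1 : ι → Fin (n + 1)), (∀ l, Ge P 0 (x' l)) →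
      (∀ i, g (e1 i) = i) → (mx g dg D E x' (base dg e1) b τ).det ≠ 0 →
      B ≤ P.ord (mx g dg D E x' (base dg e1) b τ).det) :
    ∑ i, ((tot X g b τ i : ℤ) - (∑ a, dg a i : ℕ)) * pord P (bl g i x) + B ≤
      P.ord ((mx g dg D E x (base dg e) b τ).det / ∏ a, mon x (base dg e a)) := by
  obtain ⟨lam, x', e1, hlam, hlo, hxx, hx', hge1, he1⟩ :=
    exists_scaledM (g := g) P fun i => ⟨e i, hge i, he i⟩
  have h1 := theta_scale (D := D) (E := E) (dg := dg) hge he hge1 hlam hxx he1 τ hb hbi hspan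
  have hZ : ∏ a, mon x (base dg e a) ≠ 0 := by
    refine Finset.prod_ne_zero_iff.2 fun a _ => ?_
    rw [mon_base]
    exact Finset.prod_ne_zero_iff.2 fun i _ => pow_ne_zero _ (he i)
  obtain ⟨Θ, hΘ⟩ : ∃ Θ, Θ = (mx g dg D E x (base dg e) b τ).det / ∏ a, mon x (base dg e a) :=
    ⟨_, rfl⟩
  have hΘ0 : Θ ≠ 0 := by
    rw [hΘ]
    exact div_ne_zero hdet hZ
  rw [← hΘ] at h1 ⊢
  have hp : ∀ m : ι → ℕ, ∏ i, lam i ^ m i ≠ 0 := fun m =>
    Finset.prod_ne_zero_iff.2 fun i _ => pow_ne_zero _ (hlam i)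
  have hdet' : (mx g dg D E x' (base dg e1) b τ).det ≠ 0 := by
    intro h0
    rw [h0, mul_zero] at h1
    exact mul_ne_zero (hp _) hΘ0 h1.symm
  have h2 := congrArg P.ord h1
  rw [P.ord_mul (hp _) hdet', P.ord_mul (hp _) hΘ0, ord_prod_zpow P hlam,
    ord_prod_zpow P hlam] at h2
  have h3 := hB x' e1 hx' hge1 hdet'
  simp only [hlo] at h2
  have h4 : ∑ i, ((tot X g b τ i : ℤ) - (∑ a, dg a i : ℕ)) * pord P (bl g i x) =
      ∑ i, (tot X g b τ i : ℤ) * pord P (bl g i x) -
        ∑ i, ((∑ a, dg a i : ℕ) : ℤ) * pord P (bl g i x) := by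
    rw [← Finset.sum_sub_distrib]
    exact Finset.sum_congr rfl fun i _ => sub_mul _ _ _
  rw [h4]
  linarith

/-- The projection of the vectors to a block. -/
def blkL (K : Type) [Field K] (g : Fin (n + 1) → ι) (i : ι) :
    (Fin (n + 1) → K) →ₗ[K] (Fin (n + 1) → K) where
  toFun := bl g i
  map_add' := fun y z => by
    funext l
    simp only [bl, Pi.add_apply]
    split_ifs
    · rfl
    · rw [add_zero]
  map_smul' := fun r z => by
    funext l
    simp only [bl, Pi.smul_apply, smul_eq_mul, RingHom.id_apply]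
    split_ifs
    · rfl
    · rw [mul_zero]

omit [Fintype ι] in
open scoped Classical in
/-- The number of the columns in a block. -/
theorem col_le {x : Fin (n + 1) → K} {I : A → Fin (n + 1) →₀ ℕ} (hI : ∀ a, mdeg g (I a) = dg a)
    {b : Finset (Ix ι X n A ⊕ A)} (τ : b → Fin (n + 1)) (hdet : (mx g dg D E x I b τ).det ≠ 0)
    (i : ι) {c : ℕ} (hc : Module.finrank K ((Full g dg D E x).map (blkL K g i)) ≤ c) :
    (Finset.univ.filter fun j : b => g (τ j) = i).card ≤ c := by
  obtain ⟨π, hπ⟩ : ∃ π : (Fin (n + 1) → K) →ₗ[K] ({j : b // g (τ j) = i} → K),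
      ∀ z j, π z j = z (τ j.1) :=
    ⟨{ toFun := fun z j => z (τ j.1)
       map_add' := fun _ _ => rfl
       map_smul' := fun _ _ => rfl }, fun _ _ => rfl⟩
  have h1 : ((Full g dg D E x).map (blkL K g i)).map π = ⊤ := by
    rw [eq_top_iff]
    intro u _
    obtain ⟨u', hu'⟩ : ∃ u' : b → K, u' = fun j => if h : g (τ j) = i then u ⟨j, h⟩ else 0 :=
      ⟨_, rfl⟩
    obtain ⟨v, hv⟩ : ∃ v : b → K, v = Matrix.vecMul u' (mx g dg D E x I b τ)⁻¹ := ⟨_, rfl⟩
    have h2 : Matrix.vecMul v (mx g dg D E x I b τ) = u' := by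
      rw [hv, Matrix.vecMul_vecMul, Matrix.nonsing_inv_mul _ (isUnit_iff_ne_zero.2 hdet),
        Matrix.vecMul_one]
    refine ⟨blkL K g i (∑ r : b, v r • vv g dg D E x I r.1), ⟨_, sum_mem fun r _ =>
      Submodule.smul_mem _ _ (vv_mem_full x hI r.1), rfl⟩, ?_⟩
    funext j
    rw [hπ]
    change bl g i (∑ r : b, v r • vv g dg D E x I r.1) (τ j.1) = u j
    unfold bl
    rw [if_pos j.2, Finset.sum_apply]
    have h3 := congrFun h2 j.1
    rw [hu'] at h3
    simp only [dif_pos j.2] at h3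
    rw [← h3]
    rfl
  have h2 := Submodule.finrank_map_le π ((Full g dg D E x).map (blkL K g i))
  rw [h1, finrank_top, Module.finrank_fintype_fun_eq_card, Fintype.card_subtype] at h2
  exact h2.trans hc

omit [Fintype ι] in
open scoped Classical in
/-- The degrees of the determinant. -/
theorem tot_le [Fintype ι] [Fintype A] [Fintype X] {x : Fin (n + 1) → K}
    {I : A → Fin (n + 1) →₀ ℕ} (hI : ∀ a, mdeg g (I a) = dg a)
    {b : Finset (Ix ι X n A ⊕ A)} (τ : b → Fin (n + 1)) (hb : ∀ a, Sum.inr a ∈ b)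
    (hbV : ∀ r ∈ Vert ι X n A, r ∈ b) (hdet : (mx g dg D E x I b τ).det ≠ 0) {m : ℕ}
    (hcard : b.card ≤ m + Fintype.card ι) (i : ι) {c : ℕ}
    (hc : Module.finrank K ((Full g dg D E x).map (blkL K g i)) ≤ c + 1) :
    tot X g b τ i + Fintype.card A + Fintype.card X ≤ m + c + 1 := by
  -- the rows
  have h1 : ∑ r ∈ b, rt X g r i + Fintype.card A + Fintype.card X ≤ m := by
    obtain ⟨f, hf⟩ : ∃ f : ι ⊕ (X ⊕ A) → Ix ι X n A ⊕ A, f = Sum.elim
      (fun i => Sum.inl (Sum.inl i)) (Sum.elim (fun ξ => Sum.inl (Sum.inr (Sum.inl ξ)))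
        Sum.inr) := ⟨_, rfl⟩
    have hfi : Function.Injective f := by
      rw [hf]
      rintro (i | ξ | a) (j | η | c) h <;> simp_all
    obtain ⟨b', hb'⟩ : ∃ b', b' = Finset.univ.image f := ⟨_, rfl⟩
    have h1 : b' ⊆ b := by
      rw [hb']
      intro r hr
      obtain ⟨(i | ξ | a), -, rfl⟩ := Finset.mem_image.1 hr
      · rw [hf]; exact hbV _ (Or.inl ⟨i, rfl⟩)
      · rw [hf]; exact hbV _ (Or.inr ⟨ξ, rfl⟩)
      · rw [hf]; exact hb a
    have h2 : b'.card = Fintype.card ι + (Fintype.card X + Fintype.card A) := by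
      rw [hb', Finset.card_image_of_injective _ hfi, Finset.card_univ, Fintype.card_sum,
        Fintype.card_sum]
    have h3 : ∑ r ∈ b', rt X g r i = 0 := by
      refine Finset.sum_eq_zero fun r hr => ?_
      rw [hb'] at hr
      obtain ⟨(j | ξ | a), -, rfl⟩ := Finset.mem_image.1 hr <;> rw [hf] <;> rfl
    have h4 : ∑ r ∈ b \ b', rt X g r i ≤ (b \ b').card := by
      rw [Finset.card_eq_sum_ones]
      refine Finset.sum_le_sum fun r _ => ?_
      rcases r with (_ | _ | t) | _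
      · exact zero_le_one
      · exact zero_le_one
      · simp only [rt]
        by_cases h : g t.2.2.1 = i
        · rw [← h, Pi.single_eq_same]
        · rw [Pi.single_eq_of_ne (Ne.symm h)]
          exact zero_le_one
      · exact zero_le_one
    have h5 := Finset.sum_sdiff (f := fun r => rt X g r i) h1
    have h6 := Finset.card_sdiff_add_card_eq_card h1
    omega
  have h2 := col_le hI τ hdet i hc
  unfold tot
  omega

end

end Pool.Agent.V7H76.MP
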