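import Pool.Agent.V7H76.MP.Setup
import Pool.Agent.TH145.GC.Scale

/-!
Forms whose coefficients have algebraically independent ratios; points of products of projective
spaces.
-/

set_option autoImplicit false

open MvPolynomial Pool.Agent.W602.GT LinearAlgebra.Projectivization Pool.Agent.TH145.GH
open Pool.Agent.TH145.GC (exists_big)

namespace Pool.Agent.V7H76.MP

/-- The indices of the ratios of the coefficients. -/
abbrev Rt {n : ℕ} {A ι : Type} [DecidableEq ι] (g : Fin (n + 1) → ι) (dg : A → ι → ℕ)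
    (I0 : A → Fin (n + 1) →₀ ℕ) :=
  Σ a : A, {I : Fin (n + 1) →₀ ℕ // mdeg g I = dg a ∧ I ≠ I0 a}

/-- The coefficients of the scaled forms are independent. -/
theorem indep_scale {k0 K K' : Type} [Field k0] [Field K] [Field K'] [Algebra k0 K] [Algebra K K']
    [Algebra k0 K'] [IsScalarTower k0 K K'] {n : ℕ} {A ι : Type} [DecidableEq ι]
    {g : Fin (n + 1) → ι} [Finite A] {dg : A → ι → ℕ}
    (F : A → MvPolynomial (Fin (n + 1)) K) (I0 : A → Fin (n + 1) →₀ ℕ)
    (hI0 : ∀ a, mdeg g (I0 a) = dg a) (h0 : ∀ a, (F a).coeff (I0 a) ≠ 0)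
    (hind : AlgebraicIndependent k0 fun p : Rt g dg I0 =>
      (F p.1).coeff p.2.1 / (F p.1).coeff (I0 p.1)) {t : A → K'}
    (ht : AlgebraicIndependent K t) :
    AlgebraicIndependent k0 fun p : Cf g dg =>
      t p.1 / algebraMap K K' ((F p.1).coeff (I0 p.1)) *
        algebraMap K K' ((F p.1).coeff p.2.1) := by
  classical
  have h2 := AlgebraicIndependent.sumElim_comp hind ht
  obtain ⟨e, he⟩ : ∃ e : Cf g dg → A ⊕ Rt g dg I0, ∀ p, e p = if h : p.2.1 ≠ I0 p.1 then
    Sum.inr ⟨p.1, ⟨p.2.1, p.2.2, h⟩⟩ else Sum.inl p.1 := ⟨_, fun _ => rfl⟩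
  have hei : Function.Injective e := by
    rintro ⟨a, I, hI⟩ ⟨b, J, hJ⟩ hij
    rw [he, he] at hij
    by_cases hi : I = I0 a <;> by_cases hj : J = I0 b
    · rw [dif_neg (by rw [not_not]; exact hi), dif_neg (by rw [not_not]; exact hj)] at hij
      have h3 : a = b := Sum.inl_injective hij
      subst h3
      subst hi
      subst hj
      rfl
    · rw [dif_neg (by rw [not_not]; exact hi), dif_pos hj] at hij
      exact absurd hij (by simp)
    · rw [dif_pos hi, dif_neg (by rw [not_not]; exact hj)] at hij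
      exact absurd hij (by simp)
    · rw [dif_pos hi, dif_pos hj] at hij
      have h3 := Sum.inr_injective hij
      have h4 : a = b := congrArg Sigma.fst h3
      subst h4
      have h5 := congrArg Subtype.val (eq_of_heq (Sigma.mk.inj_iff.1 h3).2)
      have h6 : I = J := h5
      subst h6
      rfl
  have h3 := h2.comp e hei
  have h4 : ∀ a, algebraMap K K' ((F a).coeff (I0 a)) ≠ 0 := fun a => by
    rw [Ne, map_eq_zero]; exact h0 a
  have ht0 : ∀ a, t a ≠ 0 := fun a => by
    intro h5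
    have h6 : Transcendental K (t a) := ht.transcendental a
    rw [h5] at h6
    exact h6 (by
      have := isAlgebraic_algebraMap (R := K) (A := K') 0
      rwa [map_zero] at this)
  have hti : ∀ a, t a / algebraMap K K' ((F a).coeff (I0 a)) *
      algebraMap K K' ((F a).coeff (I0 a)) = t a := fun a => div_mul_cancel₀ _ (h4 a)
  have htm : ∀ a, t a ∈ Pool.Agent.TH145.MG.cl k0 (Set.range fun p : Cf g dg =>
      t p.1 / algebraMap K K' ((F p.1).coeff (I0 p.1)) *
        algebraMap K K' ((F p.1).coeff p.2.1)) := fun a =>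
    Pool.Agent.TH145.MG.subset_cl ⟨⟨a, I0 a, hI0 a⟩, hti a⟩
  have := finite_cf (n := n) g dg
  refine Pool.Agent.TH145.MG.indep_of_mem _ _ h3 fun p => ?_
  rw [Function.comp_apply, he]
  by_cases hi : p.2.1 = I0 p.1
  · rw [dif_neg (by rw [not_not]; exact hi)]
    exact htm p.1
  · rw [dif_pos hi]
    have h5 : algebraMap K K' ((F p.1).coeff p.2.1 / (F p.1).coeff (I0 p.1)) =
        (t p.1 / algebraMap K K' ((F p.1).coeff (I0 p.1)) *
          algebraMap K K' ((F p.1).coeff p.2.1)) / t p.1 := by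
      have h6 := h4 p.1
      have h7 := ht0 p.1
      rw [map_div₀]
      field_simp
    change algebraMap K K' ((F p.1).coeff p.2.1 / (F p.1).coeff (I0 p.1)) ∈ _
    rw [h5]
    exact div_mem (Pool.Agent.TH145.MG.subset_cl ⟨p, rfl⟩) (htm p.1)

/-- Finiteness of the points, if the ratios of the coefficients are independent. -/
theorem fin_points' {k0 K : Type} [Field k0] [Field K] [Algebra k0 K] [IsAlgClosed K]
    [CharZero K] [IsAlgClosed k0] {n m : ℕ} {A ι : Type} [DecidableEq ι] [Fintype ι] {μ : ι → ℕ}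
    {g : Fin (n + 1) → ι} [Fintype A] {dg : A → ι → ℕ}
    (hd : ∀ i, m + μ i + 2 ≤ ∑ a, dg a i + Fintype.card A)
    (V : Set (MvPolynomial (Fin (n + 1)) k0)) (hV : DimLEM g k0 V m μ)
    (F : A → MvPolynomial (Fin (n + 1)) K) (hF : ∀ a, MH g (F a) (dg a))
    (I0 : A → Fin (n + 1) →₀ ℕ) (h0 : ∀ a, (F a).coeff (I0 a) ≠ 0)
    (hind : AlgebraicIndependent k0 fun p : Rt g dg I0 =>
      (F p.1).coeff p.2.1 / (F p.1).coeff (I0 p.1))
    (T : Finset K) {l0 : ι → Fin (n + 1)} (hg0 : ∀ i, g (l0 i) = i) :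
    {x : Fin (n + 1) → K | (∀ j, x j ∈ IntermediateField.adjoin k0 (T : Set K)) ∧
      (∀ i, x (l0 i) = 1) ∧
      (∀ f ∈ V, aeval x f = 0) ∧ (∀ a, eval x (F a) = 0)}.Finite := by
  classical
  obtain ⟨K', _, _, hK', hc, t, ht⟩ := exists_big K A
  let _ : Algebra k0 K' := ((algebraMap K K').comp (algebraMap k0 K)).toAlgebra
  have hst : IsScalarTower k0 K K' := IsScalarTower.of_algebraMap_eq fun _ => rfl
  have hI0 : ∀ a, mdeg g (I0 a) = dg a := fun a => hF a _ (mem_support_iff.2 (h0 a))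
  have h1 := indep_scale (k0 := k0) (K' := K') F I0 hI0 h0 hind ht
  obtain ⟨G, hG⟩ : ∃ G : A → MvPolynomial (Fin (n + 1)) K', ∀ a, G a =
    MvPolynomial.C (t a / algebraMap K K' ((F a).coeff (I0 a))) * map (algebraMap K K') (F a) :=
    ⟨_, fun _ => rfl⟩
  have h2 : ∀ a, MH g (G a) (dg a) := fun a u hu => by
    apply hF a u
    rw [mem_support_iff] at hu ⊢
    intro h0
    apply hu
    rw [hG, coeff_C_mul, coeff_map, h0, map_zero, mul_zero]
  have h4 : (fun p : Cf g dg => (G p.1).coeff p.2.1) =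
      fun p => t p.1 / algebraMap K K' ((F p.1).coeff (I0 p.1)) *
        algebraMap K K' ((F p.1).coeff p.2.1) := by
    funext p
    rw [hG, coeff_C_mul, coeff_map]
  have h5 : AlgebraicIndependent k0 (fun p : Cf g dg => (G p.1).coeff p.2.1) := by
    rw [h4]
    exact h1
  obtain ⟨T', hT'⟩ : ∃ T' : Finset K', T' = T.image (algebraMap K K') := ⟨_, rfl⟩
  have h3 := fin_points (k0 := k0) hd V hV h2 h5 T' hg0
  have hev : ∀ (a : A) (x : Fin (n + 1) → K), eval (fun j => algebraMap K K' (x j)) (G a) =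
      t a / algebraMap K K' ((F a).coeff (I0 a)) * algebraMap K K' (eval x (F a)) := by
    intro a x
    rw [hG, map_mul, eval_map, eval_C]
    have h5 := eval₂_comp_left (algebraMap K K') (RingHom.id K) x (F a)
    rw [RingHom.comp_id] at h5
    congr 1
    exact h5.symm
  refine Set.Finite.of_finite_image (f := fun x j => algebraMap K K' (x j)) (h3.subset ?_) ?_
  · rintro _ ⟨x, ⟨hx, hxl, hxV, hxC⟩, rfl⟩
    refine ⟨fun j => ?_, fun i => ?_, fun f hf => ?_, fun a => ?_⟩
    · have h4 : (IntermediateField.adjoin k0 (T : Set K)).map (IsScalarTower.toAlgHom k0 K K') =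
          IntermediateField.adjoin k0 ((T.image (algebraMap K K') : Finset K') : Set K') := by
        rw [IntermediateField.adjoin_map, Finset.coe_image]
        rfl
      rw [hT', ← h4]
      exact ⟨x j, hx j, rfl⟩
    · dsimp only
      rw [hxl, map_one]
    · have h6 := congrArg (algebraMap K K') (hxV f hf)
      rw [map_zero] at h6
      rw [← h6]
      exact (hom_eval₂ f (algebraMap k0 K) (algebraMap K K') x).symm
    · rw [hev, hxC a, map_zero, mul_zero]
  · intro x _ x' _ hxx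
    funext j
    exact (algebraMap K K').injective (congrFun hxx j)

/-- The value of a multihomogeneous form at a scaled point. -/
theorem aeval_scaleM {k K : Type} [Field k] [Field K] [Algebra k K] {n : ℕ} {ι : Type}
    [DecidableEq ι] [Fintype ι] {g : Fin (n + 1) → ι} {f : MvPolynomial (Fin (n + 1)) k}
    {e : ι → ℕ} (hf : MH g f e) (lam : ι → K) (x : Fin (n + 1) → K) :
    aeval (fun s => lam (g s) * x s) f = (∏ i, lam i ^ e i) * aeval x f := by
  simp only [aeval_def, eval₂_eq', Finset.mul_sum]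
  refine Finset.sum_congr rfl fun u hu => ?_
  have h1 : ∏ s, (lam (g s) * x s) ^ u s = (∏ i, lam i ^ e i) * ∏ s, x s ^ u s := by
    simp only [mul_pow]
    rw [Finset.prod_mul_distrib]
    congr 1
    rw [← hf u hu]
    unfold mdeg
    simp only [← Finset.prod_pow_eq_pow_sum]
    rw [Finset.prod_comm]
    refine Finset.prod_congr rfl fun s _ => ?_
    rw [Finset.prod_eq_single (g s)]
    · rw [if_pos rfl]
    · intro i _ hi
      rw [if_neg (Ne.symm hi), pow_zero]
    · intro h; exact absurd (Finset.mem_univ _) h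
  rw [h1]
  ring

/-- The points of the product of the projective spaces with coordinates `x_s`, `g s = i`, with
coordinates in the field `R`, that satisfy `Q`. -/
def PtsM {n : ℕ} {ι : Type} (g : Fin (n + 1) → ι) {K : Type} [Field K] (R : Set K)
    (Q : (Fin (n + 1) → K) → Prop) : Set (∀ i, ℙ K ({s // g s = i} → K)) :=
  {p | ∃ x : Fin (n + 1) → K, (∀ s, x s ∈ R) ∧ Q x ∧
    ∀ i, ∃ hx : (fun s : {s // g s = i} => x s) ≠ 0, p i = Projectivization.mk K _ hx}

/-- Finiteness of the points, if the normalised points are finite in number. -/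
theorem pts_finite {n : ℕ} {ι : Type} [Finite ι] {g : Fin (n + 1) → ι} {K : Type} [Field K]
    (R : Subfield K) (Q : (Fin (n + 1) → K) → Prop)
    (hQ : ∀ (lam : ι → K) (x : Fin (n + 1) → K), (∀ i, lam i ≠ 0) → Q x →
      Q fun s => lam (g s) * x s)
    (h : ∀ l0 : ι → Fin (n + 1), (∀ i, g (l0 i) = i) →
      {x : Fin (n + 1) → K | (∀ s, x s ∈ R) ∧ (∀ i, x (l0 i) = 1) ∧ Q x}.Finite) :
    (PtsM g (R : Set K) Q).Finite := by
  classical
  have h1 : ∀ p ∈ PtsM g (R : Set K) Q, ∃ x : Fin (n + 1) → K,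
      (x ∈ ⋃ l0 : {l0 : ι → Fin (n + 1) // ∀ i, g (l0 i) = i},
        {x : Fin (n + 1) → K | (∀ s, x s ∈ R) ∧ (∀ i, x (l0.1 i) = 1) ∧ Q x}) ∧
      ∀ i, ∃ hx : (fun s : {s // g s = i} => x s) ≠ 0, p i = Projectivization.mk K _ hx := by
    rintro p ⟨x, hxR, hxQ, hx⟩
    choose hx0 hp using hx
    have h2 : ∀ i, ∃ l, g l = i ∧ x l ≠ 0 := by
      intro i
      obtain ⟨⟨l, hl⟩, hl0⟩ := Function.ne_iff.1 (hx0 i)
      exact ⟨l, hl, hl0⟩
    choose l0 hg0 hl0 using h2
    have hi0 : ∀ i, (x (l0 i))⁻¹ ≠ 0 := fun i => inv_ne_zero (hl0 i)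
    have h3 : ∀ i, (fun s : {s // g s = i} => (x (l0 (g s)))⁻¹ * x s) =
        (x (l0 i))⁻¹ • fun s : {s // g s = i} => x s := by
      intro i
      funext s
      rw [Pi.smul_apply, smul_eq_mul, s.2]
    have h4 : ∀ i, (fun s : {s // g s = i} => (x (l0 (g s)))⁻¹ * x s) ≠ 0 := by
      intro i
      rw [h3]
      exact smul_ne_zero (hi0 i) (hx0 i)
    refine ⟨fun s => (x (l0 (g s)))⁻¹ * x s, Set.mem_iUnion.2 ⟨⟨l0, hg0⟩, fun s => ?_, fun i => ?_,
      hQ (fun i => (x (l0 i))⁻¹) x hi0 hxQ⟩, fun i => ⟨h4 i, ?_⟩⟩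
    · exact mul_mem (inv_mem (hxR _)) (hxR _)
    · dsimp only
      rw [hg0]
      exact inv_mul_cancel₀ (hl0 i)
    · rw [hp i, Projectivization.mk_eq_mk_iff']
      refine ⟨x (l0 i), ?_⟩
      rw [h3, smul_smul, mul_inv_cancel₀ (hl0 i), one_smul]
  choose! f hf hfp using h1
  refine Set.Finite.of_injOn (f := f) hf (fun p hp q hq hpq => ?_) (Set.finite_iUnion fun l0 =>
    h l0.1 l0.2)
  funext i
  obtain ⟨h2, h3⟩ := hfp p hp i
  obtain ⟨h4, h5⟩ := hfp q hq i
  rw [h3, h5]
  congr 1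
  rw [hpq]

variable {k K : Type} [Field k] [Field K] [IsAlgClosed K] [CharZero K] [Algebra k K] {n m : ℕ}
  {A ι : Type} [DecidableEq ι] [Fintype ι] {μ : ι → ℕ} {g : Fin (n + 1) → ι} [Fintype A]
  {dg : A → ι → ℕ}

/-- The points over a finitely generated field. -/
theorem fin_prod
    (hd : ∀ i, m + μ i + 2 ≤ ∑ a, dg a i + Fintype.card A)
    (V : Set (MvPolynomial (Fin (n + 1)) (algebraicClosure k K)))
    (hVh : ∀ f ∈ V, ∃ e, MH g f e) (hV : DimLEM g (algebraicClosure k K) V m μ)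
    (F : A → MvPolynomial (Fin (n + 1)) K) (hF : ∀ a, MH g (F a) (dg a))
    (I0 : A → Fin (n + 1) →₀ ℕ) (h0 : ∀ a, (F a).coeff (I0 a) ≠ 0)
    (hind : AlgebraicIndependent k fun p : Rt g dg I0 =>
      (F p.1).coeff p.2.1 / (F p.1).coeff (I0 p.1)) (T : Finset K) :
    (PtsM g (IntermediateField.adjoin (algebraicClosure k K) (T : Set K) : Set K)
      fun x => (∀ f ∈ V, aeval x f = 0) ∧ ∀ a, eval x (F a) = 0).Finite := by
  have hac : IsAlgClosed (algebraicClosure k K) := (algebraicClosure.isAlgClosure k K).isAlgClosed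
  refine pts_finite (IntermediateField.adjoin (algebraicClosure k K) (T : Set K)).toSubfield
    (fun x => (∀ f ∈ V, aeval x f = 0) ∧ ∀ a, eval x (F a) = 0) (fun lam x hlam hx => ?_)
    fun l0 hg0 => ?_
  · refine ⟨fun f hf => ?_, fun a => ?_⟩
    · obtain ⟨e, he⟩ := hVh f hf
      rw [aeval_scaleM he, hx.1 f hf, mul_zero]
    · have h1 := aeval_scaleM (K := K) (hF a) lam x
      rw [aeval_eq_eval, aeval_eq_eval] at h1
      rw [h1, hx.2 a, mul_zero]
  · exact fin_points' hd V hV F hF I0 h0 hind.algebraicClosure T hg0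

end Pool.Agent.V7H76.MP
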