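import Pool.Agent.V7H76.MP.Dual
import Pool.Agent.V7H76.MP.Est
import Pool.Agent.V7H76.MP.Scale
import Pool.Agent.TH145.GF.Main

/-!
Subvarieties of generic complete intersections in products of projective spaces are of general
type.
-/

set_option autoImplicit false

open MvPolynomial FF Pool.Agent.W603.LV Pool.Agent.W603.PV Pool.Agent.TH145.GH
open Pool.Agent.TH145.GC (Ev exists_minor)
open Pool.Agent.TH145.GE (ev dF_ev)
open Pool.Agent.TH145.GF (vE det_dec der_comb exists_coord_basis)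
open Pool.Agent.W602.GT Pool.Agent.TH145.MG

namespace Pool.Agent.V7H76.MP

/-- The expansion of a multihomogeneous form. -/
theorem MH.expand {K : Type} [Field K] {n : ℕ} {ι : Type} [DecidableEq ι] {g : Fin (n + 1) → ι}
    {F : MvPolynomial (Fin (n + 1)) K} {d : ι → ℕ} (hF : MH g F d)
    [Fintype {I : Fin (n + 1) →₀ ℕ // mdeg g I = d}] :
    F = ∑ j : {I : Fin (n + 1) →₀ ℕ // mdeg g I = d}, C (F.coeff j.1) * monomial j.1 1 := by
  classical
  ext u
  rw [coeff_sum]
  simp only [coeff_C_mul, coeff_monomial, mul_ite, mul_one, mul_zero]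
  by_cases h : mdeg g u = d
  · rw [Finset.sum_eq_single ⟨u, h⟩]
    · rw [if_pos rfl]
    · intro j _ hj
      rw [if_neg fun h' => hj (Subtype.ext h')]
    · intro h; exact absurd (Finset.mem_univ _) h
  · rw [Finset.sum_eq_zero]
    · by_contra hc
      exact h (hF u (mem_support_iff.2 hc))
    · intro j _
      rw [if_neg fun h' => h (by rw [← h']; exact j.2)]

/-- The field generated by the ratios of the coordinates in the same block, for the blocks with
indices in `S`. -/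
def coordsS {n : ℕ} {ι : Type} (g : Fin (n + 1) → ι) (S : Set ι) (k : Type) {K : Type} [Field k]
    [Field K] [Algebra k K] (x : Fin (n + 1) → K) : IntermediateField k K :=
  IntermediateField.adjoin k {z | ∃ i j, g i = g j ∧ g j ∈ S ∧ x j ≠ 0 ∧ z = x i / x j}

open scoped Classical in
/-- Subvarieties of generic complete intersections in products of projective spaces are of general
type. -/
theorem general_prod {k0 K L : Type} [Field k0] [Field K] [Field L] [Algebra k0 K] [Algebra K L]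
    [IsAlgClosed K] [CharZero K] {n m w : ℕ} {A ι : Type} [DecidableEq ι] [Fintype ι]
    {μ : ι → ℕ} {g : Fin (n + 1) → ι} [Fintype A] {dg : A → ι → ℕ}
    (V : Set (MvPolynomial (Fin (n + 1)) k0)) (hVh : ∀ f ∈ V, ∃ e, MH g f e)
    (hV : DimLEM g k0 V m μ)
    (F : A → MvPolynomial (Fin (n + 1)) K) (hF : ∀ a, MH g (F a) (dg a))
    (I0 : A → Fin (n + 1) →₀ ℕ) (h0 : ∀ a, (F a).coeff (I0 a) ≠ 0)
    (hind : AlgebraicIndependent k0 fun p : Rt g dg I0 =>
      (F p.1).coeff p.2.1 / (F p.1).coeff (I0 p.1))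
    (hw : 0 < w) (S : Set ι)
    (hd : ∀ i, m + μ i + 1 ≤ ∑ a, dg a i + Fintype.card A + w)
    (hdS : ∀ i ∈ S, m + μ i + 2 ≤ ∑ a, dg a i + Fintype.card A + w)
    (htr : Algebra.trdeg K L = w) (x : Fin (n + 1) → L) (hx0 : ∀ i, ∃ s, g s = i ∧ x s ≠ 0)
    (hgen : Algebra.IsAlgebraic (coordsS g S K x) L)
    (hxV : ∀ f ∈ V, aeval x (map (algebraMap k0 K) f) = 0)
    (hxF : ∀ a, aeval x (F a) = 0) : GeneralType K L w := by
  let _ : Algebra k0 L := ((algebraMap K L).comp (algebraMap k0 K)).toAlgebra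
  have hst : IsScalarTower k0 K L := IsScalarTower.of_algebraMap_eq fun _ => rfl
  have hL : CharZero L := charZero_of_injective_algebraMap (algebraMap K L).injective
  choose l0 hg0 hl0 using hx0
  obtain ⟨lam, hlam⟩ : ∃ lam : ι → L, ∀ i, lam i = (x (l0 i))⁻¹ := ⟨_, fun _ => rfl⟩
  have hlam0 : ∀ i, lam i ≠ 0 := fun i => by
    rw [hlam]
    exact inv_ne_zero (hl0 i)
  obtain ⟨x', hx'⟩ : ∃ x' : Fin (n + 1) → L, x' = fun s => lam (g s) * x s := ⟨_, rfl⟩
  have hx1 : ∀ i, x' (l0 i) = 1 := fun i => by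
    rw [hx']
    dsimp only
    rw [hg0, hlam]
    exact inv_mul_cancel₀ (hl0 i)
  have hco : coordsS g S K x' = coordsS g S K x := by
    unfold coordsS
    congr 1
    ext z
    constructor
    · rintro ⟨i, j, hij, hjS, hj, rfl⟩
      refine ⟨i, j, hij, hjS, fun h => hj (by rw [hx']; simp [h]), ?_⟩
      rw [hx']
      dsimp only
      rw [hij, mul_div_mul_left _ _ (hlam0 _)]
    · rintro ⟨i, j, hij, hjS, hj, rfl⟩
      refine ⟨i, j, hij, hjS, ?_, ?_⟩
      · rw [hx']; exact mul_ne_zero (hlam0 _) hj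
      · rw [hx']
        dsimp only
        rw [hij, mul_div_mul_left _ _ (hlam0 _)]
  obtain ⟨xS, hxS⟩ : ∃ xS : Fin (n + 1) → L, ∀ s, xS s = if g s ∈ S then x' s else 0 :=
    ⟨_, fun _ => rfl⟩
  obtain ⟨l, hl, hlS⟩ : ∃ l : Fin w → Fin (n + 1), (IsTranscendenceBasis K fun i => x' (l i)) ∧
      ∀ j, g (l j) ∈ S := by
    have h1 : coordsS g S K x' ≤ coords K xS := by
      unfold coordsS
      rw [IntermediateField.adjoin_le_iff]
      rintro z ⟨i, j, hij, hjS, hj, rfl⟩
      refine IntermediateField.subset_adjoin _ _ ⟨i, j, ?_, ?_⟩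
      · rw [hxS, if_pos hjS]; exact hj
      · rw [hxS, hxS, if_pos hjS, if_pos (by rw [hij]; exact hjS)]
    obtain ⟨l, hl⟩ := exists_coord_basis htr (x := xS) (by
      rw [hco] at h1
      exact ⟨fun z => Pool.Agent.TH145.MF.alg_mono (F1 := (coordsS g S K x).toSubfield)
        (F2 := (coords K xS).toSubfield) (fun z hz => h1 hz) (hgen.isAlgebraic z)⟩)
    have hlS : ∀ j, g (l j) ∈ S := by
      intro j
      by_contra hcon
      have h2 := hl.1.transcendental j
      rw [hxS, if_neg hcon] at h2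
      exact h2 (by
        have := isAlgebraic_algebraMap (R := K) (A := L) 0
        rwa [map_zero] at this)
    refine ⟨l, ?_, hlS⟩
    have h2 : (fun i => x' (l i)) = fun i => xS (l i) := by
      funext i
      rw [hxS, if_pos (hlS i)]
    rw [h2]
    exact hl
  obtain ⟨t, ht⟩ : ∃ t : Fin w → L, ∀ i, t i = x' (l i) := ⟨_, fun _ => rfl⟩
  have htb : IsTranscendenceBasis K t := by
    have : t = fun i => x' (l i) := funext ht
    rw [this]
    exact hl
  -- the forms
  have hI0 : ∀ a, mdeg g (I0 a) = dg a := fun a => hF a _ (mem_support_iff.2 (h0 a))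
  have hfin : ∀ a, Finite {I : Fin (n + 1) →₀ ℕ // mdeg g I = dg a} := fun a =>
    (finite_mdeg g (dg a)).to_subtype
  let _ : ∀ a, Fintype {I : Fin (n + 1) →₀ ℕ // mdeg g I = dg a} := fun a => Fintype.ofFinite _
  obtain ⟨cg, hcg⟩ : ∃ cg : ∀ a, {I : Fin (n + 1) →₀ ℕ // mdeg g I = dg a} → K, ∀ a j,
    cg a j = (F a).coeff j.1 / (F a).coeff (I0 a) := ⟨fun a j => _, fun _ _ => rfl⟩
  obtain ⟨G, hG⟩ : ∃ G : A → MvPolynomial (Fin (n + 1)) K, ∀ a, G a =
    ∑ j, C (cg a j) * map (algebraMap k0 K) (monomial j.1 1) := ⟨_, fun _ => rfl⟩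
  have hGF : ∀ a, G a = C ((F a).coeff (I0 a))⁻¹ * F a := fun a => by
    obtain ⟨c, hc⟩ : ∃ c, c = (F a).coeff (I0 a) := ⟨_, rfl⟩
    have h1 : ∀ j, cg a j = c⁻¹ * (F a).coeff j.1 := fun j => by
      rw [hcg, ← hc, div_eq_mul_inv, mul_comm]
    rw [← hc]
    conv_rhs => rw [(hF a).expand]
    rw [hG, Finset.mul_sum]
    refine Finset.sum_congr rfl fun j _ => ?_
    rw [← mul_assoc, ← C_mul, h1, MvPolynomial.map_monomial, RingHom.map_one]
  have hGh : ∀ a, MH g (G a) (dg a) := fun a u hu => by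
    apply hF a u
    rw [mem_support_iff] at hu ⊢
    intro h1
    apply hu
    rw [hGF, coeff_C_mul, h1, mul_zero]
  obtain ⟨D, ε, hD, hDS, hDk⟩ := exists_dualM (g := g) htb (dg := dg)
    (J := fun a => {I : Fin (n + 1) →₀ ℕ // mdeg g I = dg a})
    (fun a j => monomial j.1 1) cg (fun a => ⟨I0 a, hI0 a⟩)
    (fun a => by rw [hcg, div_self (h0 a)]) (by
      obtain ⟨f, hf⟩ : ∃ f : (Σ a, {j : {I : Fin (n + 1) →₀ ℕ // mdeg g I = dg a} //
          j ≠ ⟨I0 a, hI0 a⟩}) → Rt g dg I0, ∀ p, f p = ⟨p.1, ⟨p.2.1.1, p.2.1.2, fun h =>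
            p.2.2 (Subtype.ext h)⟩⟩ := ⟨_, fun _ => rfl⟩
      have hfi : Function.Injective f := by
        rintro ⟨a, ⟨⟨I, hI⟩, hI'⟩⟩ ⟨b, ⟨⟨J, hJ⟩, hJ'⟩⟩ h
        rw [hf, hf] at h
        have h4 : a = b := congrArg Sigma.fst h
        subst h4
        have h5 := congrArg Subtype.val (eq_of_heq (Sigma.mk.inj_iff.1 h).2)
        have h6 : I = J := h5
        subst h6
        rfl
      have h1 := hind.comp f hfi
      have h2 : (fun p : (Σ a, {j : {I : Fin (n + 1) →₀ ℕ // mdeg g I = dg a} //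
          j ≠ ⟨I0 a, hI0 a⟩}) => cg p.1 p.2.1) = (fun p : Rt g dg I0 =>
          (F p.1).coeff p.2.1 / (F p.1).coeff (I0 p.1)) ∘ f := by
        funext p
        rw [Function.comp_apply, hf, hcg]
      rw [h2]
      exact h1)
    (fun a I hI => ⟨⟨I, hI⟩, rfl⟩) hG
  obtain ⟨H, hH⟩ : ∃ H : A → MvPolynomial (Fin (n + 1)) L, H = fun a =>
    map (algebraMap K L) (G a) := ⟨_, rfl⟩
  rw [← hH] at hD
  have hHh : ∀ a, MH g (H a) (dg a) := fun a => by
    rw [hH]
    exact (hGh a).map g _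
  have hFK : ∀ (δ : Derivation K L L) a u, δ ((H a).coeff u) = 0 := fun δ a u => by
    rw [hH, coeff_map]
    exact δ.map_algebraMap _
  have hxC' : ∀ a, eval x' (H a) = 0 := by
    intro a
    have h1 := aeval_scaleM (hF a) lam x
    rw [hxF a, mul_zero, ← hx'] at h1
    rw [hH]
    dsimp only
    rw [eval_map, hGF, eval₂_mul, eval₂_C]
    have h2 : eval₂ (algebraMap K L) x' (F a) = 0 := h1
    rw [h2, mul_zero]
  have hVx : ∀ f ∈ V, aeval x' f = 0 := by
    intro f hf
    have h3 : aeval x f = 0 := by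
      have h4 := hxV f hf
      rw [aeval_map_algebraMap] at h4
      exact h4
    obtain ⟨e, he⟩ := hVh f hf
    rw [hx', aeval_scaleM he lam x, h3, mul_zero]
  -- the vertical derivations
  obtain ⟨E, hE⟩ : ∃ E : Fin w → Derivation K L L, ∀ i j, E i (t j) = if i = j then 1 else 0 := by
    obtain ⟨E, hE⟩ := exists_dual htb
    refine ⟨E, fun i j => ?_⟩
    have := congrFun (congrFun hE i) j
    rw [Matrix.of_apply, Matrix.one_apply] at this
    rw [this]
  have hx0' : ∀ i, x' (l0 i) ≠ 0 := fun i => by rw [hx1]; exact one_ne_zero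
  obtain ⟨hrk, hblk⟩ : Module.finrank L (Full g dg D (vE E) x') ≤ m + Fintype.card ι ∧
      ∀ i, Module.finrank L ((Full g dg D (vE E) x').map (blkL L g i)) ≤ μ i + 1 := by
    refine full_rank (k0 := k0) hDk ?_ hg0 hx1 hV hVx
    intro i r
    change E i (algebraMap k0 L r) = 0
    rw [IsScalarTower.algebraMap_apply k0 K L]
    exact (E i).map_algebraMap _
  have hindep : LinearIndepOn L (vv g dg D (vE E) x' (base dg l0)) (Vert ι (Fin w) n A) := by
    obtain ⟨f, hf1, hf2⟩ : ∃ f : ι ⊕ Fin w → Ix ι (Fin w) n A ⊕ A,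
      (∀ i, f (Sum.inl i) = Sum.inl (Sum.inl i)) ∧
      ∀ j, f (Sum.inr j) = Sum.inl (Sum.inr (Sum.inl j)) :=
      ⟨Sum.elim (fun i => Sum.inl (Sum.inl i)) (fun j => Sum.inl (Sum.inr (Sum.inl j))),
        fun _ => rfl, fun _ => rfl⟩
    have h1 : Vert ι (Fin w) n A = f '' Set.univ := by
      ext r
      constructor
      · rintro (⟨i, rfl⟩ | ⟨j, rfl⟩)
        · exact ⟨Sum.inl i, trivial, hf1 i⟩
        · exact ⟨Sum.inr j, trivial, hf2 j⟩
      · rintro ⟨(i | j), -, rfl⟩
        · exact Or.inl ⟨i, hf1 i⟩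
        · exact Or.inr ⟨j, hf2 j⟩
    rw [h1]
    refine LinearIndepOn.image_of_comp _ _ ?_
    rw [linearIndepOn_univ_iff, Fintype.linearIndependent_iff]
    intro r hr
    have h2 : ∀ q, r (Sum.inl (g q)) * x' q + ∑ j, r (Sum.inr j) * E j (x' q) = 0 := by
      intro q
      have h3 := congrFun hr q
      rw [Fintype.sum_sum_type, Pi.add_apply, Finset.sum_apply, Finset.sum_apply] at h3
      simp only [Function.comp_apply, hf1, hf2, Pi.smul_apply, smul_eq_mul, Pi.zero_apply] at h3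
      have h4 : ∑ i, r (Sum.inl i) * vv g dg D (vE E) x' (base dg l0) (Sum.inl (Sum.inl i)) q =
          r (Sum.inl (g q)) * x' q := by
        rw [Finset.sum_eq_single (g q)]
        · simp only [vv, wv, bl]
          rw [if_pos trivial]
        · intro i _ hi
          simp only [vv, wv, bl]
          rw [if_neg (Ne.symm hi), mul_zero]
        · intro h; exact absurd (Finset.mem_univ _) h
      rw [h4] at h3
      exact h3
    have h3 : ∀ i, r (Sum.inl i) = 0 := by
      intro i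
      have h4 := h2 (l0 i)
      rw [hx1, hg0, mul_one, Finset.sum_eq_zero fun j _ => by
        rw [(E j).map_one_eq_zero, mul_zero], add_zero] at h4
      exact h4
    rintro (i | j)
    · exact h3 i
    · have h4 := h2 (l j)
      rw [h3, zero_mul, zero_add, ← ht, Finset.sum_eq_single j] at h4
      · rwa [hE, if_pos rfl, mul_one] at h4
      · intro i _ hi
        rw [hE, if_neg hi, mul_zero]
      · intro h; exact absurd (Finset.mem_univ _) h
  obtain ⟨b, hbV, hbC, hbi, hspan, hcard⟩ := exists_rows (E := vE E) hHh hD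
    (fun i a u => hFK (E i) a u) hg0 hx0' hxC' hindep
  obtain ⟨τ, hτ⟩ := exists_minor _ hbi
  have hdet : (mx g dg D (vE E) x' (base dg l0) b τ).det ≠ 0 := by
    rw [Ne, det_dec _ _ (mx g dg D (vE E) x' (base dg l0) b τ)]
    exact hτ
  have hbp : ∀ i, Sum.inl (Sum.inl i) ∈ b := fun i => hbV _ (Or.inl ⟨i, rfl⟩)
  have htot : ∀ i, tot (Fin w) g b τ i ≤ ∑ a, dg a i ∧
      (i ∈ S → tot (Fin w) g b τ i + 1 ≤ ∑ a, dg a i) := by
    intro i
    have h1 := tot_le (fun a => mdeg_base g dg hg0 a) τ hbC hbV (by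
      rw [Ne, det_dec _ _ (mx g dg D (vE E) x' (base dg l0) b τ)]
      exact hdet) (hcard ▸ hrk) i (hblk i)
    have h2 := hd i
    rw [Fintype.card_fin] at h1
    refine ⟨by omega, fun hi => ?_⟩
    have h3 := hdS i hi
    omega
  -- the forms
  obtain ⟨Z, hZ⟩ : ∃ Z, Z = ∏ a, mon x' (base dg l0 a) := ⟨_, rfl⟩
  have hZ0 : Z ≠ 0 := by
    rw [hZ]
    refine Finset.prod_ne_zero_iff.2 fun a _ => ?_
    rw [mon_base]
    exact Finset.prod_ne_zero_iff.2 fun i _ => pow_ne_zero _ (hx0' i)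
  obtain ⟨lj, hlj⟩ : ∃ lj : Fin (w + 1) → Fin (n + 1), lj = Fin.cons (l0 (g (l ⟨0, hw⟩))) l :=
    ⟨_, rfl⟩
  have hljS : ∀ j, g (lj j) ∈ S := by
    intro j
    refine Fin.cases ?_ (fun j => ?_) j
    · rw [hlj, Fin.cons_zero, hg0]
      exact hlS _
    · rw [hlj, Fin.cons_succ]
      exact hlS _
  obtain ⟨ω, hω⟩ : ∃ ω : Fin (w + 1) → (Fin w → Derivation K L L) → L, ∀ j Dd, ω j Dd =
    (mx g dg D (vE Dd) x' (base dg l0) b τ).det / Z * x' (lj j) :=
    ⟨_, fun _ _ => rfl⟩
  have hlin : ∀ (M : Matrix (Fin w) (Fin w) L) (D1 D2 : Fin w → Derivation K L L),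
      (∀ i f, D1 i f = ∑ j, M i j * D2 j f) → ∀ j, ω j D1 = M.det * ω j D2 := by
    intro M D1 D2 h j
    have h1 := det_lin (g := g) (dg := dg) (D := D) (E := vE D2) (E' := vE D1) (M := M)
      h x' hbV τ (base dg l0)
    have h2 : (mx g dg D (vE D1) x' (base dg l0) b τ).det =
        M.det * (mx g dg D (vE D2) x' (base dg l0) b τ).det := by
      exact (det_dec _ _ _).trans (h1.trans (congrArg₂ (· * ·) (det_dec _ _ _) (det_dec _ _ _)))
    rw [hω, hω, h2]
    ring
  have hωE : ω 0 E ≠ 0 := by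
    rw [hω, hlj, Fin.cons_zero, hx1, mul_one]
    exact div_ne_zero hdet hZ0
  -- the regularity
  have hreg : ∀ (Q : Place K L), Divisorial w Q → ∀ (Dd : Fin w → Derivation K L L),
      (∀ i, DerReg Q (Dd i)) → ∀ j, Q.Reg (ω j Dd) := by
    intro Q hQ Dd hDd j
    obtain ⟨M, hM⟩ : ∃ M : Matrix (Fin w) (Fin w) L, M = Matrix.of fun i j => Dd i (t j) := ⟨_, rfl⟩
    have hωM := hlin M Dd E (fun i f => by
      rw [der_comb htb hE (Dd i) f, hM]
      rfl) j
    by_cases hM0 : M.det = 0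
    · rw [hωM, hM0, zero_mul]
      exact Q.reg_zero
    by_cases hxj : x' (lj j) = 0
    · rw [hω, hxj, mul_zero]
      exact Q.reg_zero
    have hMd : (Matrix.of fun i j => Dd i (t j)).det = M.det := by
      rw [hM]
    have h1 := ord_theta Q hg0 hx0' τ hbC hbp hspan (by
      rw [Ne, det_dec _ _ (mx g dg D (vE E) x' (base dg l0) b τ)]
      exact hdet) (B := -Q.ord M.det)
      (fun x'' e1 hx'' hge1 hdet' => by
        have h2 := ord_det_local hw htr hQ hDS htb hE (Dd := Dd) hDd (by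
          rw [Ne, hMd]
          exact hM0) hx'' hbV τ (base dg e1) hdet'
        have h3 : Q.ord (Matrix.of fun i j => Dd i (t j)).det = Q.ord M.det := by
          rw [hM]
        linarith)
    rw [← hZ] at h1
    have hdz : (mx g dg D (vE E) x' (base dg l0) b τ).det / Z ≠ 0 :=
      div_ne_zero hdet hZ0
    right
    rw [hωM, hω, Q.ord_mul hM0 (mul_ne_zero hdz hxj), Q.ord_mul hdz hxj]
    have hbl : ∀ i s, g s = i → bl g i x' s = x' s := fun i s hs => by
      unfold bl
      rw [if_pos hs]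
    have h3 : pord Q (bl g (g (lj j)) x') ≤ Q.ord (x' (lj j)) := by
      have := pord_le Q (f := bl g (g (lj j)) x') (j := lj j) (by rwa [hbl _ _ rfl])
      rwa [hbl _ _ rfl] at this
    have h4 : ∀ i, pord Q (bl g i x') ≤ 0 := by
      intro i
      have := pord_le Q (f := bl g i x') (j := l0 i) (by rw [hbl _ _ (hg0 i)]; exact hx0' i)
      rwa [hbl _ _ (hg0 i), hx1, Q.ord_one] at this
    have h6 : 0 ≤ ∑ i, ((tot (Fin w) g b τ i : ℤ) - (∑ a, dg a i : ℕ)) * pord Q (bl g i x') +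
        pord Q (bl g (g (lj j)) x') := by
      rw [← Finset.add_sum_erase _ _ (Finset.mem_univ (g (lj j)))]
      have h5 : 0 ≤ ∑ i ∈ Finset.univ.erase (g (lj j)),
          ((tot (Fin w) g b τ i : ℤ) - (∑ a, dg a i : ℕ)) * pord Q (bl g i x') := by
        refine Finset.sum_nonneg fun i _ => ?_
        have h7 : ((tot (Fin w) g b τ i : ℕ) : ℤ) ≤ (∑ a, dg a i : ℕ) := by
          exact_mod_cast (htot i).1
        exact mul_nonneg_of_nonpos_of_nonpos (by linarith) (h4 i)
      have h7 : ((tot (Fin w) g b τ (g (lj j)) : ℕ) : ℤ) + 1 ≤ (∑ a, dg a (g (lj j)) : ℕ) := by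
        exact_mod_cast (htot _).2 (hljS j)
      have h8 : 0 ≤ (((tot (Fin w) g b τ (g (lj j)) : ℕ) : ℤ) + 1 -
          (∑ a, dg a (g (lj j)) : ℕ)) * pord Q (bl g (g (lj j)) x') :=
        mul_nonneg_of_nonpos_of_nonpos (by linarith) (h4 _)
      linarith
    have h9 : Q.ord ((mx g dg D (vE E) x' (base dg l0) b τ).det / Z) =
        Q.ord ((mx g dg D (vE E) x' (base dg l0) b τ).det / Z) := rfl
    have h10 := h1
    linarith
  refine ⟨htr, 1, one_pos, ω, fun j M Dd => ?_, fun Q hQ j Dd hDd => hreg Q hQ Dd hDd j, E, hωE,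
    ?_⟩
  · rw [pow_one]
    refine hlin M _ Dd (fun i f => ?_) j
    rw [← Derivation.coeFnAddMonoidHom_apply, map_sum, Finset.sum_apply]
    rfl
  · have h1 : (fun i : Fin w => ω i.succ E / ω 0 E) = t := by
      funext i
      have h2 : (mx g dg D (vE E) x' (base dg l0) b τ).det / Z ≠ 0 :=
        div_ne_zero hdet hZ0
      rw [hω, hω, hlj, Fin.cons_succ, Fin.cons_zero, hx1, mul_one, mul_div_cancel_left₀ _ h2, ht]
    rw [h1]
    exact htb.1

end Pool.Agent.V7H76.MP
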