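import Pool.Agent.V7H76.MP.Fin
import Pool.Agent.TH145.GH.Setup

/-!
The finitely generated fields, and derivations dual to the coefficients of the forms.
-/

set_option autoImplicit false

open MvPolynomial Pool.Agent.TH145.GH

namespace Pool.Agent.V7H76.MP

/-- The finite Galois extension, and the dual derivations. -/
theorem exists_setup {k0 K η : Type} [Field k0] [Field K] [Algebra k0 K] [IsAlgClosed K]
    [CharZero K] {y : η → K} (hy : IsTranscendenceBasis k0 y) {n : ℕ} {A ι : Type}
    [DecidableEq ι] {g : Fin (n + 1) → ι} {dg : A → ι → ℕ}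
    {F : A → MvPolynomial (Fin (n + 1)) K} (hF : ∀ a, MH g (F a) (dg a))
    (s : Cf g dg → η) (hs : Function.Injective s)
    (hFs : ∀ p : Cf g dg, (F p.1).coeff p.2.1 = y (s p)) (T : Finset K) :
    ∃ (E : IntermediateField (IntermediateField.adjoin k0 (Set.range y)) K)
      (F1 : A → MvPolynomial (Fin (n + 1)) E.toSubfield)
      (DE : A → (Fin (n + 1) →₀ ℕ) → E.toSubfield → E.toSubfield)
      (D : A → (Fin (n + 1) →₀ ℕ) → Derivation ℤ K K),
      FiniteDimensional (IntermediateField.adjoin k0 (Set.range y)) E ∧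
      IsGalois (IntermediateField.adjoin k0 (Set.range y)) E ∧ Gen g F1 dg DE ∧
      (∀ a I (x : E.toSubfield), D a I x = (DE a I x : K)) ∧
      (∀ a I (r : k0), D a I (algebraMap k0 K r) = 0) ∧
      (∀ a I j, ∃ r : k0, D a I (y j) = algebraMap k0 K r) ∧
      (∀ a, map E.toSubfield.subtype (F1 a) = F a) ∧ ∀ t ∈ T, t ∈ E := by
  classical
  have hck : CharZero k0 := by
    constructor
    intro a b hab
    have h1 := congrArg (algebraMap k0 K) hab
    rw [map_natCast, map_natCast] at h1
    exact Nat.cast_injective h1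
  set R := IntermediateField.adjoin k0 (Set.range y) with hR
  have hcR : CharZero R := charZero_of_injective_algebraMap (algebraMap k0 R).injective
  have halg : Algebra.IsAlgebraic R K := hy.isAlgebraic_field
  have hfin0 : FiniteDimensional R (IntermediateField.adjoin R (T : Set K)) := by
    have : Finite (T : Set K) := T.finite_toSet
    exact IntermediateField.finiteDimensional_adjoin fun x _ =>
      (halg.isAlgebraic x).isIntegral
  obtain ⟨E, hE⟩ : ∃ E : IntermediateField R K,
    E = IntermediateField.normalClosure R (IntermediateField.adjoin R (T : Set K)) K := ⟨_, rfl⟩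
  have hclo : IsAlgClosure R K := ⟨inferInstance, halg⟩
  have hnK : Normal R K := IsAlgClosure.normal R K
  have hfin : FiniteDimensional R E := by
    rw [hE]; infer_instance
  have hnE : Normal R E := by
    rw [hE]; infer_instance
  have hgal : IsGalois R E := { }
  have hTE : ∀ t ∈ T, t ∈ E := by
    intro t ht
    rw [hE]
    exact (IntermediateField.le_normalClosure _) (IntermediateField.subset_adjoin _ _ ht)
  -- the derivations
  have hD : ∀ (a : A) (I : Fin (n + 1) →₀ ℕ), ∃ D : Derivation k0 K K, ∀ j, D (y j) =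
      if ∃ h : mdeg g I = dg a, s ⟨a, ⟨I, h⟩⟩ = j then 1 else 0 := fun a I =>
    Pool.Agent.W602.GT.exists_der y hy _
  choose D hD using hD
  have hD' : ∀ a I (r : k0), D a I (algebraMap k0 K r) = 0 := fun a I r =>
    (D a I).map_algebraMap r
  have hDy : ∀ a I j, ∃ r : k0, D a I (y j) = algebraMap k0 K r := by
    intro a I j
    rw [hD]
    split_ifs
    · exact ⟨1, (map_one _).symm⟩
    · exact ⟨0, (map_zero _).symm⟩
  have hDR : ∀ a I x, x ∈ R.toSubfield → (D a I).restrictScalars ℤ x ∈ R.toSubfield := by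
    intro a I x hx
    rw [hR, IntermediateField.adjoin_toSubfield] at hx
    refine der_closure ((D a I).restrictScalars ℤ) ?_ hx
    rintro z (⟨r, rfl⟩ | ⟨j, rfl⟩)
    · refine ⟨R.algebraMap_mem r, ?_⟩
      change D a I _ ∈ _
      rw [hD']
      exact zero_mem _
    · refine ⟨IntermediateField.subset_adjoin _ _ ⟨j, rfl⟩, ?_⟩
      change D a I _ ∈ _
      obtain ⟨r, hr⟩ := hDy a I j
      rw [hr]
      exact R.algebraMap_mem r
  have hDE : ∀ a I x, x ∈ E.toSubfield → (D a I).restrictScalars ℤ x ∈ E.toSubfield := by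
    intro a I x hx
    refine (isDer_top ((D a I).restrictScalars ℤ)).mem_of_alg E.toSubfield trivial hx ?_
    have h1 : IsAlgebraic R.toSubfield x := halg.isAlgebraic x
    refine Pool.Agent.TH145.MF.alg_mono ?_ h1
    intro z hz
    exact ⟨trivial, E.algebraMap_mem ⟨z, hz⟩, E.algebraMap_mem ⟨_, hDR a I z hz⟩⟩
  have hFE : ∀ a u, (F a).coeff u ∈ E.toSubfield := by
    intro a u
    by_cases hu : u ∈ (F a).support
    · rw [hFs ⟨a, ⟨u, hF a u hu⟩⟩]
      exact E.algebraMap_mem ⟨_, IntermediateField.subset_adjoin _ _ ⟨_, rfl⟩⟩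
    · rw [notMem_support_iff.1 hu]; exact zero_mem _
  choose F1 hF1 using fun a => lift_poly E.toSubfield (F a) (hFE a)
  refine ⟨E, F1, fun a I x => ⟨_, hDE a I x x.2⟩, fun a I => (D a I).restrictScalars ℤ, hfin,
    hgal, ⟨fun a u hu => ?_, ?_⟩, fun _ _ _ => rfl, hD', hDy, hF1, hTE⟩
  · apply hF a u
    rw [mem_support_iff, ← hF1, coeff_map]
    intro h0
    apply mem_support_iff.1 hu
    apply Subtype.ext
    exact h0
  · intro a b I J hI hJ
    have h1 : (((F1 b).coeff J : E.toSubfield) : K) = y (s ⟨b, ⟨J, hJ⟩⟩) := by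
      rw [← hFs, ← hF1, coeff_map]
      rfl
    constructor
    · intro hab hIJ
      apply Subtype.ext
      change D a I (((F1 b).coeff J : E.toSubfield) : K) = 1
      rw [h1, hD, if_pos]
      subst hab
      subst hIJ
      exact ⟨hI, rfl⟩
    · intro hIJ
      apply Subtype.ext
      change D a I (((F1 b).coeff J : E.toSubfield) : K) = 0
      rw [h1, hD, if_neg]
      rintro ⟨h2, h3⟩
      have h4 := hs h3
      have h5 : a = b := congrArg Sigma.fst h4
      subst h5
      rcases hIJ with h | h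
      · exact h rfl
      · apply h
        have h6 := eq_of_heq (Sigma.mk.inj_iff.1 h4).2
        exact congrArg Subtype.val h6

/-- Everything that is needed over a field generated by a finite set over `k0`. -/
theorem exists_all {k0 K : Type} [Field k0] [Field K] [Algebra k0 K] [IsAlgClosed K] [CharZero K]
    {n : ℕ} {A ι : Type} [DecidableEq ι] {g : Fin (n + 1) → ι} [Finite A] {dg : A → ι → ℕ}
    {F : A → MvPolynomial (Fin (n + 1)) K} (hF : ∀ a, MH g (F a) (dg a))
    (hind : AlgebraicIndependent k0 fun p : Cf g dg => (F p.1).coeff p.2.1)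
    (T : Finset K) :
    ∃ (B : Set K) (_ : B.Finite) (K1 : IntermediateField (IntermediateField.adjoin k0 B) K)
      (y : B → K1) (E : IntermediateField (IntermediateField.adjoin k0 (Set.range y)) K1)
      (F1 : A → MvPolynomial (Fin (n + 1)) E.toSubfield)
      (DE : A → (Fin (n + 1) →₀ ℕ) → E.toSubfield → E.toSubfield)
      (D : A → (Fin (n + 1) →₀ ℕ) → Derivation ℤ K1 K1),
      IsAlgClosed K1 ∧ CharZero K1 ∧ IsTranscendenceBasis k0 y ∧
      FiniteDimensional (IntermediateField.adjoin k0 (Set.range y)) E ∧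
      IsGalois (IntermediateField.adjoin k0 (Set.range y)) E ∧ Gen g F1 dg DE ∧
      (∀ a I (x : E.toSubfield), D a I x = (DE a I x : K1)) ∧
      (∀ a I (r : k0), D a I (algebraMap k0 K1 r) = 0) ∧
      (∀ a I j, ∃ r : k0, D a I (y j) = algebraMap k0 K1 r) ∧
      (∀ a, map ((algebraMap K1 K).comp E.toSubfield.subtype) (F1 a) = F a) ∧
      ∀ t ∈ IntermediateField.adjoin k0 (T : Set K), ∃ e : K1, e ∈ E ∧ (e : K) = t := by
  classical
  have := finite_cf (n := n) g dg
  obtain ⟨B, hB, K1, y, s, hK1, hy, hys, hs, hTK⟩ := exists_closed hind T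
  have hc : CharZero K1 := by
    constructor
    intro a b hab
    have h1 := congrArg (algebraMap K1 K) hab
    rw [map_natCast, map_natCast] at h1
    exact Nat.cast_injective h1
  have hFK : ∀ a u, (F a).coeff u ∈ Set.range (algebraMap K1 K) := by
    intro a u
    by_cases hu : u ∈ (F a).support
    · exact ⟨y (s ⟨a, ⟨u, hF a u hu⟩⟩), hys _⟩
    · rw [notMem_support_iff.1 hu]; exact ⟨0, map_zero _⟩
  choose F0 hF0 using fun a => lift_poly' (algebraMap K1 K) (F a) (hFK a)
  have hinj : Function.Injective (algebraMap K1 K) := (algebraMap K1 K).injective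
  obtain ⟨T1, hT1⟩ : ∃ T1 : Finset K1, ∀ t ∈ T, ∃ t1 ∈ T1, (t1 : K) = t := by
    refine ⟨T.preimage (fun x : K1 => (x : K)) hinj.injOn, fun t ht => ?_⟩
    refine ⟨⟨t, hTK t ht⟩, ?_, rfl⟩
    rw [Finset.mem_preimage]; exact ht
  obtain ⟨E, F1, DE, D, h1, h2, h3, h4, h5, h6, h7, h8⟩ := exists_setup hy (F := F0)
    (fun a u hu => hF a u (by
      rw [mem_support_iff, ← hF0, coeff_map]
      intro h0
      apply mem_support_iff.1 hu
      apply hinj
      rw [h0, map_zero])) s hs
    (fun p => by
      apply hinj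
      rw [← coeff_map, hF0]
      exact (hys p).symm) T1
  refine ⟨B, hB, K1, y, E, F1, DE, D, hK1, hc, hy, h1, h2, h3, h4, h5, h6, fun a => ?_, ?_⟩
  · rw [← map_map, h7, hF0]
  · intro t ht
    have h9 : t ∈ Subfield.closure (Set.range (algebraMap k0 K) ∪ (T : Set K)) := by
      rw [← IntermediateField.adjoin_toSubfield]
      exact ht
    have h10 : Subfield.closure (Set.range (algebraMap k0 K) ∪ (T : Set K)) ≤
        E.toSubfield.map (algebraMap K1 K) := by
      rw [Subfield.closure_le]
      rintro z (⟨r, rfl⟩ | hz)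
      · exact ⟨algebraMap k0 K1 r, E.algebraMap_mem (algebraMap k0 _ r), rfl⟩
      · obtain ⟨t1, ht1, htz⟩ := hT1 z hz
        exact ⟨t1, h8 t1 ht1, htz⟩
    obtain ⟨e, he, het⟩ := h10 h9
    exact ⟨e, he, het⟩

/-- Finiteness of the points over a field generated by a finite set over `k0`. -/
theorem fin_points {k0 K : Type} [Field k0] [Field K] [Algebra k0 K] [IsAlgClosed K]
    [CharZero K] [IsAlgClosed k0] {n m : ℕ} {A ι : Type} [DecidableEq ι] [Fintype ι] {μ : ι → ℕ}
    {g : Fin (n + 1) → ι} [Fintype A] {dg : A → ι → ℕ}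
    (hd : ∀ i, m + μ i + 2 ≤ ∑ a, dg a i + Fintype.card A)
    (V : Set (MvPolynomial (Fin (n + 1)) k0)) (hV : DimLEM g k0 V m μ)
    {F : A → MvPolynomial (Fin (n + 1)) K} (hF : ∀ a, MH g (F a) (dg a))
    (hind : AlgebraicIndependent k0 fun p : Cf g dg => (F p.1).coeff p.2.1)
    (T : Finset K) {l0 : ι → Fin (n + 1)} (hg0 : ∀ i, g (l0 i) = i) :
    {x : Fin (n + 1) → K | (∀ j, x j ∈ IntermediateField.adjoin k0 (T : Set K)) ∧
      (∀ i, x (l0 i) = 1) ∧
      (∀ f ∈ V, aeval x f = 0) ∧ (∀ a, eval x (F a) = 0)}.Finite := by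
  classical
  obtain ⟨B, hB, K1, y, E, F1, DE, D, hK1, hc, hy, h1, h2, h3, h4, h5, h6, h7, h8⟩ :=
    exists_all hF hind T
  have : Finite B := hB
  have h9 := fin_all E hy h3 D h4 h5 h6 hd V hV hg0
  refine (h9.image fun x j => (x j : K)).subset ?_
  rintro x ⟨hx, hxl, hxV, hxC⟩
  choose e he hex using fun j => h8 (x j) (hx j)
  have hex' : (fun j => algebraMap K1 K (e j)) = x := funext hex
  have hev : ∀ a, algebraMap K1 K (eval e (map E.toSubfield.subtype (F1 a))) =
      eval x (F a) := by
    intro a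
    rw [← h7, eval_map, eval_map]
    have h10 := hom_eval₂ (F1 a) E.toSubfield.subtype (algebraMap K1 K) e
    rw [h10, hex']
  refine ⟨e, ⟨he, fun i => ?_, fun f hf => ?_, fun a => ?_⟩, funext hex⟩
  · apply Subtype.ext
    rw [hex, hxl]
    rfl
  · apply (algebraMap K1 K).injective
    have h10 := hom_eval₂ f (algebraMap k0 K1) (algebraMap K1 K) e
    rw [h10, map_zero, hex']
    exact hxV f hf
  · apply (algebraMap K1 K).injective
    rw [hev, hxC a, map_zero]

end Pool.Agent.V7H76.MP
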