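import Pool.Agent.V7H76.MP.Main
import Pool.Agent.TH145.GC.Main

/-!
Dimensions of products; matrices of generic forms as bihomogeneous generic forms.
-/

set_option autoImplicit false

open MvPolynomial Pool.Agent.W602.GT Pool.Agent.TH145.GH Cardinal
open Pool.Agent.TH145.MG (DimLE)

namespace Pool.Agent.V7H76.MP

section trdeg

universe u

variable {K : Type u} [Field K] {F : Type u} [Field F] [Algebra K F]

open scoped IntermediateField.algebraAdjoinAdjoin in
theorem trdeg_adjoin_eq (X : Set F) :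
    Algebra.trdeg K (IntermediateField.adjoin K X) = Algebra.trdeg K (Algebra.adjoin K X) := by
  have h := trdeg_add_eq K (Algebra.adjoin K X) (A := IntermediateField.adjoin K X)
  rw [← h, trdeg_eq_zero (R := Algebra.adjoin K X) (A := IntermediateField.adjoin K X),
    add_zero]

theorem trdeg_adjoin_le (X : Set F) : Algebra.trdeg K (IntermediateField.adjoin K X) ≤ #X := by
  rw [trdeg_adjoin_eq, Algebra.adjoin_eq_range]
  have h := trdeg_le_of_surjective
    ((MvPolynomial.aeval (R := K) ((↑) : X → F)).rangeRestrict)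
    (MvPolynomial.aeval (R := K) ((↑) : X → F)).rangeRestrict_surjective
  rwa [MvPolynomial.trdeg_of_isDomain, lift_id] at h

theorem trdeg_union (X Y : Set F) :
    Algebra.trdeg K (IntermediateField.adjoin K (X ∪ Y)) ≤
      Algebra.trdeg K (IntermediateField.adjoin K X) + #Y := by
  have h1 := trdeg_add_eq K (IntermediateField.adjoin K X)
    (A := IntermediateField.adjoin (IntermediateField.adjoin K X) Y)
  have h2 : Algebra.trdeg K (IntermediateField.adjoin (IntermediateField.adjoin K X) Y) =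
      Algebra.trdeg K (IntermediateField.adjoin K (X ∪ Y)) := by
    rw [← IntermediateField.adjoin_adjoin_left]
    rfl
  rw [← h2, ← h1]
  gcongr
  exact trdeg_adjoin_le Y

end trdeg

variable {n q : ℕ}

/-- The positions of the first coordinates. -/
def ax (n q : ℕ) : Fin (n + 1) → Fin (n + 1 + q + 1) := Fin.castAdd (q + 1)

/-- The positions of the last coordinates. -/
def ay (n q : ℕ) : Fin (q + 1) → Fin (n + 1 + q + 1) := Fin.natAdd (n + 1)

/-- The two blocks. -/
def gg (n q : ℕ) : Fin (n + 1 + q + 1) → Fin 2 :=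
  Fin.addCases (m := n + 1) (n := q + 1) (fun _ => 0) (fun _ => 1)

theorem gg_ax (s : Fin (n + 1)) : gg n q (ax n q s) = 0 :=
  Fin.addCases_left (m := n + 1) (n := q + 1) s

theorem gg_ay (s : Fin (q + 1)) : gg n q (ay n q s) = 1 :=
  Fin.addCases_right (m := n + 1) (n := q + 1) s

theorem ax_inj : Function.Injective (ax n q) := Fin.castAdd_injective _ _

theorem ay_inj : Function.Injective (ay n q) := Fin.natAdd_injective _ _

theorem ax_ne_ay (s : Fin (n + 1)) (j : Fin (q + 1)) : ax n q s ≠ ay n q j := by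
  intro h
  have h1 := congrArg (gg n q) h
  rw [gg_ax, gg_ay] at h1
  exact absurd h1 (by decide)

theorem ax_or_ay (s : Fin (n + 1 + q + 1)) :
    (∃ s', s = ax n q s') ∨ ∃ j, s = ay n q j := by
  refine Fin.addCases (m := n + 1) (n := q + 1) (motive := fun s =>
    (∃ s', s = ax n q s') ∨ ∃ j, s = ay n q j) (fun s' => Or.inl ⟨s', rfl⟩)
    (fun j => Or.inr ⟨j, rfl⟩) s

/-- The point with the given coordinates. -/
def app {K : Type} (x : Fin (n + 1) → K) (y : Fin (q + 1) → K) : Fin (n + 1 + q + 1) → K :=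
  Fin.append (m := n + 1) (n := q + 1) x y

theorem app_ax {K : Type} (x : Fin (n + 1) → K) (y : Fin (q + 1) → K) (s : Fin (n + 1)) :
    app x y (ax n q s) = x s := Fin.append_left (m := n + 1) (n := q + 1) x y s

theorem app_ay {K : Type} (x : Fin (n + 1) → K) (y : Fin (q + 1) → K) (s : Fin (q + 1)) :
    app x y (ay n q s) = y s := Fin.append_right (m := n + 1) (n := q + 1) x y s

theorem sum_split {M : Type} [AddCommMonoid M] (f : Fin (n + 1 + q + 1) → M) :
    ∑ s, f s = ∑ s, f (ax n q s) + ∑ j, f (ay n q j) :=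
  Fin.sum_univ_add (a := n + 1) (b := q + 1) f

/-- The exponent of `x ^ I * y j`. -/
noncomputable def ex (j : Fin (q + 1)) (I : Fin (n + 1) →₀ ℕ) : Fin (n + 1 + q + 1) →₀ ℕ :=
  I.mapDomain (ax n q) + Finsupp.single (ay n q j) 1

theorem mapDomain_ay (I : Fin (n + 1) →₀ ℕ) (j : Fin (q + 1)) :
    I.mapDomain (ax n q) (ay n q j) = 0 :=
  Finsupp.mapDomain_of_notMem_range _ _ (by
    rintro ⟨s, hs⟩
    exact ax_ne_ay s j hs)

theorem mapDomain_ax (I : Fin (n + 1) →₀ ℕ) (s : Fin (n + 1)) :
    I.mapDomain (ax n q) (ax n q s) = I s :=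
  Finsupp.mapDomain_apply ax_inj _ _

theorem mdeg_ex (j : Fin (q + 1)) (I : Fin (n + 1) →₀ ℕ) :
    mdeg (gg n q) (ex j I) = ![I.degree, 1] := by
  have h1 : mdeg (gg n q) (I.mapDomain (ax n q)) = ![I.degree, 0] := by
    funext i
    unfold mdeg
    rw [sum_split]
    simp only [gg_ax, gg_ay, mapDomain_ax, mapDomain_ay]
    fin_cases i
    · simp [Finsupp.degree_eq_sum]
    · simp
  unfold ex
  rw [mdeg_add, h1, mdeg_single, gg_ay]
  funext i
  fin_cases i
  · simp
  · simp

theorem exists_ex {u : Fin (n + 1 + q + 1) →₀ ℕ} {d : ℕ} (hu : mdeg (gg n q) u = ![d, 1]) :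
    ∃ j I, I.degree = d ∧ ex j I = u := by
  classical
  have h1 : ∑ j : Fin (q + 1), u (ay n q j) = 1 := by
    have h2 := congrFun hu 1
    unfold mdeg at h2
    rw [sum_split] at h2
    simp only [gg_ax, gg_ay] at h2
    simpa using h2
  obtain ⟨j, hj⟩ : ∃ j, u (ay n q j) ≠ 0 := by
    by_contra hcon
    push Not at hcon
    rw [Finset.sum_eq_zero fun j _ => hcon j] at h1
    exact zero_ne_one h1
  rw [← Finset.add_sum_erase _ _ (Finset.mem_univ j)] at h1
  have hj1 : u (ay n q j) = 1 := by omega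
  have hj2 : ∀ j', j' ≠ j → u (ay n q j') = 0 := by
    intro j' hj'
    have h3 : ∑ j' ∈ Finset.univ.erase j, u (ay n q j') = 0 := by omega
    exact Finset.sum_eq_zero_iff.1 h3 j' (Finset.mem_erase.2 ⟨hj', Finset.mem_univ _⟩)
  obtain ⟨I, hI⟩ : ∃ I : Fin (n + 1) →₀ ℕ, ∀ s, I s = u (ax n q s) :=
    ⟨Finsupp.equivFunOnFinite.symm fun s => u (ax n q s), fun _ => rfl⟩
  have h4 : ex j I = u := by
    ext s
    unfold ex
    rw [Finsupp.add_apply]
    rcases ax_or_ay s with ⟨s', rfl⟩ | ⟨j', rfl⟩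
    · rw [mapDomain_ax, hI, Finsupp.single_eq_of_ne (ax_ne_ay s' j), add_zero]
    · rw [mapDomain_ay, zero_add]
      by_cases h : j' = j
      · rw [h, Finsupp.single_eq_same, hj1]
      · rw [Finsupp.single_eq_of_ne (fun h' => h (ay_inj h')), hj2 j' h]
  refine ⟨j, I, ?_, h4⟩
  have h5 := mdeg_ex j I
  rw [h4, hu] at h5
  exact (congrFun h5 0).symm

/-- The bihomogeneous form with the coefficients `M j` of the last variables. -/
noncomputable def fo {K : Type} [Field K] (M : Fin (q + 1) → MvPolynomial (Fin (n + 1)) K) :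
    MvPolynomial (Fin (n + 1 + q + 1)) K := ∑ j, rename (ax n q) (M j) * X (ay n q j)

theorem coeff_fo {K : Type} [Field K] (M : Fin (q + 1) → MvPolynomial (Fin (n + 1)) K)
    (j : Fin (q + 1)) (I : Fin (n + 1) →₀ ℕ) : (fo M).coeff (ex j I) = (M j).coeff I := by
  classical
  unfold fo
  rw [coeff_sum, Finset.sum_eq_single j]
  · unfold ex
    rw [coeff_mul_X, coeff_rename_mapDomain _ ax_inj]
  · intro j' _ hj'
    rw [coeff_mul_X', if_neg]
    rw [Finsupp.mem_support_iff, not_not]
    unfold ex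
    rw [Finsupp.add_apply, mapDomain_ay, zero_add,
      Finsupp.single_eq_of_ne (fun h => hj' (ay_inj h))]
  · intro h; exact absurd (Finset.mem_univ _) h

theorem mh_fo {K : Type} [Field K] {M : Fin (q + 1) → MvPolynomial (Fin (n + 1)) K} {d : ℕ}
    (hM : ∀ j, (M j).IsHomogeneous d) : MH (gg n q) (fo M) ![d, 1] := by
  classical
  intro u hu
  rw [mem_support_iff, fo, coeff_sum] at hu
  obtain ⟨j, -, hj⟩ := Finset.exists_ne_zero_of_sum_ne_zero hu
  rw [coeff_mul_X'] at hj
  split_ifs at hj with h1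
  · obtain ⟨I, hI, hI0⟩ := coeff_rename_ne_zero _ _ _ hj
    have h2 : u = ex j I := by
      unfold ex
      rw [hI, tsub_add_cancel_of_le]
      rw [Finsupp.single_le_iff]
      exact Nat.one_le_iff_ne_zero.2 (Finsupp.mem_support_iff.1 h1)
    have h3 : I.degree = d := by
      rw [Finsupp.degree_eq_weight_one]
      exact hM j hI0
    rw [h2, mdeg_ex, h3]
  · exact absurd rfl hj

theorem aeval_fo {K L : Type} [Field K] [Field L] [Algebra K L]
    (M : Fin (q + 1) → MvPolynomial (Fin (n + 1)) K) (x : Fin (n + 1) → L)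
    (y : Fin (q + 1) → L) : aeval (app x y) (fo M) = ∑ j, aeval x (M j) * y j := by
  unfold fo
  rw [map_sum]
  refine Finset.sum_congr rfl fun j _ => ?_
  rw [map_mul, aeval_X, aeval_rename, app_ay]
  congr 2
  have : app x y ∘ ax n q = x := by
    funext s
    exact app_ax x y s
  rw [this]

/-- The ratios of the coordinates in a block. -/
theorem coords_block {k Ω : Type} [Field k] [Field Ω] [Algebra k Ω] {N r : ℕ} {ι : Type}
    [DecidableEq ι] {g : Fin (N + 1) → ι} {i : ι} (e : Fin (r + 1) → Fin (N + 1))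
    (he : ∀ s, g (e s) = i) (he' : ∀ s, g s = i → ∃ s', s = e s') (z : Fin (N + 1) → Ω) :
    coords k (bl g i z) = coords k fun s => z (e s) := by
  have hb : ∀ s, g s = i → bl g i z s = z s := fun s hs => by
    unfold bl
    rw [if_pos hs]
  apply le_antisymm
  · unfold coords
    rw [IntermediateField.adjoin_le_iff]
    rintro w ⟨s, t, ht, rfl⟩
    have h1 : g t = i := by
      by_contra hcon
      apply ht
      unfold bl
      rw [if_neg hcon]
    obtain ⟨t', rfl⟩ := he' t h1
    rw [hb _ h1] at ht ⊢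
    by_cases hs : g s = i
    · obtain ⟨s', rfl⟩ := he' s hs
      rw [hb _ hs]
      exact IntermediateField.subset_adjoin _ _ ⟨s', t', ht, rfl⟩
    · have h2 : bl g i z s = 0 := by
        unfold bl
        rw [if_neg hs]
      rw [h2, zero_div]
      exact zero_mem _
  · unfold coords
    rw [IntermediateField.adjoin_le_iff]
    rintro w ⟨s, t, ht, rfl⟩
    exact IntermediateField.subset_adjoin _ _ ⟨e s, e t, by rw [hb _ (he t)]; exact ht, by
      rw [hb _ (he t), hb _ (he s)]⟩

/-- The dimensions of the product with a projective space. -/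
theorem dim_prod {k : Type} [Field k] {V : Set (MvPolynomial (Fin (n + 1)) k)} {m : ℕ}
    (hV : DimLE k V m) : DimLEM (gg n q) k (rename (ax n q) '' V) (m + q) ![m, q] := by
  classical
  intro Ω _ _ z hz hzV
  obtain ⟨x, hx⟩ : ∃ x : Fin (n + 1) → Ω, x = fun s => z (ax n q s) := ⟨_, rfl⟩
  obtain ⟨y, hy⟩ : ∃ y : Fin (q + 1) → Ω, y = fun s => z (ay n q s) := ⟨_, rfl⟩
  have hx0 : ∃ s, x s ≠ 0 := by
    obtain ⟨s, hs, hs0⟩ := hz 0
    rcases ax_or_ay s with ⟨s', rfl⟩ | ⟨j, rfl⟩
    · exact ⟨s', by rw [hx]; exact hs0⟩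
    · rw [gg_ay] at hs
      exact absurd hs (by decide)
  obtain ⟨j0, hj0⟩ : ∃ j, y j ≠ 0 := by
    obtain ⟨s, hs, hs0⟩ := hz 1
    rcases ax_or_ay s with ⟨s', rfl⟩ | ⟨j, rfl⟩
    · rw [gg_ax] at hs
      exact absurd hs (by decide)
    · exact ⟨j, by rw [hy]; exact hs0⟩
  have hxV : ∀ f ∈ V, aeval x f = 0 := by
    intro f hf
    have h1 := hzV _ ⟨f, hf, rfl⟩
    rw [aeval_rename] at h1
    rw [hx]
    exact h1
  have h1 := hV Ω x (by
    obtain ⟨s, hs⟩ := hx0
    exact Function.ne_iff.2 ⟨s, hs⟩) hxV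
  have hy1 : coords k (bl (gg n q) 1 z) = coords k y := by
    rw [hy]
    refine coords_block (ay n q) gg_ay (fun s hs => ?_) z
    rcases ax_or_ay s with ⟨s', rfl⟩ | ⟨j, rfl⟩
    · rw [gg_ax] at hs
      exact absurd hs (by decide)
    · exact ⟨j, rfl⟩
  have hx1 : coords k (bl (gg n q) 0 z) = coords k x := by
    rw [hx]
    refine coords_block (ax n q) gg_ax (fun s hs => ?_) z
    rcases ax_or_ay s with ⟨s', rfl⟩ | ⟨j, rfl⟩
    · exact ⟨s', rfl⟩
    · rw [gg_ay] at hs
      exact absurd hs (by decide)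
  have h2 : Algebra.trdeg k (coords k y) ≤ q := Pool.Agent.TH145.GC.dimLE_univ k q Ω y
    (Function.ne_iff.2 ⟨j0, hj0⟩) (by simp)
  constructor
  · obtain ⟨Y, hY⟩ : ∃ Y : Set Ω, Y = Set.range fun j : {j // j ≠ j0} => y j / y j0 := ⟨_, rfl⟩
    have hle : coordsM (gg n q) k z ≤ IntermediateField.adjoin k
        ({w | ∃ i j, x j ≠ 0 ∧ w = x i / x j} ∪ Y) := by
      unfold coordsM
      rw [IntermediateField.adjoin_le_iff]
      have h3 : ∀ j, y j / y j0 ∈ IntermediateField.adjoin k
          ({w | ∃ i j, x j ≠ 0 ∧ w = x i / x j} ∪ Y) := by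
        intro j
        by_cases hj : j = j0
        · rw [hj, div_self hj0]
          exact one_mem _
        · exact IntermediateField.subset_adjoin _ _ (Or.inr (hY ▸ ⟨⟨j, hj⟩, rfl⟩))
      rintro w ⟨s, t, hst, ht, rfl⟩
      rcases ax_or_ay s with ⟨s', rfl⟩ | ⟨j, rfl⟩ <;> rcases ax_or_ay t with ⟨t', rfl⟩ | ⟨j', rfl⟩
      · refine IntermediateField.subset_adjoin _ _ (Or.inl ⟨s', t', ?_, ?_⟩)
        · rw [hx]; exact ht
        · rw [hx]
      · rw [gg_ax, gg_ay] at hst
        exact absurd hst (by decide)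
      · rw [gg_ax, gg_ay] at hst
        exact absurd hst (by decide)
      · have h4 : z (ay n q j) / z (ay n q j') = (y j / y j0) / (y j' / y j0) := by
          rw [hy] at hj0 ⊢
          field_simp
        rw [SetLike.mem_coe, h4]
        exact div_mem (h3 j) (h3 j')
    have h3 := trdeg_union (K := k) {w : Ω | ∃ i j, x j ≠ 0 ∧ w = x i / x j} Y
    have h4 : #Y ≤ (q : Cardinal) := by
      rw [hY]
      refine Cardinal.mk_range_le.trans ?_
      rw [Cardinal.mk_fintype, Fintype.card_subtype_compl, Fintype.card_fin,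
        Fintype.card_unique, Nat.add_sub_cancel]
    refine (trdeg_le_of_injective (IntermediateField.inclusion hle)
      (IntermediateField.inclusion_injective hle)).trans (h3.trans ?_)
    have h5 : Algebra.trdeg k (IntermediateField.adjoin k {w : Ω | ∃ i j, x j ≠ 0 ∧
        w = x i / x j}) ≤ (m : Cardinal) := h1
    push_cast
    exact add_le_add h5 h4
  · intro i
    fin_cases i
    · change Algebra.trdeg k (coords k (bl (gg n q) 0 z)) ≤ (m : Cardinal)
      rw [hx1]
      exact h1
    · change Algebra.trdeg k (coords k (bl (gg n q) 1 z)) ≤ (q : Cardinal)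
      rw [hy1]
      exact h2

end Pool.Agent.V7H76.MP
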