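import Pool.Agent.V7H76.MP.Ineq
import Pool.Agent.TH145.GC.DataE

/-!
The dimension of the space of the tangent vectors.
-/

set_option autoImplicit false

open MvPolynomial FF Pool.Agent.W603.LV Pool.Agent.TH145.GH Pool.Agent.TH145.MG
open Pool.Agent.W602.GT
open Pool.Agent.TH145.GC (Ev der_zero_of_alg)
open Pool.Agent.TH145.GE (ev)

namespace Pool.Agent.V7H76.MP

/-- The field generated by the ratios of the coordinates in the same blocks. -/
def coordsM {n : ℕ} {ι : Type} (g : Fin (n + 1) → ι) (k : Type) {K : Type} [Field k] [Field K]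
    [Algebra k K] (x : Fin (n + 1) → K) : IntermediateField k K :=
  IntermediateField.adjoin k {z | ∃ i j, g i = g j ∧ x j ≠ 0 ∧ z = x i / x j}

/-- The closed subset `V` of the product of projective spaces has dimension at most `m`, and its
image in the `i`-th projective space has dimension at most `μ i`. -/
def DimLEM {n : ℕ} {ι : Type} [DecidableEq ι] (g : Fin (n + 1) → ι) (k : Type) [Field k]
    (V : Set (MvPolynomial (Fin (n + 1)) k)) (m : ℕ) (μ : ι → ℕ) : Prop :=
  ∀ (Ω : Type) [Field Ω] [Algebra k Ω] (x : Fin (n + 1) → Ω), (∀ i, ∃ s, g s = i ∧ x s ≠ 0) →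
    (∀ f ∈ V, aeval x f = 0) → Algebra.trdeg k (coordsM g k x) ≤ m ∧
      ∀ i, Algebra.trdeg k (coords k (bl g i x)) ≤ μ i

theorem coords_eq {n : ℕ} {ι : Type} {g : Fin (n + 1) → ι} {k K : Type} [Field k] [Field K]
    [Algebra k K] {x : Fin (n + 1) → K} {l0 : ι → Fin (n + 1)} (hg : ∀ i, g (l0 i) = i)
    (hx : ∀ i, x (l0 i) = 1) : coords k x = coordsM g k x := by
  have h1 : ∀ s, x s ∈ coordsM g k x := fun s => IntermediateField.subset_adjoin _ _
    ⟨s, l0 (g s), (hg _).symm, by rw [hx]; exact one_ne_zero, by rw [hx, div_one]⟩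
  apply le_antisymm
  · unfold coords
    rw [IntermediateField.adjoin_le_iff]
    rintro z ⟨i, j, -, rfl⟩
    exact div_mem (h1 i) (h1 j)
  · unfold coordsM
    rw [IntermediateField.adjoin_le_iff]
    rintro z ⟨i, j, -, hj, rfl⟩
    exact IntermediateField.subset_adjoin _ _ ⟨i, j, hj, rfl⟩

/-- The vectors that are the sum of multiples of the position vectors and the derivative of `x` by
a derivation over `k0`. -/
def TanM {n : ℕ} {ι : Type} (g : Fin (n + 1) → ι) (k0 : Type) {L : Type} [Field k0] [Field L]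
    [Algebra k0 L] (x : Fin (n + 1) → L) : Submodule L (Fin (n + 1) → L) where
  carrier := {z | ∃ (c : ι → L) (E : Derivation ℤ L L), (∀ r : k0, E (algebraMap k0 L r) = 0) ∧
    ∀ l, z l = c (g l) * x l + E (x l)}
  add_mem' := by
    rintro y z ⟨c, E, hE, hy⟩ ⟨c', E', hE', hz⟩
    refine ⟨c + c', E + E', fun r => by rw [Derivation.add_apply, hE, hE', add_zero], fun l => ?_⟩
    rw [Pi.add_apply, hy, hz, Derivation.add_apply, Pi.add_apply]
    ring
  zero_mem' := ⟨0, 0, fun _ => rfl, fun l => by simp⟩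
  smul_mem' := by
    rintro s z ⟨c, E, hE, hz⟩
    refine ⟨s • c, s • E, fun r => by rw [Derivation.smul_apply, hE, smul_zero], fun l => ?_⟩
    rw [Pi.smul_apply, hz, Derivation.smul_apply, smul_eq_mul, smul_eq_mul, Pi.smul_apply,
      smul_eq_mul]
    ring

variable {k0 L : Type} [Field k0] [Field L] [Algebra k0 L] {n : ℕ} {A X ι : Type} [DecidableEq ι]
  {g : Fin (n + 1) → ι} {dg : A → ι → ℕ} {D : A → (Fin (n + 1) →₀ ℕ) → Derivation ℤ L L}
  {E : X → Derivation ℤ L L}

theorem full_le_tanM (hDk : ∀ a I (r : k0), D a I (algebraMap k0 L r) = 0)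
    (hEk : ∀ ξ (r : k0), E ξ (algebraMap k0 L r) = 0) (x : Fin (n + 1) → L) :
    Full g dg D E x ≤ TanM g k0 x := by
  have hE : ∀ a I, Ev D x a I ∈ TanM g k0 x := fun a I =>
    ⟨0, D a I, hDk a I, fun l => by rw [Pi.zero_apply, zero_mul, zero_add]; rfl⟩
  rw [Full, Submodule.span_le]
  rintro _ (⟨o, rfl⟩ | ⟨a, I, hI, rfl⟩)
  · rcases o with i | ξ | t
    · refine ⟨Pi.single i 1, 0, fun _ => rfl, fun l => ?_⟩
      simp only [wv, bl]
      rw [Derivation.zero_apply, add_zero]
      by_cases h : g l = i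
      · rw [if_pos h, h, Pi.single_eq_same, one_mul]
      · rw [if_neg h, Pi.single_eq_of_ne h, zero_mul]
    · exact ⟨0, E ξ, hEk ξ, fun l => by rw [Pi.zero_apply, zero_mul, zero_add]; rfl⟩
    · simp only [wv, tv]
      split_ifs
      · exact sub_mem (Submodule.smul_mem _ _ (hE _ _)) (Submodule.smul_mem _ _ (hE _ _))
      · exact zero_mem _
  · exact hE a I

omit [DecidableEq ι] in
/-- The dimension of the space of the tangent vectors. -/
theorem tanM_rank [CharZero L] [Fintype ι] {x : Fin (n + 1) → L} {l0 : ι → Fin (n + 1)}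
    (hg : ∀ i, g (l0 i) = i) (hx0 : ∀ i, x (l0 i) = 1) {m : ℕ}
    (h : Algebra.trdeg k0 (coordsM g k0 x) ≤ m) :
    Module.finrank L (TanM g k0 x) ≤ m + Fintype.card ι := by
  classical
  rw [← coords_eq hg hx0] at h
  obtain ⟨I, hI, hIx⟩ := exists_basis x (l0 (g 0)) (hx0 _) h
  obtain ⟨B, hB⟩ : ∃ B : Finset (Fin (n + 1)), B = I ∪ Finset.univ.image l0 := ⟨_, rfl⟩
  obtain ⟨ρ, hρ⟩ : ∃ ρ : TanM g k0 x →ₗ[L] ({i // i ∈ B} → L), ∀ z i, ρ z i = z.1 i.1 :=
    ⟨{ toFun := fun z i => z.1 i.1
       map_add' := fun _ _ => rfl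
       map_smul' := fun _ _ => rfl }, fun _ _ => rfl⟩
  have hinj : Function.Injective ρ := by
    rw [← LinearMap.ker_eq_bot, LinearMap.ker_eq_bot']
    rintro ⟨z, c, E, hE, hz⟩ h0
    have h1 : ∀ i ∈ B, z i = 0 := fun i hi => by
      have := congrFun h0 ⟨i, hi⟩
      rw [hρ] at this
      exact this
    have hc : ∀ i, c i = 0 := by
      intro i
      have h2 := h1 (l0 i) (by
        rw [hB]
        exact Finset.mem_union_right _ (Finset.mem_image_of_mem _ (Finset.mem_univ _)))
      rw [hz, hx0, E.map_one_eq_zero, mul_one, add_zero, hg] at h2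
      exact h2
    have hEI : ∀ i ∈ I, E (x i) = 0 := fun i hi => by
      have h2 := h1 i (by rw [hB]; exact Finset.mem_union_left _ hi)
      rwa [hz, hc, zero_mul, zero_add] at h2
    -- the field of the constants
    have hZ : ∀ w ∈ Subfield.closure (Set.range (algebraMap k0 L) ∪ x '' (I : Set (Fin (n + 1)))),
        E w = 0 := by
      intro w hw
      induction hw using Subfield.closure_induction with
      | mem w hw =>
        rcases hw with ⟨r, rfl⟩ | ⟨i, hi, rfl⟩
        · exact hE r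
        · exact hEI i hi
      | one => exact E.map_one_eq_zero
      | add a b _ _ ha hb => rw [map_add, ha, hb, add_zero]
      | neg a _ ha => rw [map_neg, ha, neg_zero]
      | inv a _ ha => rw [Derivation.leibniz_inv, ha, smul_zero]
      | mul a b _ _ ha hb => rw [E.leibniz, ha, hb, smul_zero, smul_zero, add_zero]
    have hx : ∀ i, E (x i) = 0 := by
      intro i
      refine der_zero_of_alg E _ hZ ?_
      have h2 := mem_cl.1 (hIx i)
      have h3 : (IntermediateField.adjoin k0 (x '' (I : Set (Fin (n + 1))))).toSubfield =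
        Subfield.closure (Set.range (algebraMap k0 L) ∪ x '' (I : Set (Fin (n + 1)))) :=
        IntermediateField.adjoin_toSubfield _ _
      rw [← h3]
      exact h2
    apply Subtype.ext
    funext l
    change z l = 0
    rw [hz, hc, hx, zero_mul, add_zero]
  have h1 := LinearMap.finrank_le_finrank_of_injective hinj
  rw [Module.finrank_pi, Fintype.card_coe] at h1
  have h2 := Finset.card_union_le I (Finset.univ.image l0)
  have h3 : (Finset.univ.image l0).card ≤ Fintype.card ι := Finset.card_image_le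
  rw [← hB] at h2
  omega

/-- The dimension of the space of the tangent vectors, in a block. -/
theorem tanM_block [CharZero L] {x : Fin (n + 1) → L} {i : ι} {l0 : Fin (n + 1)}
    (hg : g l0 = i) (hx0 : x l0 = 1) {m : ℕ} (h : Algebra.trdeg k0 (coords k0 (bl g i x)) ≤ m) :
    Module.finrank L ((TanM g k0 x).map (blkL L g i)) ≤ m + 1 := by
  classical
  have hb0 : bl g i x l0 = 1 := by
    unfold bl
    rw [if_pos hg, hx0]
  obtain ⟨I, hI, hIx⟩ := exists_basis (bl g i x) l0 hb0 h
  obtain ⟨B, hB⟩ : ∃ B : Finset (Fin (n + 1)), B = insert l0 I := ⟨_, rfl⟩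
  obtain ⟨ρ, hρ⟩ : ∃ ρ : (TanM g k0 x).map (blkL L g i) →ₗ[L] ({i // i ∈ B} → L),
      ∀ z i, ρ z i = z.1 i.1 :=
    ⟨{ toFun := fun z i => z.1 i.1
       map_add' := fun _ _ => rfl
       map_smul' := fun _ _ => rfl }, fun _ _ => rfl⟩
  have hinj : Function.Injective ρ := by
    rw [← LinearMap.ker_eq_bot, LinearMap.ker_eq_bot']
    rintro ⟨z, z', ⟨c, E, hE, hz⟩, rfl⟩ h0
    have hz' : ∀ l, bl g i z' l = c i * bl g i x l + E (bl g i x l) := by
      intro l
      unfold bl
      split_ifs with hl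
      · rw [hz, hl]
      · rw [mul_zero, map_zero, add_zero]
    have h1 : ∀ l ∈ B, bl g i z' l = 0 := fun l hl => by
      have := congrFun h0 ⟨l, hl⟩
      rw [hρ] at this
      exact this
    have hc : c i = 0 := by
      have h2 := h1 l0 (by rw [hB]; exact Finset.mem_insert_self _ _)
      rwa [hz', hb0, E.map_one_eq_zero, mul_one, add_zero] at h2
    have hEI : ∀ l ∈ I, E (bl g i x l) = 0 := fun l hl => by
      have h2 := h1 l (by rw [hB]; exact Finset.mem_insert_of_mem hl)
      rwa [hz', hc, zero_mul, zero_add] at h2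
    have hZ : ∀ w ∈ Subfield.closure (Set.range (algebraMap k0 L) ∪
        bl g i x '' (I : Set (Fin (n + 1)))), E w = 0 := by
      intro w hw
      induction hw using Subfield.closure_induction with
      | mem w hw =>
        rcases hw with ⟨r, rfl⟩ | ⟨i, hi, rfl⟩
        · exact hE r
        · exact hEI i hi
      | one => exact E.map_one_eq_zero
      | add a b _ _ ha hb => rw [map_add, ha, hb, add_zero]
      | neg a _ ha => rw [map_neg, ha, neg_zero]
      | inv a _ ha => rw [Derivation.leibniz_inv, ha, smul_zero]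
      | mul a b _ _ ha hb => rw [E.leibniz, ha, hb, smul_zero, smul_zero, add_zero]
    have hx : ∀ l, E (bl g i x l) = 0 := by
      intro l
      refine der_zero_of_alg E _ hZ ?_
      have h2 := mem_cl.1 (hIx l)
      have h3 : (IntermediateField.adjoin k0 (bl g i x '' (I : Set (Fin (n + 1))))).toSubfield =
        Subfield.closure (Set.range (algebraMap k0 L) ∪ bl g i x '' (I : Set (Fin (n + 1)))) :=
        IntermediateField.adjoin_toSubfield _ _
      rw [← h3]
      exact h2
    apply Subtype.ext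
    funext l
    change bl g i z' l = 0
    rw [hz', hc, hx, zero_mul, add_zero]
  have h1 := LinearMap.finrank_le_finrank_of_injective hinj
  rw [Module.finrank_pi, Fintype.card_coe] at h1
  have h2 := Finset.card_insert_le l0 I
  rw [← hB] at h2
  omega

/-- The dimensions of the spaces of the vector fields. -/
theorem full_rank [CharZero L] [Fintype ι] (hDk : ∀ a I (r : k0), D a I (algebraMap k0 L r) = 0)
    (hEk : ∀ ξ (r : k0), E ξ (algebraMap k0 L r) = 0) {x : Fin (n + 1) → L}
    {l0 : ι → Fin (n + 1)} (hg : ∀ i, g (l0 i) = i) (hx0 : ∀ i, x (l0 i) = 1)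
    {V : Set (MvPolynomial (Fin (n + 1)) k0)} {m : ℕ} {μ : ι → ℕ} (hV : DimLEM g k0 V m μ)
    (hx : ∀ f ∈ V, aeval x f = 0) :
    Module.finrank L (Full g dg D E x) ≤ m + Fintype.card ι ∧
      ∀ i, Module.finrank L ((Full g dg D E x).map (blkL L g i)) ≤ μ i + 1 := by
  have h1 := hV L x (fun i => ⟨l0 i, hg i, by rw [hx0]; exact one_ne_zero⟩) hx
  have h2 := full_le_tanM (g := g) (dg := dg) hDk hEk x
  exact ⟨(Submodule.finrank_mono h2).trans (tanM_rank hg hx0 h1.1), fun i =>
    (Submodule.finrank_mono (Submodule.map_mono h2)).trans (tanM_block (hg i) (hx0 i) (h1.2 i))⟩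

/-- Forms with coefficients in `E`, and derivations of `E` dual to their coefficients. -/
structure Gen {E : Type} [Field E] {n : ℕ} {A ι : Type} [DecidableEq ι] (g : Fin (n + 1) → ι)
    (F : A → MvPolynomial (Fin (n + 1)) E)
    (dg : A → ι → ℕ) (D : A → (Fin (n + 1) →₀ ℕ) → E → E) : Prop where
  hom : ∀ a, MH g (F a) (dg a)
  dual : ∀ (a b : A) (I J : Fin (n + 1) →₀ ℕ), mdeg g I = dg a → mdeg g J = dg b →
    (a = b → I = J → D a I ((F b).coeff J) = 1) ∧
    ((a ≠ b ∨ I ≠ J) → D a I ((F b).coeff J) = 0)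

section

variable {E : Type} [Field E] {n : ℕ} {A ι : Type} [DecidableEq ι] {g : Fin (n + 1) → ι}
  {F : A → MvPolynomial (Fin (n + 1)) E}
  {dg : A → ι → ℕ} {D : A → (Fin (n + 1) →₀ ℕ) → E → E}

/-- The height data over a function field that contains `E`. -/
theorem Gen.data (h : Gen g F dg D)
    {κ L : Type} [Field κ] [Field L] [Algebra κ L] (φ : E →+* L)
    (D' : A → (Fin (n + 1) →₀ ℕ) → Derivation ℤ L L) (hD' : ∀ a I x, D' a I (φ x) = φ (D a I x))
    {e : Place κ L → ℤ} (he0 : ∀ P, 0 ≤ e P)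
    (loss : ∀ P f, Ge P 0 f → ∀ a, ∀ I : Fin (n + 1) →₀ ℕ, mdeg g I = dg a →
      Ge P (-e P) (D' a I f))
    (fin : {P | e P ≠ 0}.Finite) :
    Data κ g (fun a => map φ (F a)) dg D' e := by
  refine ⟨fun a => (h.hom a).map g φ, fun a b I J hI hJ => ?_, he0, loss, fin⟩
  rw [coeff_map, hD']
  exact ⟨fun hab hIJ => by rw [(h.dual a b I J hI hJ).1 hab hIJ, map_one],
    fun hIJ => by rw [(h.dual a b I J hI hJ).2 hIJ, map_zero]⟩

/-- The indices of the coefficients. -/
abbrev Cf (g : Fin (n + 1) → ι) (dg : A → ι → ℕ) :=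
  Σ a : A, {I : Fin (n + 1) →₀ ℕ // mdeg g I = dg a}

theorem finite_cf [Finite A] (g : Fin (n + 1) → ι) (dg : A → ι → ℕ) : Finite (Cf g dg) := by
  have : ∀ a, Finite {I : Fin (n + 1) →₀ ℕ // mdeg g I = dg a} := fun a =>
    (finite_mdeg g (dg a)).to_subtype
  exact Finite.instSigma

theorem Gen.exists_data [Finite A] (h : Gen g F dg D)
    {κ L : Type} [Field κ] [Field L] [Algebra κ L] [IsAlgClosed κ] [CharZero κ] [IsFF κ L]
    (φ : E →+* L) (D' : A → (Fin (n + 1) →₀ ℕ) → Derivation ℤ L L)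
    (hD' : ∀ a I x, D' a I (φ x) = φ (D a I x)) (hS : ∀ a I, Sem κ (D' a I)) :
    ∃ e : Place κ L → ℤ, Data κ g (fun a => map φ (F a)) dg D' e := by
  classical
  have := finite_cf (n := n) g dg
  obtain ⟨e, he0, hef, he⟩ := exists_loss_fin (k := κ) (K := L)
    (ι := Cf g dg) (D := fun p => D' p.1 p.2.1) (fun p => hS p.1 p.2.1)
  exact ⟨e, h.data φ D' hD' he0 (fun P f hf a I hI => he P f hf ⟨a, I, hI⟩) hef⟩

end

end Pool.Agent.V7H76.MP
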