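import Pool.Agent.V7H76.MP.Rank
import Pool.Agent.TH145.GH.Limit

/-!
Limit points are constant.
-/

set_option autoImplicit false

open MvPolynomial FF Pool.Agent.W603.LV Pool.Agent.W603.PV Pool.Agent.W602.RG
open Pool.Agent.TH145.GH

namespace Pool.Agent.V7H76.MP

variable {k0 K : Type} [Field k0] [Field K] [Algebra k0 K] [IsAlgClosed k0] [IsAlgClosed K]
  [CharZero K]

theorem exists_rig_data {n : ℕ} {A ι : Type} [DecidableEq ι] {g : Fin (n + 1) → ι}
    {dg : A → ι → ℕ} (E : Subfield K)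
    (hE : ∀ r : k0, algebraMap k0 K r ∈ E)
    {F : A → MvPolynomial (Fin (n + 1)) E} {DE : A → (Fin (n + 1) →₀ ℕ) → E → E}
    (hG : Gen g F dg DE)
    (D : A → (Fin (n + 1) →₀ ℕ) → Derivation ℤ K K)
    (hDE : ∀ a I (x : E), D a I x = (DE a I x : K))
    (hDk : ∀ a I (r : k0), D a I (algebraMap k0 K r) = 0) {J : Type} [Finite J]
    (z : J → Om K) (hz : ∀ j, z j ∈ OE k0 (E : Set K))
    (j1 : J) (hj1 : z j1 ∉ acl (cst K '' (E : Set K))) :
    ∃ (κ : Subfield (Om K)) (Λ : IntermediateField κ (Om K)) (φ : E →+* Λ)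
      (D' : A → (Fin (n + 1) →₀ ℕ) → Derivation ℤ Λ Λ),
      IsAlgClosed κ ∧ IsFF κ Λ ∧ (∀ j, z j ∈ Λ) ∧ z j1 ∉ κ ∧
      (∀ x : E, ((φ x : Λ) : Om K) = cst K x) ∧
      Data κ g (fun a => map φ (F a)) dg D' (fun _ => 0) ∧
      ∀ a I (r : k0), D' a I (φ ⟨algebraMap k0 K r, hE r⟩) = 0 := by
  classical
  obtain ⟨κ, Λ, M, hac, hFF, hEκ, hzΛ, hzκ, hXM, hMC, hder, hplace⟩ :=
    exists_rig E hE z hz ∅ (by simp) j1 hj1
  have hczOm : CharZero (Om K) :=
    charZero_of_injective_algebraMap (algebraMap K (Om K)).injective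
  have hcz : CharZero κ := charZero_of_injective_algebraMap (algebraMap ℚ κ).injective
  let φ : E →+* Λ :=
    { toFun := fun x => ⟨cst K x, Λ.algebraMap_mem ⟨cst K x, hEκ x x.2⟩⟩
      map_one' := Subtype.ext (map_one (cst K))
      map_mul' := fun a b => Subtype.ext (map_mul (cst K) (a : K) b)
      map_zero' := Subtype.ext (map_zero (cst K))
      map_add' := fun a b => Subtype.ext (map_add (cst K) (a : K) b) }
  have hd := fun a I => hder (hat (D a I)) (fun w hw => hat_CC (D a I) (hDk a I) hw)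
    (fun x hx => ⟨(DE a I ⟨x, hx⟩ : K), (DE a I ⟨x, hx⟩).2, by
      rw [hat_cst, ← hDE a I ⟨x, hx⟩]⟩)
  let D' : A → (Fin (n + 1) →₀ ℕ) → Derivation ℤ Λ Λ := fun a I =>
    resDer Λ (hat (D a I)) (hd a I).2
  have hD' : ∀ a I (x : Λ), ((D' a I x : Λ) : Om K) = hat (D a I) x := fun a I x => rfl
  have hS : ∀ a I, Sem κ (D' a I) := fun a I c => ⟨⟨hat (D a I) c, (hd a I).1 c c.2⟩, rfl⟩
  have hM0 : ∀ a I, ∀ m ∈ M, D' a I m = 0 := by
    intro a I m hm
    apply Subtype.ext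
    rw [hD']
    exact hat_CC (D a I) (hDk a I) (hMC m hm)
  refine ⟨κ, Λ, φ, D', hac, hFF, hzΛ, hzκ, fun x => rfl, ?_, fun a I r => ?_⟩
  · refine hG.data φ D' (fun a I x => ?_) (fun _ => le_rfl) ?_ ?_
    · apply Subtype.ext
      rw [hD']
      change hat (D a I) (cst K x) = cst K (DE a I x)
      rw [hat_cst, hDE]
    · intro P f hf a I _
      rw [neg_zero]
      rcases hplace P with ⟨-, θ, hθM, c, hu⟩ | ⟨π, hπM, hπ⟩
      · refine reg_of_unif P hu (hS a I) le_rfl ?_ hf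
        obtain ⟨c', hc'⟩ := hS a I c
        rw [map_sub, hM0 a I θ hθM, hc', zero_sub]
        exact (Ge.const c').neg
      · refine reg_of_unif P hπ (hS a I) le_rfl ?_ hf
        rw [hM0 a I π hπM]
        exact Ge.zero
    · simp
  · apply Subtype.ext
    rw [hD']
    change hat (D a I) (cst K (algebraMap k0 K r)) = 0
    rw [hat_cst, hDk, map_zero]

/-- Limit points are constant. -/
theorem limit {n m : ℕ} {A ι : Type} [DecidableEq ι] [Fintype ι] {μ : ι → ℕ}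
    {g : Fin (n + 1) → ι}
    [Fintype A] {dg : A → ι → ℕ} (E : Subfield K)
    (hE : ∀ r : k0, algebraMap k0 K r ∈ E)
    {F : A → MvPolynomial (Fin (n + 1)) E} {DE : A → (Fin (n + 1) →₀ ℕ) → E → E}
    (hG : Gen g F dg DE)
    (D : A → (Fin (n + 1) →₀ ℕ) → Derivation ℤ K K)
    (hDE : ∀ a I (x : E), D a I x = (DE a I x : K))
    (hDk : ∀ a I (r : k0), D a I (algebraMap k0 K r) = 0)
    (hd : ∀ i, m + μ i + 2 ≤ ∑ a, dg a i + Fintype.card A)
    (V : Set (MvPolynomial (Fin (n + 1)) k0)) (hV : DimLEM g k0 V m μ)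
    (z : Fin (n + 1) → Om K) (hz : ∀ j, z j ∈ OE k0 (E : Set K)) {l0 : ι → Fin (n + 1)}
    (hg0 : ∀ i, g (l0 i) = i)
    (hl0 : ∀ i, z (l0 i) = 1) (hzV : ∀ f ∈ V, eval₂ ((cst K).comp (algebraMap k0 K)) z f = 0)
    (hzC : ∀ a, eval z (map ((cst K).comp E.subtype) (F a)) = 0) (j : Fin (n + 1)) :
    z j ∈ acl (cst K '' (E : Set K)) := by
  classical
  by_contra hj1
  obtain ⟨κ, Λ, φ, D', hac, hFF, hzΛ, hzκ, hφ, hdat, hDk'⟩ :=
    exists_rig_data E hE hG D hDE hDk z hz j hj1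
  have hczOm : CharZero (Om K) :=
    charZero_of_injective_algebraMap (algebraMap K (Om K)).injective
  have hcz : CharZero κ := charZero_of_injective_algebraMap (algebraMap ℚ κ).injective
  have hczΛ : CharZero Λ := charZero_of_injective_algebraMap (algebraMap κ Λ).injective
  obtain ⟨x, hx⟩ : ∃ x : Fin (n + 1) → Λ, ∀ j, x j = ⟨z j, hzΛ j⟩ := ⟨_, fun _ => rfl⟩
  have hxz : (fun j => ((x j : Λ) : Om K)) = z := by
    funext j
    rw [hx]
  have hxl0 : ∀ i, x (l0 i) = 1 := by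
    intro i
    rw [hx]
    exact Subtype.ext (hl0 i)
  have hx0 : ∀ i, ∃ s, g s = i ∧ x s ≠ 0 := fun i =>
    ⟨l0 i, hg0 i, by rw [hxl0]; exact one_ne_zero⟩
  have hxC : ∀ a, eval x (map φ (F a)) = 0 := fun a => by
    apply Subtype.ext
    rw [eval_lift φ hφ (F a) x, hxz, hzC a]
    rfl
  -- the dimension
  obtain ⟨hrk, hblk⟩ : Module.finrank Λ (Full g dg D' (noE Λ) x) ≤ m + Fintype.card ι ∧
      ∀ i, Module.finrank Λ ((Full g dg D' (noE Λ) x).map (blkL Λ g i)) ≤ μ i + 1 := by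
    let ψ : k0 →+* E := (algebraMap k0 K).codRestrict E hE
    let _ : Algebra k0 Λ := (φ.comp ψ).toAlgebra
    refine full_rank (k0 := k0) (fun a I r => hDk' a I r) (fun ξ => ξ.elim) hg0 hxl0 hV ?_
    intro f hf
    apply Subtype.ext
    have h1 := hom_eval₂ f (φ.comp ψ) (algebraMap Λ (Om K)) x
    refine h1.trans ?_
    have h2 : (algebraMap Λ (Om K)).comp (φ.comp ψ) = (cst K).comp (algebraMap k0 K) := by
      ext r
      exact hφ (ψ r)
    rw [h2]
    have h3 : (fun i => algebraMap Λ (Om K) (x i)) = z := hxz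
    rw [h3]
    exact hzV f hf
  have h1 := hdat.ineq hd hx0 hrk hblk hxC (g j)
  simp only [mul_zero, finsum_zero] at h1
  have hb : ∀ s, g s = g j → bl g (g j) x s = x s := fun s hs => by
    unfold bl
    rw [if_pos hs]
  obtain ⟨c, hc⟩ := const_of_pht h1 (by rw [hb _ (hg0 (g j))]; exact hxl0 _) j
  apply hzκ
  rw [hb j rfl] at hc
  have h2 := congrArg (fun w : Λ => (w : Om K)) hc
  rw [hx] at h2
  change z j = (c : Om K) at h2
  rw [h2]
  exact c.2

end Pool.Agent.V7H76.MP
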