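import Pool.Agent.V7H76.MP.Est

/-!
The height inequality for generic complete intersections in products of projective spaces.
-/

set_option autoImplicit false

open MvPolynomial FF Pool.Agent.W603.LV Pool.Agent.W603.PV Pool.Agent.TH145.GH
open Pool.Agent.TH145.GC (Ev dF_sub det_row_zero det_scale_gen ord_prod ge_det exists_minor)
open Pool.Agent.TH145.GE (ev dF_ev)

namespace Pool.Agent.V7H76.MP

/-- The derivations are dual to the coefficients of the forms. -/
def Dual {K : Type} [Field K] {n : ℕ} {A ι : Type} [DecidableEq ι] (g : Fin (n + 1) → ι)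
    (F : A → MvPolynomial (Fin (n + 1)) K) (dg : A → ι → ℕ)
    (D : A → (Fin (n + 1) →₀ ℕ) → Derivation ℤ K K) : Prop :=
  ∀ (a b : A) (I J : Fin (n + 1) →₀ ℕ), mdeg g I = dg a → mdeg g J = dg b →
    (a = b → I = J → D a I ((F b).coeff J) = 1) ∧
    ((a ≠ b ∨ I ≠ J) → D a I ((F b).coeff J) = 0)

theorem Dual.dualE {K : Type} [Field K] {n : ℕ} {A ι : Type} [DecidableEq ι]
    {g : Fin (n + 1) → ι}
    {F : A → MvPolynomial (Fin (n + 1)) K} {dg : A → ι → ℕ}
    {D : A → (Fin (n + 1) →₀ ℕ) → Derivation ℤ K K} (hD : Dual g F dg D)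
    (hF : ∀ a, MH g (F a) (dg a)) : DualE g F dg D fun _ _ => 0 := by
  classical
  intro a b I hI x
  rw [Nat.cast_zero, zero_mul, sub_zero]
  split_ifs with hab
  · subst hab
    rw [Finset.sum_eq_single I]
    · rw [(hD a a I I hI hI).1 rfl rfl, one_mul]
    · intro u hu hne
      rw [(hD a a I u hI (hF a u hu)).2 (Or.inr hne.symm), zero_mul]
    · intro h
      exfalso
      have := (hD a a I I hI hI).1 rfl rfl
      rw [notMem_support_iff.1 h, map_zero] at this
      exact zero_ne_one this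
  · refine Finset.sum_eq_zero fun u hu => ?_
    rw [(hD a b I u hI (hF b u hu)).2 (Or.inl hab), zero_mul]

variable {k K : Type} [Field k] [Field K] [Algebra k K]

/-- The data of the inequality at the places. -/
structure Data (k : Type) {K : Type} [Field k] [Field K] [Algebra k K] {n : ℕ} {A ι : Type}
    [DecidableEq ι] (g : Fin (n + 1) → ι)
    (F : A → MvPolynomial (Fin (n + 1)) K) (dg : A → ι → ℕ)
    (D : A → (Fin (n + 1) →₀ ℕ) → Derivation ℤ K K) (e : Place k K → ℤ) : Prop where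
  hom : ∀ a, MH g (F a) (dg a)
  dual : Dual g F dg D
  e_nonneg : ∀ P, 0 ≤ e P
  loss : ∀ P f, Ge P 0 f → ∀ a, ∀ I : Fin (n + 1) →₀ ℕ, mdeg g I = dg a →
    Ge P (-e P) (D a I f)
  fin : {P | e P ≠ 0}.Finite

section

variable {n : ℕ} {A ι : Type} [DecidableEq ι] {g : Fin (n + 1) → ι}
    {F : A → MvPolynomial (Fin (n + 1)) K} {dg : A → ι → ℕ}
    {D : A → (Fin (n + 1) →₀ ℕ) → Derivation ℤ K K} {e : Place k K → ℤ}

/-- No vertical vector fields. -/
abbrev noE (K : Type) [Field K] : Empty → Derivation ℤ K K := fun z => z.elim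

theorem Data.ge_vv (hdat : Data k g F dg D e) (P : Place k K) {x : Fin (n + 1) → K}
    (hx : ∀ l, Ge P 0 (x l)) {I : A → Fin (n + 1) →₀ ℕ} (hI : ∀ a, mdeg g (I a) = dg a)
    (r : Ix ι Empty n A ⊕ A) (l : Fin (n + 1)) : Ge P (-e P) (vv g dg D (noE K) x I r l) := by
  have he := hdat.e_nonneg P
  rcases r with (i | ξ | t) | a
  · simp only [vv, wv, bl]
    split_ifs
    · exact (hx l).mono (by omega)
    · exact Ge.zero
  · exact ξ.elim
  · simp only [vv, wv, tv]
    split_ifs with ht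
    · refine Ge.mono (by omega : -e P ≤ 0 + -e P) (Ge.sub ?_ ?_)
      · exact (hx _).mul (hdat.loss P _ (hx l) _ _ (by rw [mdeg_add, mdeg_single, ht.2]))
      · exact (hx _).mul (hdat.loss P _ (hx l) _ _ (by
          rw [mdeg_add, mdeg_single, ← ht.1, ht.2]))
    · exact Ge.zero
  · exact hdat.loss P _ (hx l) a _ (hI a)

theorem indep_pos [Fintype ι] {E : Empty → Derivation ℤ K K} {x : Fin (n + 1) → K}
    {e : ι → Fin (n + 1)} (hge : ∀ i, g (e i) = i) (he : ∀ i, x (e i) ≠ 0)
    (I : A → Fin (n + 1) →₀ ℕ) :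
    LinearIndepOn K (vv g dg D E x I) (Vert ι Empty n A) := by
  obtain ⟨f, hf⟩ : ∃ f : ι → Ix ι Empty n A ⊕ A, ∀ i, f i = Sum.inl (Sum.inl i) :=
    ⟨_, fun _ => rfl⟩
  have h1 : Vert ι Empty n A = f '' Set.univ := by
    ext r
    constructor
    · rintro (⟨i, rfl⟩ | ⟨ξ, rfl⟩)
      · exact ⟨i, trivial, hf i⟩
      · exact ξ.elim
    · rintro ⟨i, -, rfl⟩
      exact Or.inl ⟨i, hf i⟩
  rw [h1]
  refine LinearIndepOn.image_of_comp _ _ ?_
  rw [linearIndepOn_univ_iff, Fintype.linearIndependent_iff]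
  intro r hr i
  have h2 := congrFun hr (e i)
  rw [Finset.sum_apply, Pi.zero_apply, Finset.sum_eq_single i] at h2
  · rw [Function.comp_apply, hf, Pi.smul_apply, smul_eq_mul] at h2
    simp only [vv, wv, bl] at h2
    rw [if_pos (hge i)] at h2
    exact (mul_eq_zero.1 h2).resolve_right (he i)
  · intro j _ hj
    rw [Function.comp_apply, hf, Pi.smul_apply, smul_eq_mul]
    simp only [vv, wv, bl]
    rw [if_neg (by rw [hge]; exact Ne.symm hj), mul_zero]
  · intro h; exact absurd (Finset.mem_univ _) h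

variable [IsAlgClosed k] [CharZero k] [IsFF k K]

omit [DecidableEq ι] [CharZero k] [IsAlgClosed k] [IsFF k K] in
theorem bl_ne [DecidableEq ι] {x : Fin (n + 1) → K} {i : ι} {s : Fin (n + 1)} (hs : g s = i)
    (hx : x s ≠ 0) : bl g i x s ≠ 0 := by
  unfold bl
  rwa [if_pos hs]

theorem pht_nonneg {x : Fin (n + 1) → K} (hx : x ≠ 0) : 0 ≤ pht k x := by
  obtain ⟨e0, he0⟩ := Function.ne_iff.1 hx
  exact (hgt_nonneg _).trans (Pool.Agent.W603.CX.hgt_le_pht (k := k) x he0 he0)

/-- Summation of the local inequalities. -/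
theorem sum_localM [Fintype ι] {x : Fin (n + 1) → K} (hx : ∀ i, bl g i x ≠ 0) {Θ : K}
    {a : ι → ℤ} (ha : ∀ i, 1 ≤ a i) {C : Place k K → ℤ} (hC : {P | C P ≠ 0}.Finite)
    (h : ∀ P : Place k K, ∑ i, (- a i) * pord P (bl g i x) - C P ≤ P.ord Θ) (i0 : ι) :
    pht k (bl g i0 x) ≤ ∑ᶠ P, C P := by
  classical
  have hp := fun i => pord_finite (k := k) (Function.ne_iff.1 (hx i))
  obtain ⟨T, hT⟩ := exists_supp (k := k) (Finset.univ : Finset Unit) (fun _ => Θ)
  obtain ⟨U, hU⟩ : ∃ U : Finset (Place k K), U = T ∪ ((Finset.univ.biUnion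
    fun i => (hp i).toFinset) ∪ hC.toFinset) := ⟨_, rfl⟩
  have h1 : ∑ P ∈ U, P.ord Θ = 0 := sum_ord_finset _ _ fun P hP => by
    rw [hU]; exact Finset.mem_union_left _ (hT () (Finset.mem_univ _) P hP)
  have h2 : ∀ i, pht k (bl g i x) = - ∑ P ∈ U, pord P (bl g i x) := by
    intro i
    unfold pht
    rw [finsum_eq_sum_of_support_subset (s := U)]
    intro P hP
    rw [hU]
    exact Finset.mem_union_right _ (Finset.mem_union_left _
      (Finset.mem_biUnion.2 ⟨i, Finset.mem_univ _, (hp i).mem_toFinset.2 hP⟩))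
  have h3 : ∑ᶠ P, C P = ∑ P ∈ U, C P := by
    rw [finsum_eq_sum_of_support_subset (s := U)]
    intro P hP
    rw [hU]
    exact Finset.mem_union_right _ (Finset.mem_union_right _ (hC.mem_toFinset.2 hP))
  have h4 := Finset.sum_le_sum (s := U) fun P _ => h P
  rw [Finset.sum_sub_distrib, Finset.sum_comm, h1, ← h3] at h4
  have h5 : ∀ i, ∑ P ∈ U, (-a i) * pord P (bl g i x) = a i * pht k (bl g i x) := by
    intro i
    rw [← Finset.mul_sum, h2]
    ring
  simp only [h5] at h4
  have h6 : ∑ i, pht k (bl g i x) ≤ ∑ i, a i * pht k (bl g i x) := by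
    refine Finset.sum_le_sum fun i _ => ?_
    have := pht_nonneg (k := k) (hx i)
    nlinarith [ha i]
  have h7 := Finset.single_le_sum (f := fun i => pht k (bl g i x))
    (fun i _ => pht_nonneg (k := k) (hx i)) (Finset.mem_univ i0)
  linarith

/-- The height inequality. -/
theorem Data.ineq [Fintype ι] (hdat : Data k g F dg D e) [Fintype A] {m : ℕ} {μ : ι → ℕ}
    (hdim : ∀ i, m + μ i + 2 ≤ ∑ a, dg a i + Fintype.card A)
    {x : Fin (n + 1) → K} (hx0 : ∀ i, ∃ s, g s = i ∧ x s ≠ 0)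
    (hrk : Module.finrank K (Full g dg D (noE K) x) ≤ m + Fintype.card ι)
    (hblk : ∀ i, Module.finrank K ((Full g dg D (noE K) x).map (blkL K g i)) ≤ μ i + 1)
    (hC : ∀ a, eval x (F a) = 0) (i0 : ι) :
    pht k (bl g i0 x) ≤ ∑ᶠ P, (n + 1) * e P := by
  classical
  choose e0 hge he using hx0
  obtain ⟨b, hbV, hbC, hbi, hspan, hcard⟩ := exists_rows (E := noE K) hdat.hom
    (hdat.dual.dualE hdat.hom) (fun z => z.elim) hge he hC (indep_pos hge he _)
  obtain ⟨τ, hτ⟩ := exists_minor _ hbi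
  have hdet : (mx g dg D (noE K) x (base dg e0) b τ).det ≠ 0 := by
    unfold mx
    convert hτ
  have hbp : ∀ i, Sum.inl (Sum.inl i) ∈ b := fun i => hbV _ (Or.inl ⟨i, rfl⟩)
  have htot : ∀ i, tot Empty g b τ i + 1 ≤ ∑ a, dg a i := by
    intro i
    have h1 := tot_le (fun a => mdeg_base g dg hge a) τ hbC hbV hdet (hcard ▸ hrk) i (hblk i)
    have h2 := hdim i
    rw [Fintype.card_eq_zero (α := Empty)] at h1
    omega
  have hbn : b.card ≤ n + 1 := by
    rw [← hcard]
    have := Submodule.finrank_le (Full g dg D (noE K) x)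
    rwa [Module.finrank_fin_fun] at this
  refine sum_localM (k := k) (g := g) (x := x) (Θ := (mx g dg D (noE K) x (base dg e0) b τ).det /
    ∏ a, mon x (base dg e0 a)) (a := fun i => (∑ a, dg a i : ℕ) - (tot Empty g b τ i : ℤ))
    (fun i h0 => bl_ne (hge i) (he i) (congrFun h0 _)) (fun i => ?_) ?_ (fun P => ?_) i0
  · have := htot i
    omega
  · refine hdat.fin.subset fun P hP => ?_
    intro h0
    apply hP
    rw [h0, mul_zero]
  · have h1 := ord_theta P hge he τ hbC hbp hspan hdet (B := -((n + 1) * e P))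
      (fun x' e1 hx' hge1 hdet' => by
        have h1 := (ge_det P (mx g dg D (noE K) x' (base dg e1) b τ) (c := e P)
          fun r j => hdat.ge_vv P hx' (fun a => mdeg_base g dg hge1 a) _ _).resolve_left hdet'
        rw [Fintype.card_coe] at h1
        have h2 : (b.card : ℤ) * e P ≤ (n + 1) * e P :=
          mul_le_mul_of_nonneg_right (by exact_mod_cast hbn) (hdat.e_nonneg P)
        linarith)
    simp only [neg_sub]
    rw [sub_eq_add_neg]
    exact h1

end

end Pool.Agent.V7H76.MP
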