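import Pool.Agent.V7H76.MP.Lin
import Pool.Agent.V7H76.MP.Rank
import Pool.Agent.TH145.GF.Duals

/-!
Derivations of a function field that are dual to the coefficients of multihomogeneous forms.
-/

set_option autoImplicit false

open MvPolynomial FF Pool.Agent.W603.LV Pool.Agent.TH145.GH
open Pool.Agent.TH145.GC (Ev)
open Pool.Agent.TH145.GE (der_coeff)
open Pool.Agent.TH145.GF (exists_dualsG)

namespace Pool.Agent.V7H76.MP

open scoped Classical in
/-- The derivations that are dual to the coefficients of the forms. -/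
theorem exists_dualM {k0 k L β ι : Type} [Field k0] [Field k] [Field L] [Algebra k0 k]
    [Algebra k L] [Algebra k0 L] [IsScalarTower k0 k L] [IsAlgClosed k] [CharZero k] {t : β → L}
    [DecidableEq ι] (ht : IsTranscendenceBasis k t) {n : ℕ} {g : Fin (n + 1) → ι} {A : Type}
    [Finite A] {dg : A → ι → ℕ} {J : A → Type}
    [∀ a, Fintype (J a)]
    (P : ∀ a, J a → MvPolynomial (Fin (n + 1)) k0) (cf : ∀ a, J a → k) (j0 : ∀ a, J a)
    (h1 : ∀ a, cf a (j0 a) = 1)
    (hind : AlgebraicIndependent k0 fun p : Σ a, {j : J a // j ≠ j0 a} => cf p.1 p.2.1)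
    (hSt : ∀ a I, mdeg g I = dg a → ∃ j, P a j = monomial I 1)
    {G : A → MvPolynomial (Fin (n + 1)) k}
    (hG : ∀ a, G a = ∑ j, C (cf a j) * map (algebraMap k0 k) (P a j)) :
    ∃ (D : A → (Fin (n + 1) →₀ ℕ) → Derivation ℤ L L) (ε : A → (Fin (n + 1) →₀ ℕ) → ℕ),
      DualE g (fun a => map (algebraMap k L) (G a)) dg D ε ∧ (∀ a I, Sem k (D a I)) ∧
      ∀ a I (r : k0), D a I (algebraMap k0 L r) = 0 := by
  have hfr : Finite (Σ a, {j : J a // j ≠ j0 a}) := inferInstance
  have := Fintype.ofFinite (Σ a, {j : J a // j ≠ j0 a})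
  obtain ⟨D', hDS, hDD⟩ := exists_dualsG ht _ hind
  obtain ⟨E, hE⟩ : ∃ E : ∀ a, J a → Derivation ℤ L L, ∀ a j, E a j =
      if h : j ≠ j0 a then (D' ⟨a, ⟨j, h⟩⟩).restrictScalars ℤ else
      - ∑ p : (Σ a, {j : J a // j ≠ j0 a}), if p.1 = a then
        algebraMap k L (cf p.1 p.2.1) • (D' p).restrictScalars ℤ else 0 :=
    ⟨_, fun _ _ => rfl⟩
  have hD0 : ∀ p (r : k0), D' p (algebraMap k0 L r) = 0 := fun p r => (D' p).map_algebraMap r
  have hneg : ∀ a (z : L), (-∑ p : (Σ a, {j : J a // j ≠ j0 a}), if p.1 = a then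
      algebraMap k L (cf p.1 p.2.1) • (D' p).restrictScalars ℤ else 0) z =
      -∑ p : (Σ a, {j : J a // j ≠ j0 a}), if p.1 = a then
      algebraMap k L (cf p.1 p.2.1) * D' p z else 0 := by
    intro a z
    rw [Derivation.neg_apply]
    congr 1
    rw [← Derivation.coeFnAddMonoidHom_apply, map_sum, Finset.sum_apply]
    refine Finset.sum_congr rfl fun p _ => ?_
    rw [Derivation.coeFnAddMonoidHom_apply]
    split_ifs
    · rfl
    · rfl
  have hE0 : ∀ a j (r : k0), E a j (algebraMap k0 L r) = 0 := by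
    intro a j r
    rw [hE]
    split_ifs with h2
    · exact hD0 _ _
    · rw [hneg, neg_eq_zero]
      refine Finset.sum_eq_zero fun p _ => ?_
      rw [hD0, mul_zero, ite_self]
  have hES : ∀ a j, Sem k (E a j) := by
    intro a j
    rw [hE]
    split_ifs with h2
    · exact hDS _
    · intro r
      have h4 : ∀ p, ∃ r', D' p (algebraMap k L r) = algebraMap k L r' := fun p => hDS p r
      choose r' hr' using h4
      refine ⟨-∑ p : (Σ a, {j : J a // j ≠ j0 a}), if p.1 = a then cf p.1 p.2.1 * r' p else 0, ?_⟩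
      rw [hneg, map_neg, map_sum]
      congr 1
      refine Finset.sum_congr rfl fun p _ => ?_
      split_ifs
      · rw [map_mul, ← hr']
      · rw [map_zero]
  -- the values
  have hne : ∀ a b (hab : a ≠ b) j i, E a j (algebraMap k L (cf b i)) = 0 := by
    intro a b hab j i
    by_cases hi : i = j0 b
    · rw [hi, h1, map_one, (E a j).map_one_eq_zero]
    · have h3 : ∀ p, D' p (algebraMap k L (cf b i)) =
          if p = ⟨b, ⟨i, hi⟩⟩ then 1 else 0 := fun p =>
        (hDD p ⟨b, ⟨i, hi⟩⟩).trans (by congr)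
      rw [hE]
      split_ifs with h2
      · change D' ⟨a, ⟨j, h2⟩⟩ (algebraMap k L (cf b i)) = 0
        rw [h3, if_neg]
        intro h
        exact hab (congrArg Sigma.fst h)
      · rw [hneg, neg_eq_zero]
        refine Finset.sum_eq_zero fun p _ => ?_
        rw [h3]
        split_ifs with hpa hpb
        · exact absurd (hpa.symm.trans (congrArg Sigma.fst hpb)) hab
        · rw [mul_zero]
        · rfl
  have heq : ∀ a j i, j ≠ j0 a → E a j (algebraMap k L (cf a i)) = if i = j then 1 else 0 := by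
    intro a j i hj
    rw [hE, dif_pos hj]
    change D' ⟨a, ⟨j, hj⟩⟩ (algebraMap k L (cf a i)) = _
    by_cases hi : i = j0 a
    · rw [hi, h1, map_one, (D' _).map_one_eq_zero, if_neg (Ne.symm hj)]
    · have h3 := hDD ⟨a, ⟨j, hj⟩⟩ ⟨a, ⟨i, hi⟩⟩
      dsimp only at h3
      rw [h3]
      by_cases hij : i = j
      · subst hij
        rw [if_pos rfl, if_pos rfl]
      · rw [if_neg hij, if_neg]
        intro h
        apply hij
        have h6 := eq_of_heq (Sigma.mk.inj_iff.1 h).2
        exact (congrArg Subtype.val h6).symm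
  have heq0 : ∀ a i, E a (j0 a) (algebraMap k L (cf a i)) =
      if i = j0 a then 0 else - algebraMap k L (cf a i) := by
    intro a i
    by_cases hi : i = j0 a
    · rw [if_pos hi, hi, h1, map_one, (E a _).map_one_eq_zero]
    · have h3 : ∀ p, D' p (algebraMap k L (cf a i)) =
          if p = ⟨a, ⟨i, hi⟩⟩ then 1 else 0 := fun p =>
        (hDD p ⟨a, ⟨i, hi⟩⟩).trans (by congr)
      rw [if_neg hi, hE, dif_neg (by rw [not_not]), hneg, Finset.sum_eq_single ⟨a, ⟨i, hi⟩⟩]
      · rw [if_pos rfl, h3, if_pos rfl, mul_one]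
      · intro p _ hp
        rw [h3, if_neg hp, mul_zero, ite_self]
      · intro h
        exact absurd (Finset.mem_univ _) h
  -- the choice of the members
  choose js hjs using hSt
  obtain ⟨D, hD⟩ : ∃ D : A → (Fin (n + 1) →₀ ℕ) → Derivation ℤ L L, ∀ a I, D a I =
      if h : mdeg g I = dg a then E a (js a I h) else 0 := ⟨_, fun _ _ => rfl⟩
  obtain ⟨ε, hε⟩ : ∃ ε : A → (Fin (n + 1) →₀ ℕ) → ℕ, ∀ a I, ε a I =
      if h : ∃ h : mdeg g I = dg a, js a I h = j0 a then 1 else 0 := ⟨_, fun _ _ => rfl⟩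
  refine ⟨D, ε, fun a b I hI x => ?_, fun a I => ?_, fun a I r => ?_⟩
  · obtain ⟨j, hj⟩ : ∃ j, j = js a I hI := ⟨_, rfl⟩
    have hPj : P a j = monomial I 1 := by rw [hj, hjs]
    have hDj : D a I = E a j := by rw [hD, dif_pos hI, hj]
    have h5 : eval x (map (algebraMap k L) (G b)) =
        ∑ i, algebraMap k L (cf b i) * aeval x (P b i) := by
      rw [hG, map_sum, map_sum]
      refine Finset.sum_congr rfl fun i _ => ?_
      rw [map_mul, map_mul, map_C, eval_C, map_map, eval_map, ← IsScalarTower.algebraMap_eq]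
      rfl
    have h6 := der_coeff (P b) (cf b) (E a j) (hE0 a j) x
    rw [← hG] at h6
    rw [hDj]
    dsimp only
    rw [h6, h5]
    by_cases hab : a = b
    · subst hab
      rw [if_pos rfl]
      have h7 : aeval x (P a j) = mon x I := by
        rw [hPj, aeval_monomial, map_one, one_mul]
        exact Finsupp.prod_fintype _ _ fun _ => pow_zero _
      by_cases hj0 : j = j0 a
      · have h8 : ε a I = 1 := by
          rw [hε, dif_pos ⟨hI, by rw [← hj, hj0]⟩]
        rw [h8, Nat.cast_one, one_mul, hj0, ← Finset.add_sum_erase _ _ (Finset.mem_univ (j0 a)),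
          ← Finset.add_sum_erase (Finset.univ) (fun i => algebraMap k L (cf a i) * aeval x (P a i))
            (Finset.mem_univ (j0 a)), heq0, if_pos rfl, h1, map_one, zero_mul, zero_add, one_mul,
          ← h7, hj0, sub_add_cancel_left, ← Finset.sum_neg_distrib]
        refine Finset.sum_congr rfl fun i hi => ?_
        rw [heq0, if_neg (Finset.ne_of_mem_erase hi), neg_mul]
      · have h8 : ε a I = 0 := by
          rw [hε, dif_neg]
          rintro ⟨h, h'⟩
          exact hj0 (hj.trans h')
        rw [h8, Nat.cast_zero, zero_mul, sub_zero, Finset.sum_eq_single j]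
        · rw [heq a j j hj0, if_pos rfl, one_mul, h7]
        · intro i _ hi
          rw [heq a j i hj0, if_neg hi, zero_mul]
        · intro h
          exact absurd (Finset.mem_univ _) h
    · rw [if_neg hab]
      refine Finset.sum_eq_zero fun i _ => ?_
      rw [hne a b hab, zero_mul]
  · rw [hD]
    split_ifs
    · exact hES _ _
    · exact fun r => ⟨0, by rw [map_zero]; rfl⟩
  · rw [hD]
    split_ifs
    · exact hE0 _ _ r
    · rfl

end Pool.Agent.V7H76.MP
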