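import Pool.Agent.V7H76.MP.Limit
import Pool.Agent.TH145.GH.FinB2

/-!
Heights of points, and finiteness over a finitely generated field.
-/

set_option autoImplicit false

open MvPolynomial FF Pool.Agent.W603.LV Pool.Agent.W603.PV Pool.Agent.W602.RG
open Pool.Agent.TH145.GH

namespace Pool.Agent.V7H76.MP

variable {k0 K η : Type} [Field k0] [Field K] [Algebra k0 K] [IsAlgClosed K] [CharZero K]
  {y : η → K} (E : IntermediateField (IntermediateField.adjoin k0 (Set.range y)) K)

/-- The data in the structure of a variable. -/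
theorem exists_data_L {n : ℕ} {A ι : Type} [DecidableEq ι] {g : Fin (n + 1) → ι} [Finite A]
    {dg : A → ι → ℕ} (hy : AlgebraicIndependent k0 y)
    [FiniteDimensional (IntermediateField.adjoin k0 (Set.range y)) E]
    {F : A → MvPolynomial (Fin (n + 1)) E.toSubfield}
    {DE : A → (Fin (n + 1) →₀ ℕ) → E.toSubfield → E.toSubfield}
    (hG : Gen g F dg DE)
    (D : A → (Fin (n + 1) →₀ ℕ) → Derivation ℤ K K)
    (hDE : ∀ a I (x : E.toSubfield), D a I x = (DE a I x : K))
    (hDk : ∀ a I (r : k0), D a I (algebraMap k0 K r) = 0)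
    (hDy : ∀ a I j, ∃ r : k0, D a I (y j) = algebraMap k0 K r) (i : η) :
    ∃ (φ : E.toSubfield →+* LL k0 y (E : Set K) i)
      (D' : A → (Fin (n + 1) →₀ ℕ) → Derivation ℤ (LL k0 y (E : Set K) i) (LL k0 y (E : Set K) i))
      (e : Place (kap k0 y i) (LL k0 y (E : Set K) i) → ℤ),
      (∀ x, (φ x : K) = x) ∧ (∀ a I x, ((D' a I x : LL k0 y (E : Set K) i) : K) = D a I x) ∧
      Data (kap k0 y i) g (fun a => map φ (F a)) dg D' e := by
  have hFF : IsFF (kap k0 y i) (LL k0 y (E : Set K) i) := LL_ff E hy i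
  have hac : IsAlgClosed (kap k0 y i) := acl_isAlgClosed _
  have hcz : CharZero (kap k0 y i) := charZero_of_injective_algebraMap
    (algebraMap ℚ (kap k0 y i)).injective
  let φ : E.toSubfield →+* LL k0 y (E : Set K) i :=
    { toFun := fun x => ⟨x, subset_LL y _ i x.2⟩
      map_one' := rfl
      map_mul' := fun _ _ => rfl
      map_zero' := rfl
      map_add' := fun _ _ => rfl }
  have hDE' : ∀ a I, ∀ x ∈ E, D a I x ∈ E := by
    intro a I x hx
    rw [hDE a I ⟨x, hx⟩]
    exact (DE a I ⟨x, hx⟩).2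
  let D' : A → (Fin (n + 1) →₀ ℕ) → Derivation ℤ (LL k0 y (E : Set K) i)
      (LL k0 y (E : Set K) i) := fun a I => resDer _ (D a I) fun x hx =>
    der_LL E (D a I) (hDk a I) (hDy a I) (hDE' a I) i hx
  obtain ⟨e, hdat⟩ := hG.exists_data (κ := kap k0 y i) φ D' (fun a I x => by
    apply Subtype.ext
    exact hDE a I x) (fun a I c => ⟨⟨_, der_kap (D a I) (hDk a I) (hDy a I) i c.2⟩, rfl⟩)
  exact ⟨φ, D', e, fun _ => rfl, fun _ _ _ => rfl, hdat⟩

/-- The heights of the points are bounded. -/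
theorem heights {n m : ℕ} {A ι : Type} [DecidableEq ι] [Fintype ι] {μ : ι → ℕ}
    {g : Fin (n + 1) → ι}
    [Fintype A] {dg : A → ι → ℕ} (hy : AlgebraicIndependent k0 y)
    [FiniteDimensional (IntermediateField.adjoin k0 (Set.range y)) E]
    {F : A → MvPolynomial (Fin (n + 1)) E.toSubfield}
    {DE : A → (Fin (n + 1) →₀ ℕ) → E.toSubfield → E.toSubfield}
    (hG : Gen g F dg DE)
    (D : A → (Fin (n + 1) →₀ ℕ) → Derivation ℤ K K)
    (hDE : ∀ a I (x : E.toSubfield), D a I x = (DE a I x : K))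
    (hDk : ∀ a I (r : k0), D a I (algebraMap k0 K r) = 0)
    (hDy : ∀ a I j, ∃ r : k0, D a I (y j) = algebraMap k0 K r)
    (hd : ∀ i, m + μ i + 2 ≤ ∑ a, dg a i + Fintype.card A)
    (V : Set (MvPolynomial (Fin (n + 1)) k0)) (hV : DimLEM g k0 V m μ)
    {l0 : ι → Fin (n + 1)} (hg0 : ∀ i, g (l0 i) = i) (i : η) :
    ∃ B : ℤ, ∀ (x : Fin (n + 1) → E), (∀ i, x (l0 i) = 1) →
      (∀ f ∈ V, eval₂ (algebraMap k0 K) (fun j => (x j : K)) f = 0) →
      (∀ a, eval (fun j => (x j : K)) (map E.toSubfield.subtype (F a)) = 0) →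
      ∀ j, hgt (kap k0 y i) (⟨(x j : K), subset_LL y _ i (x j).2⟩ :
        LL k0 y (E : Set K) i) ≤ B := by
  classical
  have hFF : IsFF (kap k0 y i) (LL k0 y (E : Set K) i) := LL_ff E hy i
  have hac : IsAlgClosed (kap k0 y i) := acl_isAlgClosed _
  have hcz : CharZero (kap k0 y i) := charZero_of_injective_algebraMap
    (algebraMap ℚ (kap k0 y i)).injective
  obtain ⟨φ, D', e, hφ, hD', hdat⟩ := exists_data_L E hy hG D hDE hDk hDy i
  obtain ⟨H, hH⟩ : ∃ H : ℤ, H = max (∑ᶠ P, ((n + 1) * e P)) 0 := ⟨_, rfl⟩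
  have hH0 : 0 ≤ H := by rw [hH]; exact le_max_right _ _
  refine ⟨H, fun x hx hxV hxC j => ?_⟩
  obtain ⟨x', hx'⟩ : ∃ x' : Fin (n + 1) → LL k0 y (E : Set K) i,
    ∀ j, x' j = ⟨(x j : K), subset_LL y _ i (x j).2⟩ := ⟨_, fun _ => rfl⟩
  have hxl0 : ∀ i, x' (l0 i) = 1 := by
    intro i
    rw [hx']
    apply Subtype.ext
    change (x (l0 i) : K) = 1
    rw [hx]; rfl
  have hx0 : ∀ i, ∃ s, g s = i ∧ x' s ≠ 0 := fun i =>
    ⟨l0 i, hg0 i, by rw [hxl0]; exact one_ne_zero⟩
  have hev : ∀ a, algebraMap (LL k0 y (E : Set K) i) K (eval x' (map φ (F a))) =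
      eval (fun j => (x j : K)) (map E.toSubfield.subtype (F a)) := by
    intro a
    rw [eval_incl φ hφ (F a) x']
    congr 2
    funext j
    rw [hx']
    rfl
  have hxC' : ∀ a, eval x' (map φ (F a)) = 0 := by
    intro a
    apply (algebraMap (LL k0 y (E : Set K) i) K).injective
    rw [map_zero, hev, hxC a]
  -- the dimension
  obtain ⟨hrk, hblk⟩ : Module.finrank (LL k0 y (E : Set K) i)
      (Full g dg D' (noE (LL k0 y (E : Set K) i)) x') ≤ m + Fintype.card ι ∧
      ∀ i', Module.finrank (LL k0 y (E : Set K) i)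
        ((Full g dg D' (noE (LL k0 y (E : Set K) i)) x').map
          (blkL (LL k0 y (E : Set K) i) g i')) ≤ μ i' + 1 := by
    let ψ : k0 →+* LL k0 y (E : Set K) i :=
      { toFun := fun r => ⟨algebraMap k0 K r, subset_LL y _ i (k0_mem E r)⟩
        map_one' := Subtype.ext (map_one _)
        map_mul' := fun a b => Subtype.ext (map_mul _ a b)
        map_zero' := Subtype.ext (map_zero _)
        map_add' := fun a b => Subtype.ext (map_add _ a b) }
    have hczL : CharZero (LL k0 y (E : Set K) i) :=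
      charZero_of_injective_algebraMap (algebraMap (kap k0 y i) _).injective
    let _ : Algebra k0 (LL k0 y (E : Set K) i) := ψ.toAlgebra
    refine full_rank (k0 := k0) (fun a I r => ?_) (fun ξ => ξ.elim) hg0 hxl0 hV ?_
    · apply Subtype.ext
      rw [hD']
      exact hDk a I r
    · intro f hf
      apply Subtype.ext
      have h1 := hom_eval₂ f ψ (algebraMap (LL k0 y (E : Set K) i) K) x'
      refine h1.trans ?_
      have h2 : (algebraMap (LL k0 y (E : Set K) i) K).comp ψ = algebraMap k0 K := by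
        ext r
        rfl
      have h3 : (fun j => algebraMap (LL k0 y (E : Set K) i) K (x' j)) = fun j => (x j : K) := by
        funext j
        rw [hx']
        rfl
      rw [h2, h3]
      exact hxV f hf
  have h1 : pht (kap k0 y i) (bl g (g j) x') ≤ H := by
    rw [hH]
    exact (hdat.ineq hd hx0 hrk hblk hxC' (g j)).trans (le_max_left _ _)
  have hb : ∀ s, g s = g j → bl g (g j) x' s = x' s := fun s hs => by
    unfold bl
    rw [if_pos hs]
  rw [← hx']
  by_cases hj : x' j = 0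
  · rw [hj]
    have := Pool.Agent.TH145.MG.hgt_const (k := kap k0 y i) (L := LL k0 y (E : Set K) i) 0
    rw [map_zero] at this
    rw [this]
    exact hH0
  · have h2 := Pool.Agent.W603.CX.hgt_le_pht (k := kap k0 y i) (bl g (g j) x') (j := j)
      (l := l0 (g j)) (by rw [hb j rfl]; exact hj)
      (by rw [hb _ (hg0 _), hxl0]; exact one_ne_zero)
    rw [hb _ (hg0 _), hb j rfl, hxl0, div_one] at h2
    exact h2.trans h1

/-- Finiteness of the points. -/
theorem fin_all {n m : ℕ} {A ι : Type} [DecidableEq ι] [Fintype ι] {μ : ι → ℕ}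
    {g : Fin (n + 1) → ι}
    [Fintype A] {dg : A → ι → ℕ} [IsAlgClosed k0] [Finite η]
    (hy : IsTranscendenceBasis k0 y)
    [FiniteDimensional (IntermediateField.adjoin k0 (Set.range y)) E]
    [IsGalois (IntermediateField.adjoin k0 (Set.range y)) E]
    {F : A → MvPolynomial (Fin (n + 1)) E.toSubfield}
    {DE : A → (Fin (n + 1) →₀ ℕ) → E.toSubfield → E.toSubfield}
    (hG : Gen g F dg DE)
    (D : A → (Fin (n + 1) →₀ ℕ) → Derivation ℤ K K)
    (hDE : ∀ a I (x : E.toSubfield), D a I x = (DE a I x : K))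
    (hDk : ∀ a I (r : k0), D a I (algebraMap k0 K r) = 0)
    (hDy : ∀ a I j, ∃ r : k0, D a I (y j) = algebraMap k0 K r)
    (hd : ∀ i, m + μ i + 2 ≤ ∑ a, dg a i + Fintype.card A)
    (V : Set (MvPolynomial (Fin (n + 1)) k0)) (hV : DimLEM g k0 V m μ)
    {l0 : ι → Fin (n + 1)} (hg0 : ∀ i, g (l0 i) = i) :
    {x : Fin (n + 1) → K | (∀ j, x j ∈ E) ∧ (∀ i, x (l0 i) = 1) ∧
      (∀ f ∈ V, eval₂ (algebraMap k0 K) x f = 0) ∧
      (∀ a, eval x (map E.toSubfield.subtype (F a)) = 0)}.Finite := by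
  by_contra hinf
  let f := Set.Infinite.natEmbedding _ hinf
  obtain ⟨x, hx⟩ : ∃ x : ℕ → Fin (n + 1) → K, ∀ n, x n = (f n).1 := ⟨_, fun _ => rfl⟩
  have hxinj : Function.Injective x := by
    intro a b hab
    rw [hx, hx] at hab
    exact f.injective (Subtype.ext hab)
  have hxE : ∀ n j, x n j ∈ E := fun n j => by rw [hx]; exact (f n).2.1 j
  have hxl : ∀ i n, x n (l0 i) = 1 := fun i n => by rw [hx]; exact (f n).2.2.1 i
  have hxV : ∀ n, ∀ f ∈ V, eval₂ (algebraMap k0 K) (x n) f = 0 := fun n => by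
    rw [hx]; exact (f n).2.2.2.1
  have hxC : ∀ n a, eval (x n) (map E.toSubfield.subtype (F a)) = 0 := fun n => by
    rw [hx]; exact (f n).2.2.2.2
  choose B hB using fun i => heights E hy.1 hG D hDE hDk hDy hd V hV hg0 i
  have hB' : ∀ n i j, hgt (kap k0 y i) (⟨x n j, subset_LL y _ i (hxE n j)⟩ :
        LL k0 y (E : Set K) i) ≤ B i := fun n i j =>
    hB i (fun j => ⟨x n j, hxE n j⟩) (fun i => Subtype.ext (hxl i n)) (hxV n) (hxC n) j
  have hz : ∀ j, Om.mk (fun n => x n j) ∈ OE k0 ((E.toSubfield : Subfield K) : Set K) := fun j =>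
    lim_mem E hy (fun n => ⟨x n j, hxE n j⟩) B fun n i => hB' n i j
  have hev : ∀ a, eval (fun j => Om.mk fun n => x n j)
      (map ((cst K).comp E.toSubfield.subtype) (F a)) =
      Om.mk fun n => eval (x n) (map E.toSubfield.subtype (F a)) := fun a => eval_mk (F a) x
  have hacl := limit E.toSubfield (fun r => k0_mem E r) hG D hDE hDk hd V hV
    (fun j => Om.mk fun n => x n j) hz (l0 := l0) hg0 (fun i => by
      have h1 : (fun n => x n (l0 i)) = fun _ => 1 := funext (hxl i)
      rw [h1]; rfl) (fun f hf => by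
      have h1 := Pool.Agent.TH145.MG.eval_mk x (map (algebraMap k0 K) f)
      have h2 : (fun n => eval (x n) (map (algebraMap k0 K) f)) = fun _ => 0 := by
        funext n
        rw [eval_map]
        exact hxV n f hf
      rw [h2] at h1
      have h3 : eval₂ (cst K) (fun j => Om.mk fun n => x n j) (map (algebraMap k0 K) f) = 0 := h1
      rwa [eval₂_map] at h3) (fun a => by
      rw [hev]
      have h1 : (fun n => eval (x n) (map E.toSubfield.subtype (F a))) = fun _ => 0 :=
        funext fun n => hxC n a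
      rw [h1]; rfl)
  choose a ha using fun j => eventually_const (hacl j)
  exact not_all_const hxinj a ha

end Pool.Agent.V7H76.MP
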