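import Pool.Agent.V7H76.MP.Local
import Pool.Agent.TH145.GF.Vert

/-!
Substitutions of the derivations in the determinants, and their orders at divisorial places.
-/

set_option autoImplicit false

open MvPolynomial FF Pool.Agent.W603.LV Pool.Agent.W603.PV Pool.Agent.TH145.GH
open Pool.Agent.TH145.GC (Ev dF_sub det_row_zero det_scale_gen ge_det)
open Pool.Agent.TH145.GE (ev dF_ev)
open Pool.Agent.TH145.GF (vE det_dec der_comb exists_lift)
open Pool.Agent.W602.GT

namespace Pool.Agent.V7H76.MP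

section lin

variable {K : Type} [Field K] {n : ℕ} {A X ι : Type} [DecidableEq ι] [Fintype ι]
  {g : Fin (n + 1) → ι} {dg : A → ι → ℕ}
  {D : A → (Fin (n + 1) →₀ ℕ) → Derivation ℤ K K} {E E' : X → Derivation ℤ K K}

omit [Fintype ι] in
open scoped Classical in
/-- A linear substitution of the vertical derivations multiplies the determinant. -/
theorem det_lin [Fintype X] {M : Matrix X X K} (hE : ∀ ξ f, E' ξ f = ∑ η, M ξ η * E η f)
    (x : Fin (n + 1) → K) {b : Finset (Ix ι X n A ⊕ A)} (hb : ∀ i ∈ Vert ι X n A, i ∈ b)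
    (τ : b → Fin (n + 1)) (I : A → Fin (n + 1) →₀ ℕ) :
    (mx g dg D E' x I b τ).det = M.det * (mx g dg D E x I b τ).det := by
  have hm : ∀ ξ : X, (Sum.inl (Sum.inr (Sum.inl ξ)) : Ix ι X n A ⊕ A) ∈ b :=
    fun ξ => hb _ (Or.inr ⟨ξ, rfl⟩)
  obtain ⟨v, hv⟩ : ∃ v : X → b, ∀ ξ, v ξ = ⟨Sum.inl (Sum.inr (Sum.inl ξ)), hm ξ⟩ :=
    ⟨_, fun _ => rfl⟩
  have hvi : Function.Injective v := by
    intro ξ η h
    rw [hv, hv] at h
    have h1 := congrArg Subtype.val h
    simpa using h1
  obtain ⟨p, hp⟩ : ∃ p : b → Prop, ∀ i, p i ↔ ∃ ξ, i = v ξ := ⟨_, fun _ => Iff.rfl⟩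
  obtain ⟨B, hB1, hB2⟩ : ∃ B : Matrix b b K,
      (∀ ξ j, B (v ξ) j = ∑ η, if j = v η then M ξ η else 0) ∧
      ∀ i j, ¬ p i → B i j = if i = j then 1 else 0 := by
    refine ⟨Matrix.of fun i j => if h : ∃ ξ, i = v ξ then
      ∑ η, (if j = v η then M h.choose η else 0) else if i = j then 1 else 0, fun ξ j => ?_,
      fun i j hi => ?_⟩
    · have h : ∃ η, v ξ = v η := ⟨ξ, rfl⟩
      rw [Matrix.of_apply, dif_pos h]
      have h1 : h.choose = ξ := (hvi h.choose_spec).symm
      rw [h1]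
    · rw [Matrix.of_apply, dif_neg ((hp i).not.1 hi)]
  have h1 : mx g dg D E' x I b τ = B * mx g dg D E x I b τ := by
    ext i j
    rw [Matrix.mul_apply]
    by_cases hi : p i
    · obtain ⟨ξ, rfl⟩ := (hp i).1 hi
      simp only [hB1, Finset.sum_mul]
      rw [Finset.sum_comm]
      have h2 : mx g dg D E' x I b τ (v ξ) j = E' ξ (x (τ j)) := by
        rw [hv]; rfl
      rw [h2, hE]
      refine Finset.sum_congr rfl fun η _ => ?_
      rw [Finset.sum_eq_single (v η)]
      · rw [if_pos rfl]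
        congr 1
        rw [hv]; rfl
      · intro k _ hk
        rw [if_neg hk, zero_mul]
      · intro h; exact absurd (Finset.mem_univ _) h
    · rw [Finset.sum_eq_single i]
      · rw [hB2 i i hi, if_pos rfl, one_mul]
        have hi' : ∀ ξ : X, i.1 ≠ Sum.inl (Sum.inr (Sum.inl ξ)) := fun ξ h => hi ((hp i).2 ⟨ξ, by
          rw [hv]; exact Subtype.ext h⟩)
        obtain ⟨i, hib⟩ := i
        rcases i with (_ | ξ | t) | a
        · rfl
        · exact absurd rfl (hi' ξ)
        · rfl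
        · rfl
      · intro k _ hk
        rw [hB2 i k hi, if_neg (Ne.symm hk), zero_mul]
      · intro h; exact absurd (Finset.mem_univ _) h
  rw [h1, Matrix.det_mul]
  congr 1
  rw [Matrix.twoBlockTriangular_det B p (fun i hi j hj => by
    rw [hB2 i j hi, if_neg]
    rintro rfl
    exact hi hj)]
  have h2 : (B.toSquareBlockProp fun i => ¬ p i) = 1 := by
    ext i j
    rw [Matrix.toSquareBlockProp, Matrix.toBlock_apply, hB2 _ _ i.2, Matrix.one_apply]
    by_cases h : i = j
    · rw [if_pos h, if_pos (by rw [h])]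
    · rw [if_neg h, if_neg fun h' => h (Subtype.ext h')]
  rw [h2, Matrix.det_one, mul_one]
  obtain ⟨e, he⟩ : ∃ e : X ≃ {i // p i}, ∀ ξ, (e ξ : b) = v ξ :=
    ⟨Equiv.ofBijective (fun ξ => ⟨v ξ, (hp _).2 ⟨ξ, rfl⟩⟩) ⟨fun ξ η h =>
      hvi (congrArg Subtype.val h), fun ⟨i, hi⟩ => by
        obtain ⟨ξ, rfl⟩ := (hp i).1 hi
        exact ⟨ξ, rfl⟩⟩, fun _ => rfl⟩
  rw [← Matrix.det_submatrix_equiv_self e]
  congr 1
  ext ξ η
  rw [Matrix.submatrix_apply, Matrix.toSquareBlockProp, Matrix.toBlock_apply, he, he, hB1,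
    Finset.sum_eq_single η]
  · rw [if_pos rfl]
  · intro k _ hk
    rw [if_neg fun h => hk (hvi h).symm]
  · intro h; exact absurd (Finset.mem_univ _) h

omit [Fintype ι] in
open scoped Classical in
/-- The determinant does not change if multiples of the vertical derivations are added. -/
theorem det_add_vert {D' : A → (Fin (n + 1) →₀ ℕ) → Derivation ℤ K K} [Fintype X]
    {κ : A → (Fin (n + 1) →₀ ℕ) → X → K}
    (hD' : ∀ a I f, D' a I f = D a I f + ∑ ξ, κ a I ξ * E ξ f)
    {x : Fin (n + 1) → K} {b : Finset (Ix ι X n A ⊕ A)} (hb : ∀ i ∈ Vert ι X n A, i ∈ b)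
    (τ : b → Fin (n + 1)) (I : A → Fin (n + 1) →₀ ℕ) :
    (mx g dg D' E x I b τ).det = (mx g dg D E x I b τ).det := by
  have key : ∀ (S : Finset X) (D' : A → (Fin (n + 1) →₀ ℕ) → Derivation ℤ K K),
      (∀ a I f, D' a I f = D a I f + ∑ ξ ∈ S, κ a I ξ * E ξ f) →
      (mx g dg D' E x I b τ).det = (mx g dg D E x I b τ).det := by
    intro S
    induction S using Finset.induction_on with
    | empty =>
      intro D' h
      have h1 : D' = D := by
        funext a I
        ext f
        rw [h, Finset.sum_empty, add_zero]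
      rw [h1]
    | insert ξ S hξ ih =>
      intro D' h
      obtain ⟨D1, hD1⟩ : ∃ D1 : A → (Fin (n + 1) →₀ ℕ) → Derivation ℤ K K, ∀ a I,
        D1 a I = D' a I - κ a I ξ • E ξ := ⟨_, fun _ _ => rfl⟩
      have hD1f : ∀ a I f, D1 a I f = D' a I f - κ a I ξ * E ξ f := fun a I f => by
        rw [hD1, Derivation.sub_apply, Derivation.smul_apply, smul_eq_mul]
      have h1 := ih D1 fun a I f => by
        rw [hD1f, h, Finset.sum_insert hξ]
        ring
      rw [← h1]
      have hmem : Sum.inl (Sum.inr (Sum.inl ξ)) ∈ b := hb _ (Or.inr ⟨ξ, rfl⟩)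
      obtain ⟨s, hs⟩ : ∃ s : Ix ι X n A ⊕ A → K, s = fun i => match i with
        | Sum.inl (Sum.inl _) => 0
        | Sum.inl (Sum.inr (Sum.inl _)) => 0
        | Sum.inl (Sum.inr (Sum.inr t)) => if Ok g dg t then
            x t.2.2.2 * κ t.1 (t.2.1 + Finsupp.single t.2.2.1 1) ξ -
              x t.2.2.1 * κ t.1 (t.2.1 + Finsupp.single t.2.2.2 1) ξ else 0
        | Sum.inr a => κ a (I a) ξ := ⟨_, rfl⟩
      have hrow : ∀ i l, vv g dg D' E x I i l = vv g dg D1 E x I i l + s i * E ξ (x l) := by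
        rintro ((_ | η | t) | a) l
        · rw [hs]
          simp [vv, wv]
        · rw [hs]
          simp [vv, wv]
        · simp only [vv, wv, tv]
          rw [hs]
          simp only
          split_ifs
          · simp only [Ev, Pi.sub_apply, Pi.smul_apply, smul_eq_mul]
            rw [hD1f, hD1f]
            ring
          · simp
        · simp only [vv, Ev]
          rw [hD1f, hs]
          ring
      refine Matrix.det_eq_of_forall_row_eq_smul_add_const (fun i : b => s i)
        ⟨_, hmem⟩ ?_ fun i j => ?_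
      · simp only [hs]
      · simp only [mx, Matrix.of_apply]
        rw [hrow]
        rfl
  exact key Finset.univ D' hD'

end lin

section ord

variable {K L : Type} [Field K] [Field L] [Algebra K L] [CharZero K] {n w : ℕ} {A ι : Type}
  [DecidableEq ι] [Fintype ι] {g : Fin (n + 1) → ι} {dg : A → ι → ℕ}
  {D : A → (Fin (n + 1) →₀ ℕ) → Derivation ℤ L L}

omit [Fintype ι] in
open scoped Classical in
/-- The order of the determinant at a scaled point, at a divisorial place. -/
theorem ord_det_local [Fintype A] (hw : 0 < w) (htr : Algebra.trdeg K L = w) {P : Place K L}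
    (hP : Divisorial w P) (hS : ∀ a I, Sem K (D a I)) {t : Fin w → L}
    (ht : IsTranscendenceBasis K t)
    {E : Fin w → Derivation K L L} (hEt : ∀ i j, E i (t j) = if i = j then 1 else 0)
    {Dd : Fin w → Derivation K L L} (hDd : ∀ i, DerReg P (Dd i))
    (hM : (Matrix.of fun i j => Dd i (t j)).det ≠ 0)
    {x : Fin (n + 1) → L} (hx : ∀ l, Ge P 0 (x l))
    {b : Finset (Ix ι (Fin w) n A ⊕ A)} (hb : ∀ i ∈ Vert ι (Fin w) n A, i ∈ b)
    (τ : b → Fin (n + 1)) (I : A → Fin (n + 1) →₀ ℕ)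
    (hdet : (mx g dg D (vE E) x I b τ).det ≠ 0) :
    -P.ord (Matrix.of fun i j => Dd i (t j)).det ≤
      P.ord (mx g dg D (vE E) x I b τ).det := by
  obtain ⟨M, hMd⟩ : ∃ M : Matrix (Fin w) (Fin w) L, M = Matrix.of fun i j => Dd i (t j) := ⟨_, rfl⟩
  rw [← hMd] at hM ⊢
  have hDdE : ∀ i f, Dd i f = ∑ j, M i j * E j f := fun i f => by
    rw [der_comb ht hEt (Dd i) f, hMd]
    rfl
  choose ξ hξ using fun a I => exists_lift hw htr hP (hS a I)
  obtain ⟨D', hD'⟩ : ∃ D' : A → (Fin (n + 1) →₀ ℕ) → Derivation ℤ L L, ∀ a I f,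
    D' a I f = D a I f - ξ a I f :=
    ⟨fun a I => D a I - (ξ a I).restrictScalars ℤ, fun a I f => by simp⟩
  have hreg' : ∀ a I f, Ge P 0 f → Ge P 0 (D' a I f) := by
    intro a I f hf
    by_cases h0 : f = 0
    · rw [h0, map_zero]
      exact Ge.zero
    · rw [hD']
      exact (hξ a I f h0).mono (hf.resolve_left h0)
  have hregE : ∀ i f, Ge P 0 f → Ge P 0 (Dd i f) := fun i f hf => hDd i f hf
  have hD'E : ∀ a I f, D' a I f = D a I f + ∑ j, (-(ξ a I (t j))) * vE E j f := fun a I f => by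
    rw [hD', der_comb ht hEt (ξ a I) f, sub_eq_add_neg, ← Finset.sum_neg_distrib]
    congr 1
    exact Finset.sum_congr rfl fun j _ => (neg_mul _ _).symm
  have h1 := det_add_vert (g := g) (dg := dg) (D := D) (D' := D') (E := vE E)
    (κ := fun a I j => -(ξ a I (t j))) hD'E (x := x) hb τ I
  have h2 : (mx g dg D' (vE Dd) x I b τ).det = M.det * (mx g dg D' (vE E) x I b τ).det := by
    have := det_lin (g := g) (dg := dg) (D := D') (E := vE E) (E' := vE Dd) (M := M)
      (fun i f => hDdE i f) x hb τ I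
    exact (det_dec _ _ _).trans (this.trans (congrArg₂ (· * ·) (det_dec _ _ _) (det_dec _ _ _)))
  rw [h1] at h2
  have hE' : ∀ a J l, Ge P 0 (Ev D' x a J l) := fun a J l => hreg' a J _ (hx l)
  have h3 : ∀ (i j : b), Ge P (-0) (mx g dg D' (vE Dd) x I b τ i j) := by
    rintro ⟨i, hi⟩ j
    rw [neg_zero, mx, Matrix.of_apply]
    rcases i with (i | ξ | t) | a
    · simp only [vv, wv, bl]
      split_ifs
      · exact hx _
      · exact Ge.zero
    · exact hregE ξ _ (hx _)
    · simp only [vv, wv, tv]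
      split_ifs
      · simp only [Pi.sub_apply, Pi.smul_apply, smul_eq_mul]
        have h4 := (hx t.2.2.2).mul (hE' t.1 (t.2.1 + Finsupp.single t.2.2.1 1) (τ j))
        have h5 := (hx t.2.2.1).mul (hE' t.1 (t.2.1 + Finsupp.single t.2.2.2 1) (τ j))
        rw [add_zero] at h4 h5
        exact h4.sub h5
      · exact Ge.zero
    · exact hE' a (I a) (τ j)
  have h4 := ge_det P (mx g dg D' (vE Dd) x I b τ) (c := 0) h3
  rw [mul_zero, neg_zero, h2] at h4
  have h5 := h4.resolve_left (mul_ne_zero hM hdet)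
  rw [P.ord_mul hM hdet] at h5
  linarith

end ord

end Pool.Agent.V7H76.MP
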