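import Pool.Agent.V7H76.MP.Rows
import Pool.Agent.TH145.GC.Local

/-!
Determinants of the rows: change of the exponents and scaling of the blocks.
-/

set_option autoImplicit false

open MvPolynomial Pool.Agent.TH145.GH
open Pool.Agent.TH145.GC (Ev dF_sub det_row_zero det_scale_gen)
open Pool.Agent.TH145.GE (ev dF_ev)

namespace Pool.Agent.V7H76.MP

variable {K : Type} [Field K] {n : ℕ} {A X ι : Type} [DecidableEq ι] [Fintype ι]
  {g : Fin (n + 1) → ι} {dg : A → ι → ℕ}
  {D : A → (Fin (n + 1) →₀ ℕ) → Derivation ℤ K K} {E : X → Derivation ℤ K K}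

/-- The matrix of the rows. -/
noncomputable def mx (g : Fin (n + 1) → ι) (dg : A → ι → ℕ)
    (D : A → (Fin (n + 1) →₀ ℕ) → Derivation ℤ K K) (E : X → Derivation ℤ K K)
    (x : Fin (n + 1) → K) (I : A → Fin (n + 1) →₀ ℕ) (b : Finset (Ix ι X n A ⊕ A))
    (τ : b → Fin (n + 1)) : Matrix b b K := Matrix.of fun i j => vv g dg D E x I i (τ j)

open scoped Classical in
theorem det_change_aux {x : Fin (n + 1) → K} {e : ι → Fin (n + 1)} (hge : ∀ i, g (e i) = i)
    (he : ∀ i, x (e i) ≠ 0)
    {b : Finset (Ix ι X n A ⊕ A)} (τ : b → Fin (n + 1))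
    (hspan : Submodule.span K (Set.range (wv g dg D E x)) ≤
        Submodule.span K (wv g dg D E x '' {o | Sum.inl o ∈ b}))
    (I : A → Fin (n + 1) →₀ ℕ) (hI : ∀ a, mdeg g (I a) = dg a) (S : Finset A)
    (hb : ∀ a ∈ S, Sum.inr a ∈ b) :
    (mx g dg D E x (fun a => if a ∈ S then I a else base dg e a) b τ).det =
      (∏ a ∈ S, mon x (I a) / mon x (base dg e a)) * (mx g dg D E x (base dg e) b τ).det := by
  induction S using Finset.induction_on with
  | empty => simp
  | insert a S ha ih =>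
    rw [Finset.prod_insert ha, mul_assoc, ← ih fun a ha' => hb a (Finset.mem_insert_of_mem ha')]
    obtain ⟨J, hJ⟩ : ∃ J : A → Fin (n + 1) →₀ ℕ, J = fun a => if a ∈ S then I a else
      base dg e a := ⟨_, rfl⟩
    obtain ⟨J', hJ'⟩ : ∃ J' : A → Fin (n + 1) →₀ ℕ, J' = fun c => if c ∈ insert a S then I c else
      base dg e c := ⟨_, rfl⟩
    rw [← hJ, ← hJ']
    have h1 : ∀ c, c ≠ a → J' c = J c := by
      intro c hc
      rw [hJ, hJ']
      simp only [Finset.mem_insert, hc, false_or]
    have hJa : J a = base dg e a := by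
      rw [hJ]
      simp only [if_neg ha]
    have hJ'a : J' a = I a := by
      rw [hJ']
      simp only [Finset.mem_insert_self, if_true]
    have h2 : ∀ i : Ix ι X n A ⊕ A, i ≠ Sum.inr a → vv g dg D E x J' i = vv g dg D E x J i := by
      rintro (o | c) hi
      · rfl
      · simp only [vv]
        rw [h1 c fun h => hi (by rw [h])]
    have hab : Sum.inr a ∈ b := hb a (Finset.mem_insert_self _ _)
    obtain ⟨i0, hi0⟩ : ∃ i0 : b, i0 = ⟨Sum.inr a, hab⟩ := ⟨_, rfl⟩
    obtain ⟨μ, hμ⟩ : ∃ μ, μ = mon x (I a) / mon x (base dg e a) := ⟨_, rfl⟩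
    obtain ⟨w, hw⟩ : ∃ w, w = Ev D x a (I a) - μ • Ev D x a (base dg e a) := ⟨_, rfl⟩
    have hwW : w ∈ Submodule.span K (wv g dg D E x '' {o | Sum.inl o ∈ b}) := by
      apply hspan
      rw [hw, hμ]
      exact Ev_mod dg D E x hge he a _ (I a) (hI a) rfl
    have h3 : mx g dg D E x J' b τ = (mx g dg D E x J b τ).updateRow i0
        (μ • (fun j => vv g dg D E x J i0 (τ j)) + fun j => w (τ j)) := by
      ext i j
      rw [Matrix.updateRow_apply]
      split_ifs with hi
      · rw [hi, hi0]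
        simp only [mx, Matrix.of_apply, vv, hJa, hJ'a, hw, Pi.add_apply, Pi.smul_apply,
          Pi.sub_apply]
        rw [add_sub_cancel]
      · simp only [mx, Matrix.of_apply]
        rw [h2 i fun h => hi (Subtype.ext (by rw [h, hi0]))]
    rw [h3, Matrix.det_updateRow_add, Matrix.det_updateRow_smul]
    have h4 : (mx g dg D E x J b τ).updateRow i0 (fun j => vv g dg D E x J i0 (τ j)) =
        mx g dg D E x J b τ := Matrix.updateRow_eq_self _ _
    have h5 : ((mx g dg D E x J b τ).updateRow i0 (fun j => w (τ j))).det = 0 := by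
      obtain ⟨r, hr⟩ : ∃ r : b → b → K, r = ((mx g dg D E x J b τ).updateRow i0
          (fun j => w (τ j))) := ⟨_, rfl⟩
      have h6 : r i0 = fun j => w (τ j) := by
        rw [hr]
        exact Matrix.updateRow_self
      rw [← hr]
      refine det_row_zero r i0 ?_
      rw [h6]
      obtain ⟨π, hπ⟩ : ∃ π : (Fin (n + 1) → K) →ₗ[K] (b → K), ∀ z j, π z j = z (τ j) :=
        ⟨{ toFun := fun z j => z (τ j)
           map_add' := fun _ _ => rfl
           map_smul' := fun _ _ => rfl }, fun _ _ => rfl⟩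
      have h7 : (fun j => w (τ j)) = π w := by
        funext j
        rw [hπ]
      rw [h7]
      have h8 : π w ∈ (Submodule.span K (wv g dg D E x '' {o | Sum.inl o ∈ b})).map π :=
        ⟨w, hwW, rfl⟩
      rw [Submodule.map_span] at h8
      refine Submodule.span_mono ?_ h8
      rintro _ ⟨_, ⟨o, ho, rfl⟩, rfl⟩
      have hne : (⟨Sum.inl o, ho⟩ : b) ≠ i0 := by
        rw [hi0]
        intro h
        exact absurd (congrArg Subtype.val h) (by simp)
      refine ⟨⟨Sum.inl o, ho⟩, hne, ?_⟩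
      have h9 : r ⟨Sum.inl o, ho⟩ = mx g dg D E x J b τ ⟨Sum.inl o, ho⟩ := by
        rw [hr]
        exact Matrix.updateRow_ne hne
      rw [h9]
      funext j
      rw [hπ]
      rfl
    rw [h4, h5, add_zero, hμ]

open scoped Classical in
theorem det_change [Fintype A] {x : Fin (n + 1) → K} {e : ι → Fin (n + 1)}
    (hge : ∀ i, g (e i) = i) (he : ∀ i, x (e i) ≠ 0)
    {b : Finset (Ix ι X n A ⊕ A)} (τ : b → Fin (n + 1)) (hb : ∀ a, Sum.inr a ∈ b)
    (hspan : Submodule.span K (Set.range (wv g dg D E x)) ≤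
        Submodule.span K (wv g dg D E x '' {o | Sum.inl o ∈ b}))
    (I : A → Fin (n + 1) →₀ ℕ) (hI : ∀ a, mdeg g (I a) = dg a) :
    (mx g dg D E x I b τ).det =
      (∏ a, mon x (I a) / mon x (base dg e a)) * (mx g dg D E x (base dg e) b τ).det := by
  have h1 := det_change_aux hge he τ hspan I hI Finset.univ fun a _ => hb a
  simpa using h1

/-- The degree of the determinant with respect to a block. -/
def tot (X : Type) (g : Fin (n + 1) → ι) (b : Finset (Ix ι X n A ⊕ A)) (τ : b → Fin (n + 1))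
    (i : ι) : ℕ := ∑ r ∈ b, rt X g r i + (Finset.univ.filter fun j : b => g (τ j) = i).card

omit [Fintype ι] in
open scoped Classical in
/-- Scaling of one block. -/
theorem det_cfac (x : Fin (n + 1) → K) (i : ι) {μ : K} (hμ : μ ≠ 0)
    {b : Finset (Ix ι X n A ⊕ A)} (hb : Sum.inl (Sum.inl i) ∈ b) (τ : b → Fin (n + 1))
    (I : A → Fin (n + 1) →₀ ℕ) :
    (mx g dg D E (fun s => cfac g i μ s * x s) I b τ).det =
      μ ^ tot X g b τ i * (mx g dg D E x I b τ).det := by
  obtain ⟨s, hs0, hs⟩ := vv_scale g dg D E x i hμ I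
  obtain ⟨N, hN⟩ : ∃ N : b → b → K, N = fun (r j : b) => μ ^ rt X g r.1 i *
    vv g dg D E x I r.1 (τ j) + s r.1 * bl g i x (τ j) := ⟨_, rfl⟩
  have h1 : (mx g dg D E (fun s => cfac g i μ s * x s) I b τ) =
      Matrix.of fun r j => cfac g i μ (τ j) * (Matrix.of N) r j := by
    ext r j
    rw [mx, Matrix.of_apply, Matrix.of_apply, Matrix.of_apply, hs, hN]
  have h2 := det_scale_gen N (fun (r j : b) => vv g dg D E x I r.1 (τ j))
    (fun r => μ ^ rt X g r.1 i) (fun r => s r.1) ⟨Sum.inl (Sum.inl i), hb⟩ hs0 (fun r => by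
      rw [hN]
      rfl)
  have h3 : ∏ r : b, μ ^ rt X g r.1 i = μ ^ (∑ r ∈ b, rt X g r i) := by
    rw [Finset.prod_coe_sort b (fun r => μ ^ rt X g r i), Finset.prod_pow_eq_pow_sum]
  have h4 : ∏ j : b, cfac g i μ (τ j) =
      μ ^ (Finset.univ.filter fun j : b => g (τ j) = i).card := by
    unfold cfac
    rw [Finset.prod_ite, Finset.prod_const_one, mul_one, Finset.prod_const]
  rw [h1, Matrix.det_mul_row, h2, h3, h4, tot, pow_add]
  have h5 : (Matrix.of fun (r j : b) => vv g dg D E x I r (τ j)) = mx g dg D E x I b τ := rfl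
  rw [h5]
  ring

omit [Fintype ι] in
open scoped Classical in
theorem det_scale_aux (x : Fin (n + 1) → K) {lam : ι → K} (hlam : ∀ i, lam i ≠ 0)
    {b : Finset (Ix ι X n A ⊕ A)} (hb : ∀ i, Sum.inl (Sum.inl i) ∈ b) (τ : b → Fin (n + 1))
    (I : A → Fin (n + 1) →₀ ℕ) (S : Finset ι) :
    (mx g dg D E (fun s => if g s ∈ S then lam (g s) * x s else x s) I b τ).det =
      (∏ i ∈ S, lam i ^ tot X g b τ i) * (mx g dg D E x I b τ).det := by
  induction S using Finset.induction_on with
  | empty => simp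
  | insert i S hi ih =>
    rw [Finset.prod_insert hi, mul_assoc, ← ih, ← det_cfac _ i (hlam i) (hb i)]
    congr 2
    funext s
    unfold cfac
    by_cases h : g s = i
    · rw [if_pos (by rw [h]; exact Finset.mem_insert_self _ _), if_pos h, if_neg (by rwa [h]), h]
    · rw [if_neg h, one_mul]
      by_cases h2 : g s ∈ S
      · rw [if_pos (Finset.mem_insert_of_mem h2), if_pos h2]
      · rw [if_neg h2, if_neg]
        rw [Finset.mem_insert, not_or]
        exact ⟨h, h2⟩

open scoped Classical in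
/-- Scaling of all blocks. -/
theorem det_scale (x : Fin (n + 1) → K) {lam : ι → K} (hlam : ∀ i, lam i ≠ 0)
    {b : Finset (Ix ι X n A ⊕ A)} (hb : ∀ i, Sum.inl (Sum.inl i) ∈ b) (τ : b → Fin (n + 1))
    (I : A → Fin (n + 1) →₀ ℕ) :
    (mx g dg D E (fun s => lam (g s) * x s) I b τ).det =
      (∏ i, lam i ^ tot X g b τ i) * (mx g dg D E x I b τ).det := by
  have h1 := det_scale_aux (g := g) (dg := dg) (D := D) (E := E) x hlam hb τ I Finset.univ
  simpa using h1

open scoped Classical in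
/-- The determinant, divided by monomials, does not depend on the choice of the variables in the
monomials, and is homogeneous. -/
theorem theta_scale [Fintype A] {x x' : Fin (n + 1) → K} {e e1 : ι → Fin (n + 1)}
    (hge : ∀ i, g (e i) = i) (he : ∀ i, x (e i) ≠ 0) (hge1 : ∀ i, g (e1 i) = i)
    {lam : ι → K} (hlam : ∀ i, lam i ≠ 0) (hxx : ∀ s, x s = lam (g s) * x' s)
    (he1 : ∀ i, x' (e1 i) = 1)
    {b : Finset (Ix ι X n A ⊕ A)} (τ : b → Fin (n + 1)) (hb : ∀ a, Sum.inr a ∈ b)
    (hbi : ∀ i, Sum.inl (Sum.inl i) ∈ b)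
    (hspan : Submodule.span K (Set.range (wv g dg D E x)) ≤
        Submodule.span K (wv g dg D E x '' {o | Sum.inl o ∈ b})) :
    (∏ i, lam i ^ tot X g b τ i) * (mx g dg D E x' (base dg e1) b τ).det =
      (∏ i, lam i ^ (∑ a, dg a i)) *
        ((mx g dg D E x (base dg e) b τ).det / ∏ a, mon x (base dg e a)) := by
  have h1 := det_change hge he τ hb hspan (base dg e1) fun a => mdeg_base g dg hge1 a
  have h2 := det_scale (g := g) (dg := dg) (D := D) (E := E) x' hlam hbi τ (base dg e1)
  have h3 : (fun s => lam (g s) * x' s) = x := by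
    funext s
    exact (hxx s).symm
  rw [h3] at h2
  have h4 : ∀ a, mon x (base dg e1 a) = ∏ i, lam i ^ dg a i := by
    intro a
    rw [mon_base]
    refine Finset.prod_congr rfl fun i _ => ?_
    rw [hxx, he1, hge1, mul_one]
  have h5 : ∏ a, mon x (base dg e1 a) = ∏ i, lam i ^ (∑ a, dg a i) := by
    simp only [h4]
    rw [Finset.prod_comm]
    exact Finset.prod_congr rfl fun i _ => Finset.prod_pow_eq_pow_sum _ _ _
  rw [← h2, h1, Finset.prod_div_distrib, h5]
  ring

end Pool.Agent.V7H76.MP
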