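import Pool.Agent.V7H76.MP.Vec

/-!
Choice of the tangent vector fields.
-/

set_option autoImplicit false

open MvPolynomial Pool.Agent.TH145.GH
open Pool.Agent.TH145.GC (Ev dF_sub)
open Pool.Agent.TH145.GE (ev dF_ev)

namespace Pool.Agent.V7H76.MP

variable {K : Type} [Field K] {n : ℕ} {A X ι : Type} [DecidableEq ι] [Fintype ι]

/-- The span of all the vector fields. -/
noncomputable def Full (g : Fin (n + 1) → ι) (dg : A → ι → ℕ)
    (D : A → (Fin (n + 1) →₀ ℕ) → Derivation ℤ K K)
    (E : X → Derivation ℤ K K) (x : Fin (n + 1) → K) : Submodule K (Fin (n + 1) → K) :=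
  Submodule.span K (Set.range (wv g dg D E x) ∪ {v | ∃ a I, mdeg g I = dg a ∧ v = Ev D x a I})

section

variable {g : Fin (n + 1) → ι} {dg : A → ι → ℕ} {D : A → (Fin (n + 1) →₀ ℕ) → Derivation ℤ K K}
  {E : X → Derivation ℤ K K}

omit [Fintype ι] in
theorem wv_mem_full (x : Fin (n + 1) → K) (o : Ix ι X n A) : wv g dg D E x o ∈ Full g dg D E x :=
  Submodule.subset_span (Or.inl ⟨o, rfl⟩)

omit [Fintype ι] in
theorem Ev_mem_full (x : Fin (n + 1) → K) {a : A} {I : Fin (n + 1) →₀ ℕ} (hI : mdeg g I = dg a) :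
    Ev D x a I ∈ Full g dg D E x := Submodule.subset_span (Or.inr ⟨a, I, hI, rfl⟩)

omit [Fintype ι] in
theorem vv_mem_full (x : Fin (n + 1) → K) {I : A → Fin (n + 1) →₀ ℕ}
    (hI : ∀ a, mdeg g (I a) = dg a) (i : Ix ι X n A ⊕ A) :
    vv g dg D E x I i ∈ Full g dg D E x := by
  rcases i with o | a
  · exact wv_mem_full x o
  · exact Ev_mem_full x (hI a)

/-- The rows of the position vectors and of the vertical vector fields. -/
def Vert (ι X : Type) (n : ℕ) (A : Type) : Set (Ix ι X n A ⊕ A) :=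
  {r | (∃ i, r = Sum.inl (Sum.inl i)) ∨ ∃ ξ, r = Sum.inl (Sum.inr (Sum.inl ξ))}

/-- The choice of the rows. -/
theorem exists_rows {F : A → MvPolynomial (Fin (n + 1)) K} {ε : A → (Fin (n + 1) →₀ ℕ) → ℕ}
    [Fintype A] (hF : ∀ a, MH g (F a) (dg a)) (hD : DualE g F dg D ε)
    (hE : ∀ ξ a u, E ξ ((F a).coeff u) = 0) {x : Fin (n + 1) → K} {e : ι → Fin (n + 1)}
    (hge : ∀ i, g (e i) = i) (he : ∀ i, x (e i) ≠ 0) (hC : ∀ a, eval x (F a) = 0)
    (hs0 : LinearIndepOn K (vv g dg D E x (base dg e)) (Vert ι X n A)) :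
    ∃ b : Finset (Ix ι X n A ⊕ A), (∀ i ∈ Vert ι X n A, i ∈ b) ∧ (∀ a, Sum.inr a ∈ b) ∧
      LinearIndependent K (fun i : b => vv g dg D E x (base dg e) i) ∧
      (Submodule.span K (Set.range (wv g dg D E x)) ≤
        Submodule.span K (wv g dg D E x '' {o | Sum.inl o ∈ b})) ∧
      Module.finrank K (Full g dg D E x) = b.card := by
  classical
  obtain ⟨v, hv⟩ : ∃ v, v = vv g dg D E x (base dg e) := ⟨_, rfl⟩
  have hdeg : ∀ a, mdeg g (base dg e a) = dg a := fun a => mdeg_base g dg hge a
  obtain ⟨B, hB⟩ : ∃ B : A → K, ∀ a, B a = mon x (base dg e a) := ⟨_, fun _ => rfl⟩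
  have hB0 : ∀ a, B a ≠ 0 := fun a => by
    rw [hB, mon_base]
    exact Finset.prod_ne_zero_iff.2 fun i _ => pow_ne_zero _ (he i)
  rw [← hv] at hs0
  obtain ⟨b0, hb0, hs0b, hspan0, hb0i⟩ := exists_linearIndepOn_extension hs0
    (t := Set.range Sum.inl) (by
      rintro _ (⟨i, rfl⟩ | ⟨ξ, rfl⟩)
      · exact ⟨_, rfl⟩
      · exact ⟨_, rfl⟩)
  -- the functionals
  obtain ⟨Φ, hΦ⟩ : ∃ Φ : (Fin (n + 1) → K) →ₗ[K] (A → K), ∀ z c, Φ z c = dF (F c) x z := by
    exact ⟨{ toFun := fun z c => dF (F c) x z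
             map_add' := fun y z => funext fun c => dF_add _ _ _ _
             map_smul' := fun r z => funext fun c => dF_smul _ _ _ _ }, fun _ _ => rfl⟩
  have hΦw : ∀ z ∈ Submodule.span K (Set.range (wv g dg D E x)), Φ z = 0 := by
    intro z hz
    have h1 : Submodule.span K (Set.range (wv g dg D E x)) ≤ LinearMap.ker Φ := by
      rw [Submodule.span_le]
      rintro _ ⟨o, rfl⟩
      rw [SetLike.mem_coe, LinearMap.mem_ker]
      funext c
      rw [hΦ, Pi.zero_apply]
      rcases o with i | ξ | t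
      · simp only [wv]
        rw [dF_bl (hF c), hC c, mul_zero]
      · simp only [wv]
        rw [dF_ev (hE ξ c), hC c, map_zero]
      · simp only [wv]
        exact dF_tv hD x c t (hC c)
    exact h1 hz
  have hΦE : ∀ a c, Φ (v (Sum.inr a)) c = if a = c then -(B a) else 0 := by
    intro a c
    rw [hΦ, hv]
    simp only [vv]
    rw [dF_Ev hD x (hdeg a) (hC c), ← hB]
    split_ifs
    · rfl
    · rw [neg_zero]
  have hΦsum : ∀ r : A → K, Φ (∑ a, r a • v (Sum.inr a)) = fun c => -(r c * B c) := by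
    intro r
    rw [map_sum]
    funext c
    rw [Finset.sum_apply, Finset.sum_eq_single c]
    · rw [map_smul, Pi.smul_apply, hΦE c c, if_pos rfl, smul_eq_mul]
      ring
    · intro a _ hac
      rw [map_smul, Pi.smul_apply, hΦE a c, if_neg hac, smul_zero]
    · intro h; exact absurd (Finset.mem_univ c) h
  have hCi : LinearIndependent K (fun a => v (Sum.inr a)) := by
    rw [Fintype.linearIndependent_iff]
    intro r hr a
    have h2 := hΦsum r
    rw [hr, map_zero] at h2
    have h3 := congrFun h2 a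
    have h4 : r a * B a = 0 := by
      have h5 : (0 : K) = -(r a * B a) := h3
      rw [← neg_eq_zero]; exact h5.symm
    exact (mul_eq_zero.1 h4).resolve_right (hB0 a)
  have hCind : LinearIndepOn K v (Set.range Sum.inr) := by
    have h2 : LinearIndepOn K (v ∘ Sum.inr) (Set.univ : Set A) := by
      rw [linearIndepOn_univ_iff]
      exact hCi
    have h3 := LinearIndepOn.image_of_comp _ _ h2
    rwa [Set.image_univ] at h3
  have hdisj : Disjoint (Submodule.span K (v '' b0))
      (Submodule.span K (v '' (Set.range Sum.inr))) := by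
    rw [Submodule.disjoint_def]
    intro z hz1 hz2
    have h1 : Φ z = 0 := by
      apply hΦw
      refine (Submodule.span_le.2 ?_) hz1
      rintro _ ⟨i, hi, rfl⟩
      obtain ⟨o, rfl⟩ := hb0 hi
      rw [hv]
      exact Submodule.subset_span ⟨o, rfl⟩
    have h2 : v '' (Set.range Sum.inr) = Set.range fun a : A => v (Sum.inr a) := by
      rw [← Set.range_comp]
      rfl
    rw [h2, Submodule.mem_span_range_iff_exists_fun] at hz2
    obtain ⟨r, rfl⟩ := hz2
    rw [hΦsum] at h1
    refine Finset.sum_eq_zero fun a _ => ?_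
    have h3 := congrFun h1 a
    have h4 : r a * B a = 0 := by
      have h5 : -(r a * B a) = 0 := h3
      rwa [neg_eq_zero] at h5
    rw [(mul_eq_zero.1 h4).resolve_right (hB0 a), zero_smul]
  obtain ⟨b1, -, hb1, hspan1, hb1i⟩ := exists_linearIndepOn_extension (hb0i.union hCind hdisj)
    (Set.subset_univ _)
  have hb1i' : LinearIndependent K (fun i : b1 => v i) := hb1i
  have hfin : b1.Finite := by
    have := hb1i'.finite
    exact Set.toFinite b1
  obtain ⟨b, hb⟩ : ∃ b : Finset (Ix ι X n A ⊕ A), (b : Set _) = b1 :=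
    ⟨hfin.toFinset, hfin.coe_toFinset⟩
  have hbm : ∀ i, i ∈ b ↔ i ∈ b1 := fun i => by rw [← hb, Finset.mem_coe]
  have hbi : LinearIndependent K (fun i : b => v i) := by
    have h1 : LinearIndepOn K v (b : Set _) := by rw [hb]; exact hb1i
    exact h1
  refine ⟨b, ?_, fun a => ?_, ?_, ?_, ?_⟩
  · intro i hi
    rw [hbm]; exact hb1 (Or.inl (hs0b hi))
  · rw [hbm]; exact hb1 (Or.inr ⟨a, rfl⟩)
  · rw [← hv]; exact hbi
  · rw [Submodule.span_le]
    rintro _ ⟨o, rfl⟩
    have h1 := hspan0 ⟨Sum.inl o, ⟨o, rfl⟩, rfl⟩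
    have h2 : v (Sum.inl o) = wv g dg D E x o := by rw [hv]; rfl
    rw [h2] at h1
    refine Submodule.span_mono ?_ h1
    rintro _ ⟨i, hi, rfl⟩
    obtain ⟨o', rfl⟩ := hb0 hi
    refine ⟨o', ?_, by rw [hv]; rfl⟩
    rw [Set.mem_ofPred_eq, hbm]
    exact hb1 (Or.inl hi)
  · have h1 : Full g dg D E x = Submodule.span K (Set.range fun i : b => v i) := by
      apply le_antisymm
      · have h2 : ∀ i, v i ∈ Submodule.span K (Set.range fun i : b => v i) := by
          intro i
          have h3 := hspan1 ⟨i, Set.mem_univ _, rfl⟩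
          rw [← hb, Set.image_eq_range] at h3
          exact h3
        have h3 : ∀ o, wv g dg D E x o ∈ Submodule.span K (Set.range fun i : b => v i) := by
          intro o
          have := h2 (Sum.inl o)
          rwa [hv] at this ⊢
        rw [Full, Submodule.span_le]
        rintro _ (⟨o, rfl⟩ | ⟨a, I, hI, rfl⟩)
        · exact h3 o
        · have h4 := Ev_mod dg D E x hge he a _ I hI rfl
          have h5 : Submodule.span K (Set.range (wv g dg D E x)) ≤
              Submodule.span K (Set.range fun i : b => v i) := by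
            rw [Submodule.span_le]
            rintro _ ⟨o, rfl⟩
            exact h3 o
          have h6 : Ev D x a (base dg e a) ∈
              Submodule.span K (Set.range fun i : b => v i) := by
            have := h2 (Sum.inr a)
            rwa [hv] at this ⊢
          have h7 := add_mem (h5 h4) (Submodule.smul_mem _ (mon x I / mon x (base dg e a)) h6)
          rwa [sub_add_cancel] at h7
      · rw [Submodule.span_le]
        rintro _ ⟨i, rfl⟩
        rw [hv]
        exact vv_mem_full x hdeg i.1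
    rw [h1, finrank_span_eq_card hbi, Fintype.card_coe]

end

end Pool.Agent.V7H76.MP
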