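import Pool.Agent.TH145.GE.Rows

/-!
Vector fields that are dual to the coefficients of multihomogeneous forms.

The variables are divided into blocks: `g s` is the block of the variable `s`.
-/

set_option autoImplicit false

open MvPolynomial Pool.Agent.TH145.GH
open Pool.Agent.TH145.GC (Ev dF_sub)
open Pool.Agent.TH145.GE (ev dF_ev)

namespace Pool.Agent.V7H76.MP

section deg

variable {n : ℕ} {ι : Type} [DecidableEq ι] (g : Fin (n + 1) → ι)

/-- The multidegree of an exponent. -/
def mdeg (I : Fin (n + 1) →₀ ℕ) : ι → ℕ := fun i => ∑ s, if g s = i then I s else 0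

theorem mdeg_add (I J : Fin (n + 1) →₀ ℕ) : mdeg g (I + J) = mdeg g I + mdeg g J := by
  funext i
  rw [Pi.add_apply]
  unfold mdeg
  rw [← Finset.sum_add_distrib]
  refine Finset.sum_congr rfl fun s _ => ?_
  split_ifs
  · rfl
  · rfl

theorem mdeg_single (s : Fin (n + 1)) (m : ℕ) :
    mdeg g (Finsupp.single s m) = Pi.single (g s) m := by
  funext i
  unfold mdeg
  rw [Finset.sum_eq_single s]
  · rw [Finsupp.single_eq_same]
    by_cases h : g s = i
    · rw [if_pos h, ← h, Pi.single_eq_same]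
    · rw [if_neg h, Pi.single_eq_of_ne (Ne.symm h)]
  · intro j _ hj
    rw [Finsupp.single_eq_of_ne hj, ite_self]
  · intro h; exact absurd (Finset.mem_univ _) h

theorem le_mdeg (I : Fin (n + 1) →₀ ℕ) (s : Fin (n + 1)) : I s ≤ mdeg g I (g s) := by
  unfold mdeg
  have h := Finset.single_le_sum (f := fun s' => if g s' = g s then I s' else 0)
    (fun _ _ => Nat.zero_le _) (Finset.mem_univ s)
  simpa using h

theorem finite_mdeg (d : ι → ℕ) : {I : Fin (n + 1) →₀ ℕ | mdeg g I = d}.Finite := by
  refine (Set.finite_Iic (Finsupp.equivFunOnFinite.symm fun s => d (g s))).subset ?_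
  intro I hI s
  have h := le_mdeg g I s
  rw [show mdeg g I = d from hI] at h
  exact h

/-- The form is multihomogeneous. -/
def MH {R : Type} [CommSemiring R] (F : MvPolynomial (Fin (n + 1)) R) (d : ι → ℕ) : Prop :=
  ∀ u ∈ F.support, mdeg g u = d

theorem MH.weighted {R : Type} [CommSemiring R] {F : MvPolynomial (Fin (n + 1)) R} {d : ι → ℕ}
    (h : MH g F d) (i : ι) :
    IsWeightedHomogeneous (fun s => if g s = i then 1 else 0) F (d i) := by
  intro u hu
  have h1 := congrFun (h u (mem_support_iff.2 hu)) i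
  rw [← h1, Finsupp.weight_apply, Finsupp.sum_fintype _ _ (by simp)]
  unfold mdeg
  refine Finset.sum_congr rfl fun s _ => ?_
  split_ifs <;> simp

theorem MH.map {R S : Type} [CommSemiring R] [CommSemiring S] {F : MvPolynomial (Fin (n + 1)) R}
    {d : ι → ℕ} (h : MH g F d) (φ : R →+* S) : MH g (MvPolynomial.map φ F) d :=
  fun u hu => h u (support_map_subset _ _ hu)

variable [Fintype ι]

/-- The exponents of the monomials in one variable of each block. -/
noncomputable def base {A : Type} (dg : A → ι → ℕ) (e : ι → Fin (n + 1)) (a : A) :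
    Fin (n + 1) →₀ ℕ := ∑ i, Finsupp.single (e i) (dg a i)

omit [Fintype ι] in
theorem mdeg_sum {β : Type} (s : Finset β) (f : β → Fin (n + 1) →₀ ℕ) :
    mdeg g (∑ b ∈ s, f b) = ∑ b ∈ s, mdeg g (f b) := by
  classical
  induction s using Finset.induction_on with
  | empty =>
    funext i
    simp [mdeg]
  | insert b s hb ih => rw [Finset.sum_insert hb, Finset.sum_insert hb, mdeg_add, ih]

theorem mdeg_base {A : Type} (dg : A → ι → ℕ) {e : ι → Fin (n + 1)} (he : ∀ i, g (e i) = i)
    (a : A) : mdeg g (base dg e a) = dg a := by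
  unfold base
  rw [mdeg_sum]
  simp only [mdeg_single, he]
  exact Finset.univ_sum_single (dg a)

end deg

section mon

variable {K : Type} [Field K] {n : ℕ}

theorem mon_zero (x : Fin (n + 1) → K) : mon x 0 = 1 := by simp [mon]

theorem mon_sum (x : Fin (n + 1) → K) {β : Type} (s : Finset β) (f : β → Fin (n + 1) →₀ ℕ) :
    mon x (∑ b ∈ s, f b) = ∏ b ∈ s, mon x (f b) := by
  classical
  induction s using Finset.induction_on with
  | empty => simp [mon_zero]
  | insert b s hb ih => rw [Finset.sum_insert hb, Finset.prod_insert hb, mon_add, ih]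

theorem mon_base {ι A : Type} [DecidableEq ι] [Fintype ι] (x : Fin (n + 1) → K) (dg : A → ι → ℕ)
    (e : ι → Fin (n + 1)) (a : A) : mon x (base dg e a) = ∏ i, x (e i) ^ dg a i := by
  unfold base
  rw [mon_sum]
  exact Finset.prod_congr rfl fun i _ => mon_single _ _ _

end mon

variable {K : Type} [Field K] {n : ℕ} {A X ι : Type} [DecidableEq ι]

/-- The part of a vector in a block. -/
def bl (g : Fin (n + 1) → ι) (i : ι) (x : Fin (n + 1) → K) : Fin (n + 1) → K :=
  fun s => if g s = i then x s else 0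

/-- The indices of the tangent vector fields. -/
abbrev Ti (n : ℕ) (A : Type) := A × (Fin (n + 1) →₀ ℕ) × Fin (n + 1) × Fin (n + 1)

/-- The condition on the indices of a tangent vector field. -/
def Ok (g : Fin (n + 1) → ι) (dg : A → ι → ℕ) (t : Ti n A) : Prop :=
  g t.2.2.1 = g t.2.2.2 ∧ mdeg g t.2.1 + Pi.single (g t.2.2.1) 1 = dg t.1

open scoped Classical in
/-- The tangent vector fields. -/
noncomputable def tv (g : Fin (n + 1) → ι) (dg : A → ι → ℕ)
    (D : A → (Fin (n + 1) →₀ ℕ) → Derivation ℤ K K)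
    (x : Fin (n + 1) → K) (t : Ti n A) : Fin (n + 1) → K :=
  if Ok g dg t then
    x t.2.2.2 • Ev D x t.1 (t.2.1 + Finsupp.single t.2.2.1 1) -
      x t.2.2.1 • Ev D x t.1 (t.2.1 + Finsupp.single t.2.2.2 1) else 0

/-- The indices of the position vectors, the vertical vector fields and the tangent vector
fields. -/
abbrev Ix (ι X : Type) (n : ℕ) (A : Type) := ι ⊕ (X ⊕ Ti n A)

/-- The position vectors, the vertical vector fields and the tangent vector fields. -/
noncomputable def wv (g : Fin (n + 1) → ι) (dg : A → ι → ℕ)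
    (D : A → (Fin (n + 1) →₀ ℕ) → Derivation ℤ K K) (E : X → Derivation ℤ K K)
    (x : Fin (n + 1) → K) : Ix ι X n A → Fin (n + 1) → K
  | Sum.inl i => bl g i x
  | Sum.inr (Sum.inl ξ) => ev (E ξ) x
  | Sum.inr (Sum.inr t) => tv g dg D x t

open scoped Classical in
/-- The derivations are dual to the coefficients of the forms, up to multiples of the forms. -/
def DualE (g : Fin (n + 1) → ι) (F : A → MvPolynomial (Fin (n + 1)) K) (dg : A → ι → ℕ)
    (D : A → (Fin (n + 1) →₀ ℕ) → Derivation ℤ K K) (ε : A → (Fin (n + 1) →₀ ℕ) → ℕ) : Prop :=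
  ∀ (a b : A) (I : Fin (n + 1) →₀ ℕ), mdeg g I = dg a → ∀ x : Fin (n + 1) → K,
    ∑ u ∈ (F b).support, D a I ((F b).coeff u) * mon x u =
      if a = b then mon x I - ε a I * eval x (F b) else 0

section

variable {g : Fin (n + 1) → ι} {F : A → MvPolynomial (Fin (n + 1)) K} {dg : A → ι → ℕ}
  {D : A → (Fin (n + 1) →₀ ℕ) → Derivation ℤ K K} {ε : A → (Fin (n + 1) →₀ ℕ) → ℕ}

open scoped Classical in
theorem dF_Ev (hD : DualE g F dg D ε) (x : Fin (n + 1) → K) {a b : A} {I : Fin (n + 1) →₀ ℕ}
    (hI : mdeg g I = dg a) (hx : eval x (F b) = 0) :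
    dF (F b) x (Ev D x a I) = - if a = b then mon x I else 0 := by
  have h1 := chainM (D a I) x (F b)
  rw [hD a b I hI x, hx, map_zero, mul_zero, sub_zero] at h1
  unfold dF Ev
  linear_combination -h1

theorem dF_bl {G : MvPolynomial (Fin (n + 1)) K} {d : ι → ℕ} (hG : MH g G d) (i : ι)
    (x : Fin (n + 1) → K) : dF G x (bl g i x) = d i * eval x G := by
  have h5 := congrArg (eval x) (hG.weighted g i).sum_weight_X_mul_pderiv
  rw [map_sum, nsmul_eq_mul, map_mul, map_natCast] at h5
  rw [← h5]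
  unfold dF bl
  refine Finset.sum_congr rfl fun s _ => ?_
  by_cases h : g s = i
  · rw [if_pos h, if_pos h, one_smul, map_mul, eval_X]
    ring
  · rw [if_neg h, if_neg h, zero_smul, map_zero, mul_zero]

theorem dF_tv (hD : DualE g F dg D ε) (x : Fin (n + 1) → K) (b : A) (t : Ti n A)
    (hx : eval x (F b) = 0) : dF (F b) x (tv g dg D x t) = 0 := by
  classical
  by_cases ht : Ok g dg t
  · rw [tv, if_pos ht, dF_sub, dF_smul, dF_smul, dF_Ev hD x (by
      rw [mdeg_add, mdeg_single, ht.2]) hx, dF_Ev hD x (by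
      rw [mdeg_add, mdeg_single, ← ht.1, ht.2]) hx, mon_add, mon_add, mon_single, mon_single]
    split_ifs <;> ring
  · rw [tv, if_neg ht]
    simp [dF]

/-- The number of the factors of a monomial that are not in the chosen variables. -/
def off (g : Fin (n + 1) → ι) (e : ι → Fin (n + 1)) (J : Fin (n + 1) →₀ ℕ) : ℕ :=
  ∑ s, if s = e (g s) then 0 else J s

omit [DecidableEq ι] in
theorem off_add (e : ι → Fin (n + 1)) (I J : Fin (n + 1) →₀ ℕ) :
    off g e (I + J) = off g e I + off g e J := by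
  unfold off
  rw [← Finset.sum_add_distrib]
  refine Finset.sum_congr rfl fun s _ => ?_
  split_ifs
  · rfl
  · rfl

omit [DecidableEq ι] in
theorem off_single (e : ι → Fin (n + 1)) (s : Fin (n + 1)) :
    off g e (Finsupp.single s 1) = if s = e (g s) then 0 else 1 := by
  unfold off
  rw [Finset.sum_eq_single s]
  · rw [Finsupp.single_eq_same]
  · intro j _ hj
    rw [Finsupp.single_eq_of_ne hj, ite_self]
  · intro h; exact absurd (Finset.mem_univ _) h

theorem eq_base [Fintype ι] {e : ι → Fin (n + 1)} (he : ∀ i, g (e i) = i) {a : A}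
    {J : Fin (n + 1) →₀ ℕ} (hJ : mdeg g J = dg a) (h0 : off g e J = 0) : J = base dg e a := by
  have h1 : ∀ s, s ≠ e (g s) → J s = 0 := by
    intro s hs
    have h2 := Finset.sum_eq_zero_iff.1 h0 s (Finset.mem_univ _)
    rwa [if_neg hs] at h2
  have h2 : ∀ i, J (e i) = dg a i := by
    intro i
    rw [← hJ]
    unfold mdeg
    rw [Finset.sum_eq_single (e i)]
    · rw [if_pos (he i)]
    · intro s _ hs
      split_ifs with hsi
      · exact h1 s (by rw [hsi]; exact hs)
      · rfl
    · intro h; exact absurd (Finset.mem_univ _) h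
  ext s
  unfold base
  rw [Finsupp.finsetSum_apply]
  by_cases hs : s = e (g s)
  · rw [Finset.sum_eq_single (g s)]
    · rw [← hs, Finsupp.single_eq_same, ← h2, ← hs]
    · intro i _ hi
      rw [Finsupp.single_eq_of_ne]
      intro h
      apply hi
      rw [h, he]
    · intro h; exact absurd (Finset.mem_univ _) h
  · rw [h1 s hs, Finset.sum_eq_zero]
    intro i _
    rw [Finsupp.single_eq_of_ne]
    intro h
    apply hs
    rw [h, he]

/-- The derivatives, modulo the tangent vectors. -/
theorem Ev_mod [Fintype ι] (dg : A → ι → ℕ) (D : A → (Fin (n + 1) →₀ ℕ) → Derivation ℤ K K)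
    (E : X → Derivation ℤ K K)
    (x : Fin (n + 1) → K) {e : ι → Fin (n + 1)} (hge : ∀ i, g (e i) = i) (he : ∀ i, x (e i) ≠ 0)
    (a : A) :
    ∀ (N : ℕ) (J : Fin (n + 1) →₀ ℕ), mdeg g J = dg a → off g e J = N →
      Ev D x a J - (mon x J / mon x (base dg e a)) • Ev D x a (base dg e a) ∈
        Submodule.span K (Set.range (wv g dg D E x)) := by
  classical
  obtain ⟨W, hW⟩ : ∃ W, W = Submodule.span K (Set.range (wv g dg D E x)) := ⟨_, rfl⟩
  obtain ⟨Y, hY⟩ : ∃ Y : (Fin (n + 1) →₀ ℕ) → Fin (n + 1) → K, ∀ I, Y I = Ev D x a I :=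
    ⟨_, fun _ => rfl⟩
  have hgW : ∀ o, wv g dg D E x o ∈ W := fun o => hW ▸ Submodule.subset_span ⟨o, rfl⟩
  have hB : mon x (base dg e a) ≠ 0 := by
    rw [mon_base]
    exact Finset.prod_ne_zero_iff.2 fun i _ => pow_ne_zero _ (he i)
  simp only [← hY, ← hW]
  intro N
  induction N with
  | zero =>
    intro J hJ hN
    rw [eq_base hge hJ hN, div_self hB, one_smul, sub_self]
    exact zero_mem _
  | succ N ih =>
    intro J hJ hN
    obtain ⟨s, hs, hJs⟩ : ∃ s, s ≠ e (g s) ∧ J s ≠ 0 := by
      by_contra hcon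
      push Not at hcon
      have h3 : off g e J = 0 := by
        refine Finset.sum_eq_zero fun s _ => ?_
        split_ifs with h
        · rfl
        · exact hcon s h
      omega
    obtain ⟨M, hM⟩ : ∃ M : Fin (n + 1) →₀ ℕ, J = M + Finsupp.single s 1 :=
      ⟨J - Finsupp.single s 1, by
        rw [tsub_add_cancel_of_le]
        rw [Finsupp.single_le_iff]
        omega⟩
    have hMd : mdeg g M + Pi.single (g s) 1 = dg a := by
      rw [← hJ, hM, mdeg_add, mdeg_single]
    have hgs : g s = g (e (g s)) := (hge _).symm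
    have h2 := hgW (Sum.inr (Sum.inr (a, M, s, e (g s))))
    have h3 : wv g dg D E x (Sum.inr (Sum.inr (a, M, s, e (g s)))) =
        x (e (g s)) • Y (M + Finsupp.single s 1) - x s • Y (M + Finsupp.single (e (g s)) 1) := by
      rw [hY, hY]
      simp only [wv, tv]
      rw [if_pos ⟨hgs, hMd⟩]
    rw [h3] at h2
    have h4 := ih (M + Finsupp.single (e (g s)) 1) (by
      rw [mdeg_add, mdeg_single, hge, hMd]) (by
      rw [hM, off_add, off_single, if_neg hs] at hN
      rw [off_add, off_single, hge, if_pos rfl]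
      omega)
    obtain ⟨β, hβ⟩ : ∃ β, β = mon x (base dg e a) := ⟨_, rfl⟩
    have hes := he (g s)
    rw [← hβ] at hB h4 ⊢
    have h5 : Y J - (mon x J / β) • Y (base dg e a) =
        (x (e (g s)))⁻¹ • (x (e (g s)) • Y (M + Finsupp.single s 1) -
          x s • Y (M + Finsupp.single (e (g s)) 1)) +
        (x s / x (e (g s))) • (Y (M + Finsupp.single (e (g s)) 1) -
          (mon x (M + Finsupp.single (e (g s)) 1) / β) • Y (base dg e a)) := by
      rw [hM, mon_add, mon_add, mon_single, mon_single, pow_one, pow_one]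
      funext l
      simp only [Pi.add_apply, Pi.sub_apply, Pi.smul_apply, smul_eq_mul]
      field_simp
      ring
    rw [h5]
    exact add_mem (Submodule.smul_mem _ _ h2) (Submodule.smul_mem _ _ h4)

/-- The rows: the vector fields and the derivatives with the exponents `I`. -/
noncomputable def vv (g : Fin (n + 1) → ι) (dg : A → ι → ℕ)
    (D : A → (Fin (n + 1) →₀ ℕ) → Derivation ℤ K K) (E : X → Derivation ℤ K K)
    (x : Fin (n + 1) → K) (I : A → Fin (n + 1) →₀ ℕ) : Ix ι X n A ⊕ A → Fin (n + 1) → K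
  | Sum.inl o => wv g dg D E x o
  | Sum.inr a => Ev D x a (I a)

/-- The degrees of the rows. -/
def rt (X : Type) (g : Fin (n + 1) → ι) : Ix ι X n A ⊕ A → ι → ℕ
  | Sum.inl (Sum.inl _) => 0
  | Sum.inl (Sum.inr (Sum.inl _)) => 0
  | Sum.inl (Sum.inr (Sum.inr t)) => Pi.single (g t.2.2.1) 1
  | Sum.inr _ => 0

/-- The factor of the scaling of a block. -/
def cfac (g : Fin (n + 1) → ι) (i : ι) (μ : K) (s : Fin (n + 1)) : K := if g s = i then μ else 1

/-- The rows if a block is scaled. -/
theorem vv_scale (g : Fin (n + 1) → ι) (dg : A → ι → ℕ)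
    (D : A → (Fin (n + 1) →₀ ℕ) → Derivation ℤ K K) (E : X → Derivation ℤ K K)
    (x : Fin (n + 1) → K) (i : ι) {μ : K} (hμ : μ ≠ 0) (I : A → Fin (n + 1) →₀ ℕ) :
    ∃ s : Ix ι X n A ⊕ A → K, s (Sum.inl (Sum.inl i)) = 0 ∧ ∀ r l,
      vv g dg D E (fun s => cfac g i μ s * x s) I r l =
      cfac g i μ l * (μ ^ rt X g r i * vv g dg D E x I r l + s r * bl g i x l) := by
  classical
  have hδ : ∀ (δ : Derivation ℤ K K) (l : Fin (n + 1)), δ (cfac g i μ l * x l) =
      cfac g i μ l * (δ (x l) + δ μ / μ * bl g i x l) := by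
    intro δ l
    unfold cfac bl
    split_ifs
    · rw [δ.leibniz]
      simp only [smul_eq_mul]
      field_simp
    · rw [one_mul, one_mul, mul_zero, add_zero]
  refine ⟨fun r => match r with
    | Sum.inl (Sum.inl _) => 0
    | Sum.inl (Sum.inr (Sum.inl ξ)) => E ξ μ / μ
    | Sum.inl (Sum.inr (Sum.inr t)) => if Ok g dg t then
        cfac g i μ t.2.2.1 * (x t.2.2.2 * (D t.1 (t.2.1 + Finsupp.single t.2.2.1 1) μ / μ) -
          x t.2.2.1 * (D t.1 (t.2.1 + Finsupp.single t.2.2.2 1) μ / μ)) else 0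
    | Sum.inr a => D a (I a) μ / μ, rfl, ?_⟩
  rintro ((j | ξ | t) | a) l
  · simp only [vv, wv, rt, Pi.zero_apply, pow_zero, one_mul, zero_mul, add_zero]
    unfold bl
    split_ifs
    · rfl
    · rw [mul_zero]
  · simp only [vv, wv, rt, Pi.zero_apply, pow_zero, one_mul]
    exact hδ _ l
  · simp only [vv, wv, rt, tv]
    split_ifs with ht
    · simp only [Pi.sub_apply, Pi.smul_apply, smul_eq_mul, Ev, hδ]
      have h1 : cfac g i μ t.2.2.2 = cfac g i μ t.2.2.1 := by
        unfold cfac
        rw [ht.1]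
      have h2 : μ ^ (Pi.single (g t.2.2.1) 1 : ι → ℕ) i = cfac g i μ t.2.2.1 := by
        unfold cfac
        by_cases h : g t.2.2.1 = i
        · rw [if_pos h, ← h, Pi.single_eq_same, pow_one]
        · rw [if_neg h, Pi.single_eq_of_ne (Ne.symm h), pow_zero]
      rw [h1, h2]
      ring
    · simp
  · simp only [vv, rt, Pi.zero_apply, pow_zero, one_mul]
    exact hδ _ l

end

end Pool.Agent.V7H76.MP
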